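import Mathlib

/-!
# Gradings by a semisimple element with eigenvalues `-1, 0, 1`

`L` is a Lie algebra acting on `V`, and `t : L` acts on `V` with `t ^ 3 = t`.
-/

namespace Pool.Agent.Helper88

open Module

section Grading

variable {K : Type*} [Field K] [CharZero K]
variable {L : Type*} [LieRing L] [LieAlgebra K L]
variable {V : Type*} [AddCommGroup V] [Module K V] [LieRingModule L V] [LieModule K L V]

/-- `t` acts on `V` with `t ^ 3 = t`. -/
def IsTripotentOn (V : Type*) [AddCommGroup V] [LieRingModule L V] (t : L) : Prop :=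
  ∀ v : V, ⁅t, ⁅t, ⁅t, v⁆⁆⁆ = ⁅t, v⁆

lemma lie_eigen_add {t x : L} {v : V} {a b : K} (hx : ⁅t, x⁆ = a • x) (hv : ⁅t, v⁆ = b • v) :
    ⁅t, ⁅x, v⁆⁆ = (a + b) • ⁅x, v⁆ := by
  rw [leibniz_lie, hx, hv, smul_lie, lie_smul, add_smul]

lemma IsTripotentOn.eq_zero {t : L} (ht : IsTripotentOn V t) {v : V} {a : K}
    (hv : ⁅t, v⁆ = a • v) (h0 : a ≠ 0) (h1 : a ≠ 1) (h2 : a ≠ -1) : v = 0 := by
  have h := ht v
  simp only [hv, lie_smul, smul_smul] at h
  have h3 : (a * a * a - a) • v = 0 := by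
    rw [sub_smul, ← h, sub_self]
  rcases smul_eq_zero.mp h3 with h4 | h4
  · exfalso
    have : a * ((a - 1) * (a + 1)) = 0 := by linear_combination h4
    rcases mul_eq_zero.mp this with h5 | h5
    · exact h0 h5
    · rcases mul_eq_zero.mp h5 with h6 | h6
      · exact h1 (sub_eq_zero.mp h6)
      · exact h2 (eq_neg_of_add_eq_zero_left h6)
  · exact h4

include K in
/-- Decomposition of a vector into eigenvectors. -/
lemma IsTripotentOn.decomp {t : L} (ht : IsTripotentOn V t) (v : V) :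
    ∃ a b c : V, v = a + b + c ∧ ⁅t, a⁆ = a ∧ ⁅t, b⁆ = 0 ∧ ⁅t, c⁆ = -c := by
  refine ⟨(2⁻¹ : K) • (⁅t, ⁅t, v⁆⁆ + ⁅t, v⁆), v - ⁅t, ⁅t, v⁆⁆,
    (2⁻¹ : K) • (⁅t, ⁅t, v⁆⁆ - ⁅t, v⁆), ?_, ?_, ?_, ?_⟩
  · have h2 : (2 : K) ≠ 0 := two_ne_zero
    have : (2⁻¹ : K) • (⁅t, ⁅t, v⁆⁆ + ⁅t, v⁆) + (2⁻¹ : K) • (⁅t, ⁅t, v⁆⁆ - ⁅t, v⁆) = ⁅t, ⁅t, v⁆⁆ := by
      rw [← smul_add]
      have : ⁅t, ⁅t, v⁆⁆ + ⁅t, v⁆ + (⁅t, ⁅t, v⁆⁆ - ⁅t, v⁆) = (2 : K) • ⁅t, ⁅t, v⁆⁆ := by
        rw [two_smul]; abel
      rw [this, smul_smul, inv_mul_cancel₀ h2, one_smul]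
    rw [add_right_comm, this]; abel
  · rw [lie_smul, lie_add, ht v]
    congr 1
    abel
  · rw [lie_sub, ht v, sub_self]
  · rw [lie_smul, lie_sub, ht v, ← smul_neg]
    congr 1
    abel

/-- Main lemma on graded irreducible modules: let `N` be a subspace of the `c`-eigenspace of `t`
(`c = 0` or `c = 1`), stable under the centraliser of `t` and killed by the elements of degree
`1`, `2`. Then the sum of `N` and eigenspaces of smaller eigenvalue is everything, in a strong
form: every vector is `a + b + d` with `a ∈ N`, `b` of eigenvalue `c - 1`, `d` of eigenvalue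
`c - 2`. -/
lemma exists_decomp_of_highest [LieModule.IsIrreducible K L V] {t : L}
    (ht : IsTripotentOn V t)
    (hL : ∀ x : L, x ∈ Submodule.span K {y : L | ∃ a : K, ⁅t, y⁆ = a • y})
    {c : K} (hc : c = 0 ∨ c = 1) {N : Submodule K V} (hN : N ≠ ⊥)
    (hNc : ∀ v ∈ N, ⁅t, v⁆ = c • v)
    (hN0 : ∀ x : L, ⁅t, x⁆ = 0 → ∀ v ∈ N, ⁅x, v⁆ ∈ N)
    (hN1 : ∀ x : L, ⁅t, x⁆ = x → ∀ v ∈ N, ⁅x, v⁆ = 0)
    (hN2 : ∀ x : L, ⁅t, x⁆ = (2 : K) • x → ∀ v ∈ N, ⁅x, v⁆ = 0) (v : V) :
    ∃ a b d : V, v = a + b + d ∧ a ∈ N ∧ ⁅t, b⁆ = (c - 1) • b ∧ ⁅t, d⁆ = (c - 2) • d := by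
  classical
  -- the degree pieces
  set W0 : Submodule K V := Submodule.span K {w | ∃ x : L, ⁅t, x⁆ = -x ∧ ∃ n ∈ N, w = ⁅x, n⁆} with hW0
  set W1 : Submodule K V := Submodule.span K
    ({w | ∃ x : L, ⁅t, x⁆ = -x ∧ ∃ n ∈ W0, w = ⁅x, n⁆} ∪
     {w | ∃ x : L, ⁅t, x⁆ = (-2 : K) • x ∧ ∃ n ∈ N, w = ⁅x, n⁆}) with hW1
  have hW0c : ∀ w ∈ W0, ⁅t, w⁆ = (c - 1) • w := by
    intro w hw
    induction hw using Submodule.span_induction with
    | mem w hw =>
      obtain ⟨x, hx, n, hn, rfl⟩ := hw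
      have := lie_eigen_add (K := K) (a := -1) (b := c) (x := x) (v := n) (t := t)
        (by rw [hx, neg_one_smul]) (hNc n hn)
      rw [this]; congr 1; ring
    | zero => simp
    | add x y _ _ hx hy => rw [lie_add, hx, hy, smul_add]
    | smul a x _ hx => rw [lie_smul, hx, smul_comm]
  have hW1c : ∀ w ∈ W1, ⁅t, w⁆ = (c - 2) • w := by
    intro w hw
    induction hw using Submodule.span_induction with
    | mem w hw =>
      rcases hw with hw | hw
      · obtain ⟨x, hx, n, hn, rfl⟩ := hw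
        have := lie_eigen_add (K := K) (a := -1) (b := c - 1) (x := x) (v := n) (t := t)
          (by rw [hx, neg_one_smul]) (hW0c n hn)
        rw [this]; congr 1; ring
      · obtain ⟨x, hx, n, hn, rfl⟩ := hw
        have := lie_eigen_add (K := K) (a := -2) (b := c) (x := x) (v := n) (t := t) hx (hNc n hn)
        rw [this]; congr 1; ring
    | zero => simp
    | add x y _ _ hx hy => rw [lie_add, hx, hy, smul_add]
    | smul a x _ hx => rw [lie_smul, hx, smul_comm]
  -- vanishing of very low weights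
  have hlow : ∀ (v : V) (k : K), (k = 3 ∨ k = 4) → ⁅t, v⁆ = (c - k) • v → v = 0 := by
    intro v k hk hv
    refine ht.eq_zero hv ?_ ?_ ?_ <;>
    · rcases hk with rfl | rfl <;> rcases hc with rfl | rfl <;> norm_num
  -- degree 0 part
  have h00 : ∀ y : L, ⁅t, y⁆ = 0 → ∀ w ∈ W0, ⁅y, w⁆ ∈ W0 := by
    intro y hy w hw
    induction hw using Submodule.span_induction with
    | mem w hw =>
      obtain ⟨x, hx, n, hn, rfl⟩ := hw
      rw [leibniz_lie]
      refine add_mem ?_ ?_
      · refine Submodule.subset_span ⟨⁅y, x⁆, ?_, n, hn, rfl⟩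
        rw [leibniz_lie, hy, hx]; simp
      · exact Submodule.subset_span ⟨x, hx, ⁅y, n⁆, hN0 y hy n hn, rfl⟩
    | zero => simp
    | add x y _ _ hx hy => rw [lie_add]; exact add_mem hx hy
    | smul a x _ hx => rw [lie_smul]; exact Submodule.smul_mem _ _ hx
  have h01 : ∀ y : L, ⁅t, y⁆ = 0 → ∀ w ∈ W1, ⁅y, w⁆ ∈ W1 := by
    intro y hy w hw
    induction hw using Submodule.span_induction with
    | mem w hw =>
      rcases hw with hw | hw
      · obtain ⟨x, hx, n, hn, rfl⟩ := hw
        rw [leibniz_lie]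
        refine add_mem ?_ ?_
        · refine Submodule.subset_span (Or.inl ⟨⁅y, x⁆, ?_, n, hn, rfl⟩)
          rw [leibniz_lie, hy, hx]; simp
        · exact Submodule.subset_span (Or.inl ⟨x, hx, ⁅y, n⁆, h00 y hy n hn, rfl⟩)
      · obtain ⟨x, hx, n, hn, rfl⟩ := hw
        rw [leibniz_lie]
        refine add_mem ?_ ?_
        · refine Submodule.subset_span (Or.inr ⟨⁅y, x⁆, ?_, n, hn, rfl⟩)
          rw [leibniz_lie, hy, hx]; simp
        · exact Submodule.subset_span (Or.inr ⟨x, hx, ⁅y, n⁆, hN0 y hy n hn, rfl⟩)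
    | zero => simp
    | add x y _ _ hx hy => rw [lie_add]; exact add_mem hx hy
    | smul a x _ hx => rw [lie_smul]; exact Submodule.smul_mem _ _ hx
  -- degree 1 part
  have h10 : ∀ y : L, ⁅t, y⁆ = y → ∀ w ∈ W0, ⁅y, w⁆ ∈ N := by
    intro y hy w hw
    induction hw using Submodule.span_induction with
    | mem w hw =>
      obtain ⟨x, hx, n, hn, rfl⟩ := hw
      rw [leibniz_lie, hN1 y hy n hn, lie_zero, add_zero]
      refine hN0 _ ?_ n hn
      rw [leibniz_lie, hy, hx, lie_neg, add_neg_cancel]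
    | zero => simp
    | add x y _ _ hx hy => rw [lie_add]; exact add_mem hx hy
    | smul a x _ hx => rw [lie_smul]; exact Submodule.smul_mem _ _ hx
  have h11 : ∀ y : L, ⁅t, y⁆ = y → ∀ w ∈ W1, ⁅y, w⁆ ∈ W0 := by
    intro y hy w hw
    induction hw using Submodule.span_induction with
    | mem w hw =>
      rcases hw with hw | hw
      · obtain ⟨x, hx, n, hn, rfl⟩ := hw
        rw [leibniz_lie]
        refine add_mem ?_ ?_
        · refine h00 _ ?_ n hn
          rw [leibniz_lie, hy, hx, lie_neg, add_neg_cancel]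
        · exact Submodule.subset_span ⟨x, hx, ⁅y, n⁆, h10 y hy n hn, rfl⟩
      · obtain ⟨x, hx, n, hn, rfl⟩ := hw
        rw [leibniz_lie, hN1 y hy n hn, lie_zero, add_zero]
        refine Submodule.subset_span ⟨⁅y, x⁆, ?_, n, hn, rfl⟩
        rw [leibniz_lie, hy, hx, lie_smul]
        have : ⁅y, x⁆ + (-2 : K) • ⁅y, x⁆ = (1 + (-2) : K) • ⁅y, x⁆ := by rw [add_smul, one_smul]
        rw [this]; norm_num
    | zero => simp
    | add x y _ _ hx hy => rw [lie_add]; exact add_mem hx hy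
    | smul a x _ hx => rw [lie_smul]; exact Submodule.smul_mem _ _ hx
  -- degree 2 part
  have h20 : ∀ y : L, ⁅t, y⁆ = (2 : K) • y → ∀ w ∈ W0, ⁅y, w⁆ = 0 := by
    intro y hy w hw
    induction hw using Submodule.span_induction with
    | mem w hw =>
      obtain ⟨x, hx, n, hn, rfl⟩ := hw
      rw [leibniz_lie, hN2 y hy n hn, lie_zero, add_zero]
      refine hN1 _ ?_ n hn
      rw [leibniz_lie, hy, hx, smul_lie, lie_neg, two_smul]; abel
    | zero => simp
    | add x y _ _ hx hy => rw [lie_add, hx, hy, add_zero]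
    | smul a x _ hx => rw [lie_smul, hx, smul_zero]
  have h21 : ∀ y : L, ⁅t, y⁆ = (2 : K) • y → ∀ w ∈ W1, ⁅y, w⁆ ∈ N := by
    intro y hy w hw
    induction hw using Submodule.span_induction with
    | mem w hw =>
      rcases hw with hw | hw
      · obtain ⟨x, hx, n, hn, rfl⟩ := hw
        rw [leibniz_lie, h20 y hy n hn, lie_zero, add_zero]
        refine h10 _ ?_ n hn
        rw [leibniz_lie, hy, hx, smul_lie, lie_neg, two_smul]; abel
      · obtain ⟨x, hx, n, hn, rfl⟩ := hw
        rw [leibniz_lie, hN2 y hy n hn, lie_zero, add_zero]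
        refine hN0 _ ?_ n hn
        rw [leibniz_lie, hy, hx, smul_lie, lie_smul, ← add_smul]; norm_num
    | zero => simp
    | add x y _ _ hx hy => rw [lie_add]; exact add_mem hx hy
    | smul a x _ hx => rw [lie_smul]; exact Submodule.smul_mem _ _ hx
  -- the submodule
  set W : Submodule K V := N ⊔ W0 ⊔ W1 with hW
  have hNW : N ≤ W := le_sup_left.trans le_sup_left
  have hW0W : W0 ≤ W := le_sup_right.trans le_sup_left
  have hW1W : W1 ≤ W := le_sup_right
  have hstab : ∀ y : L, (∃ a : K, ⁅t, y⁆ = a • y) → ∀ w ∈ W, ⁅y, w⁆ ∈ W := by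
    rintro y ⟨a, hy⟩ w hw
    by_cases h5 : a = 0 ∨ a = 1 ∨ a = 2 ∨ a = -1 ∨ a = -2
    · obtain ⟨w', hw', w1, hw1, rfl⟩ := Submodule.mem_sup.mp hw
      obtain ⟨n, hn, w0, hw0, rfl⟩ := Submodule.mem_sup.mp hw'
      rw [lie_add, lie_add]
      rcases h5 with rfl | rfl | rfl | rfl | rfl
      · rw [zero_smul] at hy
        exact add_mem (add_mem (hNW (hN0 y hy n hn)) (hW0W (h00 y hy w0 hw0)))
          (hW1W (h01 y hy w1 hw1))
      · rw [one_smul] at hy
        refine add_mem (add_mem ?_ (hNW (h10 y hy w0 hw0))) (hW0W (h11 y hy w1 hw1))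
        rw [hN1 y hy n hn]; exact zero_mem _
      · refine add_mem (add_mem ?_ ?_) (hNW (h21 y hy w1 hw1))
        · rw [hN2 y hy n hn]; exact zero_mem _
        · rw [h20 y hy w0 hw0]; exact zero_mem _
      · rw [neg_one_smul] at hy
        refine add_mem (add_mem (hW0W (Submodule.subset_span ⟨y, hy, n, hn, rfl⟩))
          (hW1W (Submodule.subset_span (Or.inl ⟨y, hy, w0, hw0, rfl⟩)))) ?_
        have : ⁅y, w1⁆ = 0 := by
          refine hlow _ 3 (Or.inl rfl) ?_
          rw [lie_eigen_add (K := K) (a := -1) (b := c - 2) (by rw [hy, neg_one_smul]) (hW1c w1 hw1)]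
          congr 1; ring
        rw [this]; exact zero_mem _
      · refine add_mem (add_mem (hW1W (Submodule.subset_span (Or.inr ⟨y, hy, n, hn, rfl⟩))) ?_) ?_
        · have : ⁅y, w0⁆ = 0 := by
            refine hlow _ 3 (Or.inl rfl) ?_
            rw [lie_eigen_add (K := K) (a := -2) (b := c - 1) hy (hW0c w0 hw0)]
            congr 1; ring
          rw [this]; exact zero_mem _
        · have : ⁅y, w1⁆ = 0 := by
            refine hlow _ 4 (Or.inr rfl) ?_
            rw [lie_eigen_add (K := K) (a := -2) (b := c - 2) hy (hW1c w1 hw1)]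
            congr 1; ring
          rw [this]; exact zero_mem _
    · push Not at h5
      obtain ⟨h50, h51, h52, h53, h54⟩ := h5
      -- `y` acts as zero
      have hzero : ∀ v : V, ⁅y, v⁆ = 0 := by
        intro v
        obtain ⟨p, q, r, rfl, hp, hq, hr⟩ := IsTripotentOn.decomp (K := K) ht v
        rw [lie_add, lie_add]
        have e1 : ⁅y, p⁆ = 0 := by
          refine ht.eq_zero (a := a + 1) (lie_eigen_add hy (by rw [hp, one_smul])) ?_ ?_ ?_
          · intro h; apply h53; linear_combination h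
          · intro h; apply h50; linear_combination h
          · intro h; apply h54; linear_combination h
        have e2 : ⁅y, q⁆ = 0 := by
          refine ht.eq_zero (a := a + 0) (lie_eigen_add hy (by rw [hq, zero_smul])) ?_ ?_ ?_
          · intro h; apply h50; linear_combination h
          · intro h; apply h51; linear_combination h
          · intro h; apply h53; linear_combination h
        have e3 : ⁅y, r⁆ = 0 := by
          refine ht.eq_zero (a := a + -1) (lie_eigen_add hy (by rw [hr, neg_one_smul])) ?_ ?_ ?_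
          · intro h; apply h51; linear_combination h
          · intro h; apply h52; linear_combination h
          · intro h; apply h50; linear_combination h
        rw [e1, e2, e3]; simp
      rw [hzero]; exact zero_mem _
  have hstab' : ∀ y : L, ∀ w ∈ W, ⁅y, w⁆ ∈ W := by
    intro y w hw
    induction hL y using Submodule.span_induction with
    | mem x hx => exact hstab x hx w hw
    | zero => rw [zero_lie]; exact zero_mem _
    | add x y _ _ hx hy => rw [add_lie]; exact add_mem hx hy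
    | smul a x _ hx => rw [smul_lie]; exact Submodule.smul_mem _ _ hx
  let WL : LieSubmodule K L V := { W with lie_mem := fun {x m} hm => hstab' x m hm }
  have hWL : WL = ⊤ := by
    refine (IsSimpleOrder.eq_bot_or_eq_top WL).resolve_left ?_
    intro h
    apply hN
    rw [eq_bot_iff]
    intro n hn
    have : n ∈ WL := hNW hn
    rw [h] at this
    exact this
  have hv : v ∈ WL := by rw [hWL]; exact LieSubmodule.mem_top v
  have hv' : v ∈ W := hv
  obtain ⟨w', hw', w1, hw1, rfl⟩ := Submodule.mem_sup.mp hv'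
  obtain ⟨n, hn, w0, hw0, rfl⟩ := Submodule.mem_sup.mp hw'
  exact ⟨n, w0, w1, rfl, hn, hW0c w0 hw0, hW1c w1 hw1⟩

end Grading

end Pool.Agent.Helper88
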