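import Mathlib

/-!
# Sets of weights of a root pairing

Purely combinatorial facts on saturated sets of weights containing `0`, with a coweight taking
only the values `-1, 0, 1` on them.
-/

set_option linter.unusedSectionVars false

namespace Pool.Agent.Helper88

open RootPairing

variable {ι K M N : Type*} [Finite ι] [Field K] [CharZero K]
  [AddCommGroup M] [Module K M] [AddCommGroup N] [Module K N]

/-- A set of weights containing zero, with integral values on coroots, with the usual string
property. -/
structure IsWeightSet (P : RootPairing ι K M N) (X : Set M) : Prop where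
  zero_mem : 0 ∈ X
  int : ∀ χ ∈ X, ∀ i, ∃ p : ℤ, P.coroot' i χ = p
  str : ∀ χ ∈ X, ∀ i, ∀ p : ℤ, P.coroot' i χ = p → ∀ j : ℕ, (j : ℤ) ≤ p →
    χ - (j : K) • P.root i ∈ X

namespace IsWeightSet

variable {P : RootPairing ι K M N} {X : Set M}

omit [Finite ι] [CharZero K] in
lemma coroot'_neg (i : ι) (χ : M) :
    P.coroot' (P.reflectionPerm i i) χ = - P.coroot' i χ := by
  simp [coroot']

omit [Finite ι] [CharZero K] in
lemma root_neg (i : ι) : P.root (P.reflectionPerm i i) = - P.root i := by
  simp

omit [Finite ι] [CharZero K] in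
lemma reflection_mem (hX : IsWeightSet P X) {χ : M} (hχ : χ ∈ X) (i : ι) :
    P.reflection i χ ∈ X := by
  obtain ⟨p, hp⟩ := hX.int χ hχ i
  rw [reflection_apply, hp]
  rcases le_or_gt 0 p with h | h
  · have := hX.str χ hχ i p hp p.toNat (by rw [Int.toNat_of_nonneg h])
    have e : ((p.toNat : ℕ) : K) = (p : K) := by
      have : ((p.toNat : ℕ) : ℤ) = p := Int.toNat_of_nonneg h
      exact_mod_cast congrArg (Int.cast : ℤ → K) this
    rwa [e] at this
  · have hp' : P.coroot' (P.reflectionPerm i i) χ = ((-p : ℤ) : K) := by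
      rw [coroot'_neg, hp]; push_cast; rfl
    have h' : 0 ≤ -p := by omega
    have := hX.str χ hχ (P.reflectionPerm i i) (-p) hp' (-p).toNat
      (by rw [Int.toNat_of_nonneg h'])
    have e : (((-p).toNat : ℕ) : K) = ((-p : ℤ) : K) := by
      have : (((-p).toNat : ℕ) : ℤ) = -p := Int.toNat_of_nonneg h'
      exact_mod_cast congrArg (Int.cast : ℤ → K) this
    rw [e, root_neg] at this
    push_cast at this
    rwa [neg_smul_neg] at this

omit [Finite ι] [CharZero K] in
lemma reflectionPerm_mem (hX : IsWeightSet P X) {i : ι} (hi : P.root i ∈ X) (k : ι) :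
    P.root (P.reflectionPerm k i) ∈ X := by
  rw [root_reflectionPerm]
  exact hX.reflection_mem hi k

omit [Finite ι] [CharZero K] in
lemma neg_root_mem (hX : IsWeightSet P X) {i : ι} (hi : P.root i ∈ X) :
    -P.root i ∈ X := by
  have := hX.reflection_mem hi i
  rwa [reflection_apply_self] at this

omit [Finite ι] [CharZero K] in
/-- one step down a string -/
lemma sub_mem (hX : IsWeightSet P X) {χ : M} (hχ : χ ∈ X) {i : ι} {p : ℤ}
    (hp : P.coroot' i χ = p) (h : 0 < p) : χ - P.root i ∈ X := by
  have := hX.str χ hχ i p hp 1 (by exact_mod_cast h)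
  simpa using this

omit [Finite ι] [CharZero K] in
/-- one step up a string -/
lemma add_mem (hX : IsWeightSet P X) {χ : M} (hχ : χ ∈ X) {i : ι} {p : ℤ}
    (hp : P.coroot' i χ = p) (h : p < 0) : χ + P.root i ∈ X := by
  have hp' : P.coroot' (P.reflectionPerm i i) χ = ((-p : ℤ) : K) := by
    rw [coroot'_neg, hp]; push_cast; rfl
  have := hX.sub_mem hχ hp' (by omega)
  rwa [root_neg, sub_neg_eq_add] at this

variable [P.IsRootSystem] [P.IsCrystallographic] [P.IsReduced] [P.IsIrreducible]

omit [Finite ι] [P.IsRootSystem] [P.IsCrystallographic] [P.IsReduced] in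
/-- The roots in a weight set span, if there are any. -/
lemma span_root_eq_top (hX : IsWeightSet P X) (hne : ∃ i, P.root i ∈ X) :
    Submodule.span K (P.root '' {i | P.root i ∈ X}) = ⊤ := by
  refine IsIrreducible.eq_top_of_invtSubmodule_reflection (P := P) _ (fun k ↦ ?_) ?_
  · rw [Module.End.mem_invtSubmodule, Submodule.span_le]
    rintro _ ⟨i, hi, rfl⟩
    refine Submodule.subset_span ⟨P.reflectionPerm k i, hX.reflectionPerm_mem hi k, ?_⟩
    rw [root_reflectionPerm]; rfl
  · obtain ⟨i, hi⟩ := hne
    intro h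
    have : P.root i ∈ (⊥ : Submodule K M) := h ▸ Submodule.subset_span ⟨i, hi, rfl⟩
    exact P.ne_zero i (by simpa using this)

omit [Finite ι] [P.IsRootSystem] [P.IsCrystallographic] [P.IsReduced] in
/-- The coroots attached to the roots in a weight set span, if there are any. -/
lemma span_coroot_eq_top (hX : IsWeightSet P X) (hne : ∃ i, P.root i ∈ X) :
    Submodule.span K (P.coroot '' {i | P.root i ∈ X}) = ⊤ := by
  refine IsIrreducible.eq_top_of_invtSubmodule_coreflection (P := P) _ (fun k ↦ ?_) ?_
  · rw [Module.End.mem_invtSubmodule, Submodule.span_le]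
    rintro _ ⟨i, hi, rfl⟩
    refine Submodule.subset_span ⟨P.reflectionPerm k i, hX.reflectionPerm_mem hi k, ?_⟩
    rw [coroot_reflectionPerm]; rfl
  · obtain ⟨i, hi⟩ := hne
    intro h
    have : P.coroot i ∈ (⊥ : Submodule K N) := h ▸ Submodule.subset_span ⟨i, hi, rfl⟩
    exact P.ne_zero' i (by simpa using this)

omit [Finite ι] [CharZero K] [P.IsRootSystem] [P.IsReduced] [P.IsIrreducible] in
lemma coroot'_root_cast (i j : ι) : P.coroot' j (P.root i) = ((P.pairingIn ℤ i j : ℤ) : K) := by
  rw [root_coroot'_eq_pairing, ← P.algebraMap_pairingIn ℤ i j]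
  simp

omit [P.IsRootSystem] in
/-- Every root outside of `X` is a sum of two roots in `X`. -/
lemma exists_add (hX : IsWeightSet P X) (hne : ∃ i, P.root i ∈ X) {k : ι} (hk : P.root k ∉ X) :
    ∃ i j, P.root i ∈ X ∧ P.root j ∈ X ∧ P.root k = P.root i + P.root j := by
  obtain ⟨i, hi, hik⟩ : ∃ i, P.root i ∈ X ∧ P.pairingIn ℤ i k ≠ 0 := by
    by_contra! h
    have h1 : Submodule.span K (P.root '' {i | P.root i ∈ X}) ≤ LinearMap.ker (P.coroot' k) := by
      rw [Submodule.span_le]
      rintro _ ⟨i, hi, rfl⟩
      rw [SetLike.mem_coe, LinearMap.mem_ker, coroot'_root_cast, h i hi, Int.cast_zero]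
    rw [hX.span_root_eq_top hne] at h1
    have h2 : P.root k ∈ LinearMap.ker (P.coroot' k) := h1 Submodule.mem_top
    rw [LinearMap.mem_ker, root_coroot'_eq_pairing, pairing_same] at h2
    exact two_ne_zero h2
  wlog hpos : 0 < P.pairingIn ℤ i k generalizing i
  · refine this (P.reflectionPerm i i) (hX.reflectionPerm_mem hi i) ?_ ?_
    · rw [pairingIn_reflectionPerm_self_left]; simpa using hik
    · rw [pairingIn_reflectionPerm_self_left]; omega
  have hne' : i ≠ k := by rintro rfl; exact hk hi
  obtain ⟨l, hl⟩ := P.root_sub_root_mem_of_pairingIn_pos hpos hne'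
  have hlX : P.root l ∈ X := by
    rw [hl]
    exact hX.sub_mem hi (coroot'_root_cast i k) hpos
  refine ⟨i, P.reflectionPerm l l, hi, hX.reflectionPerm_mem hlX l, ?_⟩
  rw [root_neg, hl]; abel

omit [Finite ι] [P.IsRootSystem] [P.IsCrystallographic] [P.IsReduced] [P.IsIrreducible] in
lemma pairing_comm_zero {i j : ι} (h : P.pairing i j = 0) : P.pairing j i = 0 :=
  (P.pairing_eq_zero_iff' (i := i) (j := j)).mp h

omit [Finite ι] [CharZero K] [P.IsRootSystem] [P.IsCrystallographic] [P.IsReduced] [P.IsIrreducible] in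
lemma pairing_neg_left (i j : ι) : P.pairing (P.reflectionPerm i i) j = - P.pairing i j := by
  simp

omit [P.IsRootSystem] in
/-- If the roots in `X` split into two orthogonal non-empty parts then they are pairwise
orthogonal. -/
lemma pairwise_orthogonal_of_decomp (hX : IsWeightSet P X) (A : Set ι)
    (hA : ∀ i ∈ A, P.root i ∈ X) (hAne : A.Nonempty) (hBne : ∃ j, P.root j ∈ X ∧ j ∉ A)
    (horth : ∀ i ∈ A, ∀ j, P.root j ∈ X → j ∉ A → P.pairing i j = 0) :
    ∀ i j, P.root i ∈ X → P.root j ∈ X → i ≠ j → P.root i ≠ - P.root j → P.pairing i j = 0 := by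
  classical
  have : Fintype ι := Fintype.ofFinite ι
  have hne : ∃ i, P.root i ∈ X := hAne.imp hA
  -- Step 1: a mixed root
  obtain ⟨k, hk, i0, hi0, j0, hj0X, hj0, hkij⟩ : ∃ k, P.root k ∉ X ∧ ∃ i ∈ A, ∃ j, P.root j ∈ X ∧
      j ∉ A ∧ P.root k = P.root i + P.root j := by
    by_contra! hmix
    have hq : Submodule.span K (P.root '' A) = ⊤ := by
      refine P.span_root_image_eq_top_of_forall_orthogonal A hAne ?_
      intro k hk i hi
      have key : P.pairing i k = 0 := by
        by_cases hkX : P.root k ∈ X
        · by_cases hkA : k ∈ A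
          · exact (hk (Submodule.subset_span ⟨k, hkA, rfl⟩)).elim
          · exact horth i hi k hkX hkA
        · obtain ⟨a, b, haX, hbX, hab⟩ := hX.exists_add hne hkX
          by_cases ha : a ∈ A
          · by_cases hb : b ∈ A
            · exfalso
              apply hk
              rw [hab]
              exact Submodule.add_mem _ (Submodule.subset_span ⟨a, ha, rfl⟩)
                (Submodule.subset_span ⟨b, hb, rfl⟩)
            · exact absurd hab (hmix k hkX a ha b hbX hb)
          · by_cases hb : b ∈ A
            · exact absurd (hab.trans (add_comm _ _)) (hmix k hkX b hb a haX ha)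
            · have h1 := pairing_comm_zero (horth i hi a haX ha)
              have h2 := pairing_comm_zero (horth i hi b hbX hb)
              apply pairing_comm_zero
              rw [P.pairing_eq_add_of_root_eq_add hab, h1, h2, add_zero]
      exact ⟨pairing_comm_zero key, key⟩
    obtain ⟨b, hbX, hb⟩ := hBne
    have h1 : Submodule.span K (P.root '' A) ≤ LinearMap.ker (P.coroot' b) := by
      rw [Submodule.span_le]
      rintro _ ⟨i, hi, rfl⟩
      rw [SetLike.mem_coe, LinearMap.mem_ker, root_coroot'_eq_pairing]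
      exact horth i hi b hbX hb
    rw [hq] at h1
    have h2 : P.root b ∈ LinearMap.ker (P.coroot' b) := h1 Submodule.mem_top
    rw [LinearMap.mem_ker, root_coroot'_eq_pairing, pairing_same] at h2
    exact two_ne_zero h2
  -- Step 2: `i0` is orthogonal to all other roots of `X`
  have e1 : P.pairing i0 j0 = 0 := horth i0 hi0 j0 hj0X hj0
  have e2 : P.pairing j0 i0 = 0 := pairing_comm_zero e1
  have e3 : P.pairingIn ℤ k i0 = 2 := by
    have : ((P.pairingIn ℤ k i0 : ℤ) : K) = ((2 : ℤ) : K) := by
      rw [← coroot'_root_cast, root_coroot'_eq_pairing, P.pairing_eq_add_of_root_eq_add hkij,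
        pairing_same, e2]
      norm_num
    exact_mod_cast this
  have hk1 : P.root k ≠ P.root i0 := fun h ↦ hk (h ▸ hA i0 hi0)
  have hk2 : P.root k ≠ -P.root i0 := fun h ↦ hk (h ▸ hX.neg_root_mem (hA i0 hi0))
  have e4 : P.pairingIn ℤ i0 k = 1 := by
    have := P.pairingIn_pairingIn_mem_set_of_isCrystal_of_isRed' k i0 hk1 hk2
    rw [e3] at this
    simpa using this
  have key2 : ∀ σ, P.root σ ∈ X → σ ≠ i0 → P.root σ ≠ - P.root i0 → P.pairing σ i0 = 0 := by
    intro σ hσ hne1 hne2
    by_cases hσA : σ ∈ A
    · have e5 : P.pairing σ j0 = 0 := horth σ hσA j0 hj0X hj0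
      let B := (P.posRootForm ℤ).toInvariantForm
      have b1 : B.form (P.root i0) (P.root j0) = 0 := by rw [B.apply_root_root_zero_iff]; exact e1
      have b2 : B.form (P.root σ) (P.root j0) = 0 := by rw [B.apply_root_root_zero_iff]; exact e5
      have b3 := B.two_mul_apply_root_root σ k
      have b4 := B.two_mul_apply_root_root i0 k
      have b5 := B.two_mul_apply_root_root σ i0
      have b6 : B.form (P.root i0) (P.root k) = B.form (P.root i0) (P.root i0) := by
        rw [hkij, map_add, b1, add_zero]
      have b7 : B.form (P.root σ) (P.root k) = B.form (P.root σ) (P.root i0) := by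
        rw [hkij, map_add, b2, add_zero]
      have b8 := B.ne_zero i0
      have e4' : P.pairing i0 k = 1 := by
        rw [← P.algebraMap_pairingIn ℤ i0 k, e4]; simp
      rw [e4', one_mul, b6] at b4
      rw [b7, b5, ← b4] at b3
      have b9 : P.pairing σ i0 = 2 * P.pairing σ k := by
        have : (P.pairing σ i0 - 2 * P.pairing σ k) * B.form (P.root i0) (P.root i0) = 0 := by
          linear_combination b3
        rcases mul_eq_zero.mp this with h | h
        · exact sub_eq_zero.mp h
        · exact absurd h b8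
      have b10 : P.pairingIn ℤ σ i0 = 2 * P.pairingIn ℤ σ k := by
        have : ((P.pairingIn ℤ σ i0 : ℤ) : K) = ((2 * P.pairingIn ℤ σ k : ℤ) : K) := by
          push_cast
          rw [← coroot'_root_cast, ← coroot'_root_cast, root_coroot'_eq_pairing,
            root_coroot'_eq_pairing, b9]
        exact_mod_cast this
      have hσ1 : P.root σ ≠ P.root i0 := fun h ↦ hne1 (P.root.injective h)
      have hset := P.pairingIn_pairingIn_mem_set_of_isCrystal_of_isRed' σ i0 hσ1 hne2
      by_contra hcon
      have hcon' : P.pairingIn ℤ σ i0 ≠ 0 := by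
        intro h
        apply hcon
        rw [← P.algebraMap_pairingIn ℤ σ i0, h]; simp
      -- common value `ε`
      obtain ⟨ε, hε, hε1, hε2⟩ : ∃ ε : ℤ, (ε = 1 ∨ ε = -1) ∧ P.pairingIn ℤ σ k = ε ∧
          P.pairingIn ℤ i0 σ = ε := by
        simp only [Set.mem_insert_iff, Prod.mk.injEq, Set.mem_singleton_iff] at hset
        rcases hset with h | h | h | h | h | h | h | h | h | h | h
        · exact absurd h.1 hcon'
        · omega
        · omega
        · omega
        · exact ⟨1, Or.inl rfl, by omega, h.2⟩
        · omega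
        · exact ⟨-1, Or.inr rfl, by omega, h.2⟩
        · omega
        · omega
        · omega
        · omega
      have c1 : P.pairing σ k = (ε : K) := by
        rw [← P.algebraMap_pairingIn ℤ σ k, hε1]; simp
      have c2 : P.pairing k σ = (ε : K) := by
        rw [P.pairing_eq_add_of_root_eq_add hkij, pairing_comm_zero e5, add_zero,
          ← P.algebraMap_pairingIn ℤ i0 σ, hε2]; simp
      have c3 : (ε : K) * ε = 1 := by rcases hε with rfl | rfl <;> norm_num
      have c4 : P.reflection k (P.reflection σ (P.root k)) = -((ε : K) • P.root σ) := by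
        rw [reflection_apply_root, c2, map_sub, map_smul, P.reflection_apply_self,
          reflection_apply_root, c1, smul_sub, smul_smul, c3, one_smul]
        abel
      have c5 : -((ε : K) • P.root σ) ∈ X := by
        rcases hε with rfl | rfl
        · simpa using hX.neg_root_mem hσ
        · simpa using hσ
      rw [← c4] at c5
      have c6 := hX.reflection_mem (hX.reflection_mem c5 k) σ
      rw [P.reflection_same, P.reflection_same] at c6
      exact hk c6
    · exact pairing_comm_zero (horth i0 hi0 σ hσ hσA)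
  -- Step 3: the set of roots of `X` orthogonal to all others
  set O : Set ι := {i | P.root i ∈ X ∧ ∀ σ, P.root σ ∈ X → σ ≠ i → P.root σ ≠ - P.root i →
    P.pairing σ i = 0} with hO
  have hi0O : i0 ∈ O := ⟨hA i0 hi0, key2⟩
  have hOstab : ∀ l, ∀ i ∈ O, P.reflectionPerm l i ∈ O := by
    rintro l i ⟨hiX, hi⟩
    refine ⟨hX.reflectionPerm_mem hiX l, ?_⟩
    intro σ hσ h1 h2
    rw [P.pairing_reflectionPerm]
    refine hi _ (hX.reflectionPerm_mem hσ l) ?_ ?_
    · rintro rfl
      apply h1
      rw [reflectionPerm_self]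
    · intro h
      apply h2
      rw [root_reflectionPerm] at h
      rw [root_reflectionPerm, ← map_neg, ← h, P.reflection_same]
  have hOspan : Submodule.span K (P.root '' O) = ⊤ := by
    refine IsIrreducible.eq_top_of_invtSubmodule_reflection (P := P) _ (fun l ↦ ?_) ?_
    · rw [Module.End.mem_invtSubmodule, Submodule.span_le]
      rintro _ ⟨i, hi, rfl⟩
      refine Submodule.subset_span ⟨P.reflectionPerm l i, hOstab l i hi, ?_⟩
      rw [root_reflectionPerm]; rfl
    · intro h
      have : P.root i0 ∈ (⊥ : Submodule K M) := h ▸ Submodule.subset_span ⟨i0, hi0O, rfl⟩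
      exact P.ne_zero i0 (by simpa using this)
  have hall : ∀ σ, P.root σ ∈ X → σ ∈ O := by
    intro σ hσ
    by_contra hσO
    have h1 : Submodule.span K (P.root '' O) ≤ LinearMap.ker (P.coroot' σ) := by
      rw [Submodule.span_le]
      rintro _ ⟨i, hi, rfl⟩
      rw [SetLike.mem_coe, LinearMap.mem_ker, root_coroot'_eq_pairing]
      apply pairing_comm_zero
      refine hi.2 σ hσ ?_ ?_
      · rintro rfl; exact hσO hi
      · intro h
        apply hσO
        have : σ = P.reflectionPerm i i := by
          apply P.root.injective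
          rw [root_neg, h]
        rw [this]
        exact hOstab i i hi
    rw [hOspan] at h1
    have h2 : P.root σ ∈ LinearMap.ker (P.coroot' σ) := h1 Submodule.mem_top
    rw [LinearMap.mem_ker, root_coroot'_eq_pairing, pairing_same] at h2
    exact two_ne_zero h2
  intro i j hi hj hij hij'
  exact (hall j hj).2 i hi hij hij'

/-- The set of roots in `X` does not split into two non-empty orthogonal parts. -/
def Indec (P : RootPairing ι K M N) (X : Set M) : Prop :=
  ∀ A : Set ι, (∀ i ∈ A, P.root i ∈ X) → A.Nonempty → (∃ j, P.root j ∈ X ∧ j ∉ A) →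
    ∃ i ∈ A, ∃ j, P.root j ∈ X ∧ j ∉ A ∧ P.pairing i j ≠ 0

section Level

variable {h : N}

lemma eq_zero_of_forall_root (hX : IsWeightSet P X) (hne : ∃ i, P.root i ∈ X) {x : N}
    (hx : ∀ i, P.root i ∈ X → P.toLinearMap (P.root i) x = 0) : x = 0 := by
  have h1 : Submodule.span K (P.root '' {i | P.root i ∈ X}) ≤
      LinearMap.ker (P.toLinearMap.flip x) := by
    rw [Submodule.span_le]
    rintro _ ⟨i, hi, rfl⟩
    rw [SetLike.mem_coe, LinearMap.mem_ker, LinearMap.flip_apply]
    exact hx i hi
  rw [hX.span_root_eq_top hne] at h1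
  have h2 : P.toLinearMap.flip x = 0 := by
    ext χ
    exact h1 (Submodule.mem_top (x := χ))
  have h3 : Function.Injective P.toLinearMap.flip := P.flip.toPerfPair.injective
  exact h3 (by rw [h2, map_zero])

lemma eq_zero_of_forall_coroot (hX : IsWeightSet P X) (hne : ∃ i, P.root i ∈ X) {μ : M}
    (hx : ∀ i, P.root i ∈ X → P.coroot' i μ = 0) : μ = 0 := by
  have h1 : Submodule.span K (P.coroot '' {i | P.root i ∈ X}) ≤
      LinearMap.ker (P.toLinearMap μ) := by
    rw [Submodule.span_le]
    rintro _ ⟨i, hi, rfl⟩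
    rw [SetLike.mem_coe, LinearMap.mem_ker]
    exact hx i hi
  rw [hX.span_coroot_eq_top hne] at h1
  have h2 : P.toLinearMap μ = 0 := by
    ext χ
    exact h1 (Submodule.mem_top (x := χ))
  have h3 : Function.Injective P.toLinearMap := P.toPerfPair.injective
  exact h3 (by rw [h2, map_zero])

lemma exists_level_one (hX : IsWeightSet P X) (hne : ∃ i, P.root i ∈ X) (hh : h ≠ 0)
    (hlev : ∀ χ ∈ X, P.toLinearMap χ h = 0 ∨ P.toLinearMap χ h = 1 ∨ P.toLinearMap χ h = -1) :
    ∃ i, P.root i ∈ X ∧ P.toLinearMap (P.root i) h = 1 := by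
  by_contra! hcon
  apply hh
  refine hX.eq_zero_of_forall_root hne fun i hi ↦ ?_
  rcases hlev _ hi with h0 | h1 | h1
  · exact h0
  · exact absurd h1 (hcon i hi)
  · exfalso
    refine hcon (P.reflectionPerm i i) (hX.reflectionPerm_mem hi i) ?_
    rw [root_neg, map_neg, LinearMap.neg_apply, h1, neg_neg]

lemma exists_pairing_ne_zero (hX : IsWeightSet P X) (hind : Indec P X)
    (hne : ∃ i, P.root i ∈ X) (hh : h ≠ 0)
    (hlev : ∀ χ ∈ X, P.toLinearMap χ h = 0 ∨ P.toLinearMap χ h = 1 ∨ P.toLinearMap χ h = -1)
    {j : ι} (hj : P.root j ∈ X) (hj0 : P.toLinearMap (P.root j) h = 0) :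
    ∃ i, P.root i ∈ X ∧ P.toLinearMap (P.root i) h = 1 ∧ P.pairing i j ≠ 0 := by
  by_contra! hcon
  obtain ⟨i1, hi1X, hi1⟩ := hX.exists_level_one hne hh hlev
  obtain ⟨a, ha, b, hbX, hbA, hab⟩ := hind {j | P.root j ∈ X ∧ P.toLinearMap (P.root j) h = 0 ∧
    ∀ i, P.root i ∈ X → P.toLinearMap (P.root i) h = 1 → P.pairing i j = 0}
    (fun i hi ↦ hi.1) ⟨j, hj, hj0, hcon⟩ ⟨i1, hi1X, fun h ↦ by
      have := h.2.1
      rw [hi1] at this
      exact one_ne_zero this⟩
  obtain ⟨haX, ha0, haorth⟩ := ha
  apply hab
  apply pairing_comm_zero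
  rcases hlev _ hbX with h0 | h1 | h1
  · have : ∃ i, P.root i ∈ X ∧ P.toLinearMap (P.root i) h = 1 ∧ P.pairing i b ≠ 0 := by
      by_contra! hcon2
      exact hbA ⟨hbX, h0, hcon2⟩
    obtain ⟨i, hiX, hi1, hib⟩ := this
    have h2 := haorth i hiX hi1
    have h3 := haorth (P.reflectionPerm b i) (hX.reflectionPerm_mem hiX b) (by
      rw [root_reflectionPerm, reflection_apply_root, map_sub, map_smul, LinearMap.sub_apply,
        LinearMap.smul_apply, h0, hi1]; simp)
    have h4 : P.pairing (P.reflectionPerm b i) a = P.pairing i a - P.pairing i b * P.pairing b a := by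
      rw [← root_coroot'_eq_pairing, root_reflectionPerm, reflection_apply_root, map_sub, map_smul]
      simp
    rw [h3, h2, zero_sub, eq_comm, neg_eq_zero] at h4
    exact (mul_eq_zero.mp h4).resolve_left hib
  · exact haorth b hbX h1
  · have := haorth (P.reflectionPerm b b) (hX.reflectionPerm_mem hbX b) (by
      rw [root_neg, map_neg, LinearMap.neg_apply, h1, neg_neg])
    rw [pairing_neg_left] at this
    simpa using this

lemma value_eq_of_pairing_ne_zero (hX : IsWeightSet P X)
    (hlev : ∀ χ ∈ X, P.toLinearMap χ h = 0 ∨ P.toLinearMap χ h = 1 ∨ P.toLinearMap χ h = -1)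
    {x : N} (hx : ∀ k, P.toLinearMap (P.root k) h = 0 → P.toLinearMap (P.root k) x = 0)
    {i j : ι} (hi : P.root i ∈ X) (hj : P.root j ∈ X)
    (hi1 : P.toLinearMap (P.root i) h = 1) (hj1 : P.toLinearMap (P.root j) h = 1)
    (hij : P.pairing i j ≠ 0) :
    P.toLinearMap (P.root i) x = P.toLinearMap (P.root j) x := by
  have hij' : P.pairingIn ℤ i j ≠ 0 := by
    intro h
    apply hij
    rw [← P.algebraMap_pairingIn ℤ i j, h]; simp
  rcases lt_or_gt_of_ne hij' with hneg | hpos
  · exfalso
    have := hX.add_mem hi (coroot'_root_cast i j) hneg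
    have h2 : P.toLinearMap (P.root i + P.root j) h = 2 := by
      rw [map_add, LinearMap.add_apply, hi1, hj1]; norm_num
    rcases hlev _ this with h3 | h3 | h3
    · rw [h2] at h3; exact two_ne_zero h3
    · rw [h2] at h3; norm_num at h3
    · rw [h2] at h3; norm_num at h3
  · by_cases heq : i = j
    · rw [heq]
    · obtain ⟨l, hl⟩ := P.root_sub_root_mem_of_pairingIn_pos hpos heq
      have h0 : P.toLinearMap (P.root l) h = 0 := by
        rw [hl, map_sub, LinearMap.sub_apply, hi1, hj1, sub_self]
      have := hx l h0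
      rw [hl, map_sub, LinearMap.sub_apply] at this
      exact sub_eq_zero.mp this

/-- An element of the Cartan orthogonal to all roots of level zero is a multiple of `h`. -/
lemma exists_smul_of_orthogonal (hX : IsWeightSet P X) (hind : Indec P X)
    (hne : ∃ i, P.root i ∈ X) (hh : h ≠ 0)
    (hlev : ∀ χ ∈ X, P.toLinearMap χ h = 0 ∨ P.toLinearMap χ h = 1 ∨ P.toLinearMap χ h = -1)
    {x : N} (hx : ∀ k, P.toLinearMap (P.root k) h = 0 → P.toLinearMap (P.root k) x = 0) :
    ∃ a : K, x = a • h := by
  obtain ⟨i1, hi1X, hi1⟩ := hX.exists_level_one hne hh hlev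
  set a := P.toLinearMap (P.root i1) x with ha
  -- all roots of `X` of level one have the same value
  have hval : ∀ i, P.root i ∈ X → P.toLinearMap (P.root i) h = 1 →
      P.toLinearMap (P.root i) x = a := by
    by_contra! hcon
    obtain ⟨i2, hi2X, hi2, hi2a⟩ := hcon
    obtain ⟨α, hα, β, hβX, hβA, hαβ⟩ := hind {i | P.root i ∈ X ∧
      ((P.toLinearMap (P.root i) h = 1 ∧ P.toLinearMap (P.root i) x = a) ∨
       (P.toLinearMap (P.root i) h = -1 ∧ P.toLinearMap (P.root i) x = -a) ∨
       (P.toLinearMap (P.root i) h = 0 ∧ ∃ j, P.root j ∈ X ∧ P.toLinearMap (P.root j) h = 1 ∧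
          P.toLinearMap (P.root j) x = a ∧ P.pairing j i ≠ 0))}
      (fun i hi ↦ hi.1) ⟨i1, hi1X, Or.inl ⟨hi1, rfl⟩⟩ ⟨i2, hi2X, by
        rintro ⟨-, h | h | h⟩
        · exact hi2a h.2
        · rw [hi2] at h; norm_num at h
        · rw [hi2] at h; exact one_ne_zero h.1⟩
    -- `β` is orthogonal to all roots of level one and value `a`
    have hβ : ∀ s, P.root s ∈ X → P.toLinearMap (P.root s) h = 1 →
        P.toLinearMap (P.root s) x = a → P.pairing s β = 0 := by
      intro s hsX hs1 hsa
      by_contra hsβ
      rcases hlev _ hβX with h0 | h1 | h1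
      · exact hβA ⟨hβX, Or.inr (Or.inr ⟨h0, s, hsX, hs1, hsa, hsβ⟩)⟩
      · apply hβA
        refine ⟨hβX, Or.inl ⟨h1, ?_⟩⟩
        rw [← hsa]
        exact (hX.value_eq_of_pairing_ne_zero hlev hx hsX hβX hs1 h1 hsβ).symm
      · apply hβA
        refine ⟨hβX, Or.inr (Or.inl ⟨h1, ?_⟩)⟩
        have h2 : P.toLinearMap (P.root (P.reflectionPerm β β)) h = 1 := by
          rw [root_neg, map_neg, LinearMap.neg_apply, h1, neg_neg]
        have h3 : P.pairing s (P.reflectionPerm β β) ≠ 0 := by
          intro h4
          apply hsβ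
          have := pairing_comm_zero h4
          rw [pairing_neg_left, neg_eq_zero] at this
          exact pairing_comm_zero this
        have := hX.value_eq_of_pairing_ne_zero hlev hx hsX (hX.reflectionPerm_mem hβX β) hs1 h2 h3
        rw [hsa, root_neg, map_neg, LinearMap.neg_apply] at this
        rw [this, neg_neg]
    apply hαβ
    obtain ⟨hαX, h | h | h⟩ := hα
    · exact hβ α hαX h.1 h.2
    · have := hβ (P.reflectionPerm α α) (hX.reflectionPerm_mem hαX α)
        (by rw [root_neg, map_neg, LinearMap.neg_apply, h.1, neg_neg])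
        (by rw [root_neg, map_neg, LinearMap.neg_apply, h.2, neg_neg])
      rw [pairing_neg_left] at this
      simpa using this
    · obtain ⟨h0, j, hjX, hj1, hja, hjα⟩ := h
      have h2 := hβ j hjX hj1 hja
      have h3 := hβ (P.reflectionPerm α j) (hX.reflectionPerm_mem hjX α)
        (by
          rw [root_reflectionPerm, reflection_apply_root, map_sub, map_smul, LinearMap.sub_apply,
            LinearMap.smul_apply, h0, hj1]; simp)
        (by
          rw [root_reflectionPerm, reflection_apply_root, map_sub, map_smul, LinearMap.sub_apply,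
            LinearMap.smul_apply, hx α h0, hja]; simp)
      have h4 : P.pairing (P.reflectionPerm α j) β =
          P.pairing j β - P.pairing j α * P.pairing α β := by
        rw [← root_coroot'_eq_pairing, root_reflectionPerm, reflection_apply_root, map_sub,
          map_smul]
        simp
      rw [h3, h2, zero_sub, eq_comm, neg_eq_zero] at h4
      exact (mul_eq_zero.mp h4).resolve_left hjα
  refine ⟨a, ?_⟩
  rw [← sub_eq_zero]
  refine hX.eq_zero_of_forall_root hne fun i hi ↦ ?_
  rw [map_sub, map_smul, smul_eq_mul]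
  rcases hlev _ hi with h0 | h1 | h1
  · rw [h0, hx i h0]; ring
  · rw [h1, hval i hi h1]; ring
  · have h2 : P.toLinearMap (P.root (P.reflectionPerm i i)) h = 1 := by
      rw [root_neg, map_neg, LinearMap.neg_apply, h1, neg_neg]
    have := hval _ (hX.reflectionPerm_mem hi i) h2
    rw [root_neg, map_neg, LinearMap.neg_apply] at this
    rw [h1, ← this]; ring

/-- Main combinatorial lemma in the indecomposable case. -/
lemma eq_zero_of_level_zero (hX : IsWeightSet P X) (hind : Indec P X)
    (hne : ∃ i, P.root i ∈ X) (hh : h ≠ 0)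
    (hlev : ∀ χ ∈ X, P.toLinearMap χ h = 0 ∨ P.toLinearMap χ h = 1 ∨ P.toLinearMap χ h = -1)
    {μ : M} (hμ : P.toLinearMap μ h = 0)
    (hnat : ∀ i, P.root i ∈ X → P.toLinearMap (P.root i) h = 1 → ∃ n : ℕ, P.coroot' i μ = n) :
    μ = 0 := by
  classical
  have : Fintype ι := Fintype.ofFinite ι
  set S : Finset ι := Finset.univ.filter
    (fun i ↦ P.root i ∈ X ∧ P.toLinearMap (P.root i) h = 1) with hS
  have hmemS : ∀ i, i ∈ S ↔ (P.root i ∈ X ∧ P.toLinearMap (P.root i) h = 1) := by
    intro i; simp [hS]
  set z : N := ∑ i ∈ S, P.coroot i with hz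
  have hz0 : ∀ k, P.toLinearMap (P.root k) h = 0 → P.toLinearMap (P.root k) z = 0 := by
    intro k hk
    have hstab : ∀ i ∈ S, P.reflectionPerm k i ∈ S := by
      intro i hi
      rw [hmemS] at hi ⊢
      refine ⟨hX.reflectionPerm_mem hi.1 k, ?_⟩
      rw [root_reflectionPerm, reflection_apply_root, map_sub, map_smul, LinearMap.sub_apply,
        LinearMap.smul_apply, hk, hi.2]; simp
    have h1 : P.coreflection k z = z := by
      rw [hz, map_sum]
      refine Finset.sum_bij' (fun i _ ↦ P.reflectionPerm k i) (fun i _ ↦ P.reflectionPerm k i)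
        hstab hstab ?_ ?_ ?_
      · intro i _; simp
      · intro i _; simp
      · intro i _; simp
    rw [P.coreflection_apply, sub_eq_self] at h1
    rcases smul_eq_zero.mp h1 with h2 | h2
    · exact h2
    · exact absurd h2 (P.ne_zero' k)
  obtain ⟨c, hc⟩ := hX.exists_smul_of_orthogonal hind hne hh hlev hz0
  have hsum : ∑ i ∈ S, P.coroot' i μ = 0 := by
    have : P.toLinearMap μ z = 0 := by rw [hc, map_smul, hμ, smul_zero]
    rw [hz, map_sum] at this
    exact this
  have hall : ∀ i ∈ S, P.coroot' i μ = 0 := by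
    choose! n hn using hnat
    have hn' : ∀ i ∈ S, P.coroot' i μ = n i := fun i hi ↦
      hn i ((hmemS i).mp hi).1 ((hmemS i).mp hi).2
    rw [Finset.sum_congr rfl hn', ← Nat.cast_sum, Nat.cast_eq_zero, Finset.sum_eq_zero_iff] at hsum
    intro i hi
    rw [hn' i hi, hsum i hi, Nat.cast_zero]
  refine hX.eq_zero_of_forall_coroot hne fun i hi ↦ ?_
  rcases hlev _ hi with h0 | h1 | h1
  · obtain ⟨j, hjX, hj1, hji⟩ := hX.exists_pairing_ne_zero hind hne hh hlev hi h0
    have h2 := hall j ((hmemS j).mpr ⟨hjX, hj1⟩)
    have h3 := hall (P.reflectionPerm i j) ((hmemS _).mpr ⟨hX.reflectionPerm_mem hjX i, by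
      rw [root_reflectionPerm, reflection_apply_root, map_sub, map_smul, LinearMap.sub_apply,
        LinearMap.smul_apply, h0, hj1]; simp⟩)
    have h4 : P.coroot' (P.reflectionPerm i j) μ = P.coroot' j μ - P.pairing i j * P.coroot' i μ := by
      simp only [coroot', coroot_reflectionPerm, P.coreflection_apply_coroot, map_sub, map_smul,
        LinearMap.sub_apply, LinearMap.smul_apply, smul_eq_mul]
    rw [h3, h2, zero_sub, eq_comm, neg_eq_zero] at h4
    refine (mul_eq_zero.mp h4).resolve_left fun h5 ↦ hji (pairing_comm_zero h5)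
  · exact hall i ((hmemS i).mpr ⟨hi, h1⟩)
  · have := hall (P.reflectionPerm i i) ((hmemS _).mpr ⟨hX.reflectionPerm_mem hi i, by
      rw [root_neg, map_neg, LinearMap.neg_apply, h1, neg_neg]⟩)
    rw [coroot'_neg, neg_eq_zero] at this
    exact this

end Level

/-- The roots in `X` are pairwise orthogonal. -/
def PairwiseOrth (P : RootPairing ι K M N) (X : Set M) : Prop :=
  ∀ i j, P.root i ∈ X → P.root j ∈ X → i ≠ j → P.root i ≠ - P.root j → P.pairing i j = 0

section Orth

lemma indec_or_pairwiseOrth (hX : IsWeightSet P X) : Indec P X ∨ PairwiseOrth P X := by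
  by_cases h : Indec P X
  · exact Or.inl h
  · right
    unfold Indec at h
    push Not at h
    obtain ⟨A, hA, hAne, hBne, horth⟩ := h
    exact hX.pairwise_orthogonal_of_decomp A hA hAne hBne horth

/-- Sign flips. -/
lemma adj_neg_left {i j l : ι} (hij : P.pairing j i = 0) (hl : P.root l = P.root i + P.root j) :
    P.root (P.reflectionPerm i l) = -P.root i + P.root j := by
  rw [root_reflectionPerm, hl, map_add, P.reflection_apply_self, reflection_apply_root, hij]
  simp

/-- In a sum of two orthogonal roots, the pairings are `1`. -/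
lemma pairing_of_add {i j l : ι} (hij : P.pairing i j = 0)
    (hl : P.root l = P.root i + P.root j) : P.pairing i l = 1 := by
  have hji : P.pairing j i = 0 := pairing_comm_zero hij
  have e3 : P.pairing l i = 2 := by
    rw [P.pairing_eq_add_of_root_eq_add hl, pairing_same, hji, add_zero]
  have e3' : P.pairingIn ℤ l i = 2 := by
    have : ((P.pairingIn ℤ l i : ℤ) : K) = ((2 : ℤ) : K) := by
      rw [← coroot'_root_cast, root_coroot'_eq_pairing, e3]
      norm_num
    exact_mod_cast this
  have h1 : P.root l ≠ P.root i := by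
    intro h
    rw [h, left_eq_add] at hl
    exact P.ne_zero j hl
  have h2 : P.root l ≠ -P.root i := by
    intro h
    have : P.pairing l j = - P.pairing i j := by
      rw [← root_coroot'_eq_pairing, h, map_neg, root_coroot'_eq_pairing]
    rw [P.pairing_eq_add_of_root_eq_add hl, pairing_same, hij] at this
    norm_num at this
  have := P.pairingIn_pairingIn_mem_set_of_isCrystal_of_isRed' l i h1 h2
  rw [e3'] at this
  have e4 : P.pairingIn ℤ i l = 1 := by simpa using this
  rw [← P.algebraMap_pairingIn ℤ i l, e4]; simp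

/-- Transitivity of adjacency. -/
lemma adj_trans {i k b m l : ι} (hik : P.pairing i k = 0) (hib : P.pairing i b = 0)
    (hkb : P.pairing k b = 0) (hm : P.root m = P.root i + P.root k)
    (hl : P.root l = P.root k + P.root b) : ∃ r, P.root r = P.root i + P.root b := by
  -- `root l' = - root b + root k`
  have hl' : P.root l = P.root b + P.root k := by rw [hl, add_comm]
  have h1 := adj_neg_left (i := b) (j := k) hkb hl'
  set l' := P.reflectionPerm b l
  have h2 : P.root l' = P.root k + P.root (P.reflectionPerm b b) := by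
    rw [h1, root_neg, add_comm]
  have h3 : P.pairing k l' = 1 := by
    refine pairing_of_add (j := P.reflectionPerm b b) ?_ h2
    apply pairing_comm_zero
    rw [pairing_neg_left, pairing_comm_zero hkb, neg_zero]
  have h4 : P.pairing i l' = 0 := by
    apply pairing_comm_zero
    rw [P.pairing_eq_add_of_root_eq_add h2, pairing_comm_zero hik, pairing_neg_left,
      pairing_comm_zero hib]
    simp
  refine ⟨P.reflectionPerm l' m, ?_⟩
  rw [root_reflectionPerm, reflection_apply_root, P.pairing_eq_add_of_root_eq_add hm, h3, h4, hm,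
    h2, root_neg]
  simp only [zero_add, one_smul]
  abel

lemma exists_add_root (hX : IsWeightSet P X) (horth : PairwiseOrth P X) {i j : ι}
    (hi : P.root i ∈ X) (hj : P.root j ∈ X) (hij : i ≠ j) (hij' : P.root i ≠ - P.root j) :
    ∃ l, P.root l = P.root i + P.root j := by
  classical
  set S : Set ι := {k | P.root k ∈ X ∧ (P.root k = P.root i ∨ P.root k = - P.root i ∨
    (∃ l, P.root l = P.root i + P.root k))} with hS
  have hiS : i ∈ S := ⟨hi, Or.inl rfl⟩
  -- closure under negation
  have hneg : ∀ k ∈ S, P.reflectionPerm k k ∈ S := by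
    rintro k ⟨hkX, h⟩
    refine ⟨hX.reflectionPerm_mem hkX k, ?_⟩
    rw [root_neg]
    rcases h with h | h | ⟨l, hl⟩
    · right; left; rw [h]
    · left; rw [h, neg_neg]
    · by_cases h1 : k = i
      · right; left; rw [h1]
      · by_cases h2 : P.root k = - P.root i
        · left; rw [h2, neg_neg]
        · right; right
          have h3 := horth k i hkX hi h1 h2
          refine ⟨P.reflectionPerm k l, ?_⟩
          rw [adj_neg_left (i := k) (j := i) (pairing_comm_zero h3) (by rw [hl, add_comm]),
            add_comm]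
  have hspan : Submodule.span K (P.root '' S) = ⊤ := by
    refine P.span_root_image_eq_top_of_forall_orthogonal S ⟨i, hiS⟩ ?_
    intro l hl k hk
    have hkX := hk.1
    suffices P.pairing l k = 0 from ⟨this, pairing_comm_zero this⟩
    by_contra hlk
    by_cases hlX : P.root l ∈ X
    · apply hl
      by_cases h1 : l = k
      · rw [h1]; exact Submodule.subset_span ⟨k, hk, rfl⟩
      · by_cases h2 : P.root l = - P.root k
        · rw [h2, ← root_neg (P := P) k]
          exact Submodule.subset_span ⟨_, hneg k hk, rfl⟩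
        · exact absurd (horth l k hlX hkX h1 h2) hlk
    · obtain ⟨a, b, haX, hbX, hab⟩ := hX.exists_add ⟨i, hi⟩ hlX
      -- symmetric statement
      have main : ∀ a b, P.root a ∈ X → P.root b ∈ X → P.root l = P.root a + P.root b →
          P.pairing a k ≠ 0 → False := by
        intro a b haX hbX hab hak
        -- `a = ± k`, so `a ∈ S`
        have haS : a ∈ S := by
          by_cases h1 : a = k
          · rw [h1]; exact hk
          · by_cases h2 : P.root a = - P.root k
            · have : a = P.reflectionPerm k k := by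
                apply P.root.injective; rw [root_neg, h2]
              rw [this]; exact hneg k hk
            · exact absurd (horth a k haX hkX h1 h2) hak
        apply hl
        rw [hab]
        refine Submodule.add_mem _ (Submodule.subset_span ⟨a, haS, rfl⟩) ?_
        by_cases h1 : b = a
        · rw [h1]; exact Submodule.subset_span ⟨a, haS, rfl⟩
        by_cases h2 : P.root b = - P.root a
        · rw [h2, ← root_neg (P := P) a]
          exact Submodule.subset_span ⟨_, hneg a haS, rfl⟩
        have hba := horth b a hbX haX h1 h2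
        refine Submodule.subset_span ⟨b, ⟨hbX, ?_⟩, rfl⟩
        rcases haS.2 with h | h | ⟨m, hm⟩
        · right; right
          exact ⟨l, by rw [hab, h]⟩
        · right; right
          refine ⟨P.reflectionPerm a l, ?_⟩
          rw [adj_neg_left hba hab, h, neg_neg]
        · by_cases h3 : b = i
          · left; rw [h3]
          by_cases h4 : P.root b = - P.root i
          · right; left; exact h4
          right; right
          by_cases h5 : a = i
          · exact ⟨l, by rw [hab, h5]⟩
          by_cases h6 : P.root a = - P.root i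
          · refine ⟨P.reflectionPerm a l, ?_⟩
            rw [adj_neg_left hba hab, h6, neg_neg]
          have hai := horth a i haX hi h5 h6
          have hbi := horth b i hbX hi h3 h4
          exact adj_trans (pairing_comm_zero hai) (pairing_comm_zero hbi)
            (pairing_comm_zero hba) hm hab
      rw [P.pairing_eq_add_of_root_eq_add hab] at hlk
      by_cases h1 : P.pairing a k = 0
      · rw [h1, zero_add] at hlk
        exact main b a hbX haX (by rw [hab, add_comm]) hlk
      · exact main a b haX hbX hab h1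
  have hjS : j ∈ S := by
    by_contra hjS
    have h1 : Submodule.span K (P.root '' S) ≤ LinearMap.ker (P.coroot' j) := by
      rw [Submodule.span_le]
      rintro _ ⟨k, hk, rfl⟩
      rw [SetLike.mem_coe, LinearMap.mem_ker, root_coroot'_eq_pairing]
      refine horth k j hk.1 hj ?_ ?_
      · rintro rfl; exact hjS hk
      · intro h
        apply hjS
        have : j = P.reflectionPerm k k := by
          apply P.root.injective; rw [root_neg, h, neg_neg]
        rw [this]; exact hneg k hk
    rw [hspan] at h1
    have h2 : P.root j ∈ LinearMap.ker (P.coroot' j) := h1 Submodule.mem_top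
    rw [LinearMap.mem_ker, root_coroot'_eq_pairing, pairing_same] at h2
    exact two_ne_zero h2
  rcases hjS.2 with h | h | h
  · exact absurd (P.root.injective h).symm hij
  · exact absurd (by rw [h, neg_neg]) hij'
  · exact h

/-- A sum of two orthogonal roots in `X` is not in `X`. -/
lemma add_notMem (horth : PairwiseOrth P X) {i j l : ι}
    (hi : P.root i ∈ X) (hij : P.pairing i j = 0)
    (hl : P.root l = P.root i + P.root j) : P.root l ∉ X := by
  intro hlX
  have h1 : l ≠ i := by
    rintro rfl
    rw [left_eq_add] at hl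
    exact P.ne_zero j hl
  have h2 : P.root l ≠ -P.root i := by
    intro h
    have : P.pairing l j = - P.pairing i j := by
      rw [← root_coroot'_eq_pairing, h, map_neg, root_coroot'_eq_pairing]
    rw [P.pairing_eq_add_of_root_eq_add hl, pairing_same, hij] at this
    norm_num at this
  have h3 := horth l i hlX hi h1 h2
  rw [P.pairing_eq_add_of_root_eq_add hl, pairing_same, pairing_comm_zero hij] at h3
  norm_num at h3

lemma even_pairing (hX : IsWeightSet P X) (horth : PairwiseOrth P X) {i : ι}
    (hi : P.root i ∈ X) (k : ι) : ∃ m : ℤ, P.coroot' i (P.root k) = 2 * (m : K) := by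
  have base : ∀ k, P.root k ∈ X → ∃ m : ℤ, P.coroot' i (P.root k) = 2 * (m : K) := by
    intro k hk
    by_cases h1 : k = i
    · exact ⟨1, by rw [h1, root_coroot'_eq_pairing, pairing_same]; norm_num⟩
    by_cases h2 : P.root k = - P.root i
    · exact ⟨-1, by rw [h2, map_neg, root_coroot'_eq_pairing, pairing_same]; norm_num⟩
    · exact ⟨0, by rw [root_coroot'_eq_pairing, horth k i hk hi h1 h2]; norm_num⟩
  by_cases hk : P.root k ∈ X
  · exact base k hk
  · obtain ⟨a, b, haX, hbX, hab⟩ := hX.exists_add ⟨i, hi⟩ hk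
    obtain ⟨m, hm⟩ := base a haX
    obtain ⟨m', hm'⟩ := base b hbX
    exact ⟨m + m', by rw [hab, map_add, hm, hm']; push_cast; ring⟩

lemma even_of_mem (hX : IsWeightSet P X) (horth : PairwiseOrth P X)
    (hZ : ∀ χ ∈ X, χ ∈ AddSubgroup.closure (Set.range P.root)) {i : ι}
    (hi : P.root i ∈ X) {χ : M} (hχ : χ ∈ X) : ∃ m : ℤ, P.coroot' i χ = 2 * (m : K) := by
  have : ∀ χ ∈ AddSubgroup.closure (Set.range P.root), ∃ m : ℤ, P.coroot' i χ = 2 * (m : K) := by
    intro χ hχ
    induction hχ using AddSubgroup.closure_induction with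
    | mem x hx =>
      obtain ⟨k, rfl⟩ := hx
      exact hX.even_pairing horth hi k
    | zero => exact ⟨0, by simp⟩
    | add x y _ _ hx hy =>
      obtain ⟨m, hm⟩ := hx
      obtain ⟨m', hm'⟩ := hy
      exact ⟨m + m', by rw [map_add, hm, hm']; push_cast; ring⟩
    | neg x _ hx =>
      obtain ⟨m, hm⟩ := hx
      exact ⟨-m, by rw [map_neg, hm]; push_cast; ring⟩
  exact this χ (hZ χ hχ)

lemma sub_smul_mem (hX : IsWeightSet P X) {i : ι} {χ : M} (hχ : χ ∈ X) {m : ℤ}
    (hm : P.coroot' i χ = 2 * (m : K)) : χ - (m : K) • P.root i ∈ X := by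
  rcases le_or_gt 0 m with h | h
  · obtain ⟨n, rfl⟩ := Int.eq_ofNat_of_zero_le h
    have := hX.str χ hχ i (2 * (n : ℤ)) (by rw [hm]; push_cast; ring) n (by omega)
    exact_mod_cast this
  · obtain ⟨n, hn⟩ := Int.eq_ofNat_of_zero_le (a := -m) (by omega)
    have hm' : m = -(n : ℤ) := by omega
    have := hX.str χ hχ (P.reflectionPerm i i) (2 * (n : ℤ)) (by
      rw [coroot'_neg, hm, hm']; push_cast; ring) n (by omega)
    rw [root_neg] at this
    rw [hm']
    push_cast
    rwa [neg_smul, ← smul_neg]

/-- kill finitely many coordinates -/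
lemma exists_kill (hX : IsWeightSet P X) (horth : PairwiseOrth P X)
    (hZ : ∀ χ ∈ X, χ ∈ AddSubgroup.closure (Set.range P.root))
    (F : Finset ι) (hF : ∀ i ∈ F, P.root i ∈ X) {χ : M} (hχ : χ ∈ X) :
    ∃ χ' ∈ X, (∀ i ∈ F, P.coroot' i χ' = 0) ∧
      (∀ j, (∀ i ∈ F, P.pairing i j = 0) → P.coroot' j χ' = P.coroot' j χ) := by
  classical
  induction F using Finset.induction_on with
  | empty => exact ⟨χ, hχ, by simp, fun _ _ ↦ rfl⟩
  | insert i F hiF ih =>
    obtain ⟨χ', hχ', h1, h2⟩ := ih (fun j hj ↦ hF j (Finset.mem_insert_of_mem hj))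
    have hiX : P.root i ∈ X := hF i (Finset.mem_insert_self i F)
    obtain ⟨m, hm⟩ := hX.even_of_mem horth hZ hiX hχ'
    have hii : P.coroot' i (χ' - (m : K) • P.root i) = 0 := by
      rw [map_sub, map_smul, hm, root_coroot'_eq_pairing, pairing_same, smul_eq_mul]; ring
    refine ⟨χ' - (m : K) • P.root i, hX.sub_smul_mem hχ' hm, ?_, ?_⟩
    · intro j hj
      by_cases hji : j = i
      · rw [hji]; exact hii
      have hjF : j ∈ F := (Finset.mem_insert.mp hj).resolve_left hji
      by_cases hji' : P.root i = - P.root j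
      · have : j = P.reflectionPerm i i := by
          apply P.root.injective; rw [root_neg, hji', neg_neg]
        rw [this, coroot'_neg, hii, neg_zero]
      · have h3 := horth i j hiX (hF j hj) (Ne.symm hji) hji'
        rw [map_sub, map_smul, h1 j hjF, root_coroot'_eq_pairing, h3]; simp
    · intro j hj
      rw [map_sub, map_smul, root_coroot'_eq_pairing, hj i (Finset.mem_insert_self i F)]
      rw [smul_zero, sub_zero]
      exact h2 j fun k hk ↦ hj k (Finset.mem_insert_of_mem hk)

lemma sub_smul_mem' (hX : IsWeightSet P X) {i : ι} {χ : M} (hχ : χ ∈ X) {m : ℤ}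
    (hm : P.coroot' i χ = 2 * (m : K)) {c : ℤ} (hc : 0 ≤ c) (hcm : c ≤ 2 * m) :
    χ - (c : K) • P.root i ∈ X := by
  obtain ⟨n, rfl⟩ := Int.eq_ofNat_of_zero_le hc
  have := hX.str χ hχ i (2 * m) (by rw [hm]; push_cast; ring) n (by exact_mod_cast hcm)
  exact_mod_cast this

/-- In the orthogonal case the non-zero elements of `X` are roots. -/
lemma exists_root_of_pairwiseOrth (hX : IsWeightSet P X) (horth : PairwiseOrth P X)
    (hne : ∃ i, P.root i ∈ X)
    (hZ : ∀ χ ∈ X, χ ∈ AddSubgroup.closure (Set.range P.root)) {h : N} (hh : h ≠ 0)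
    (hlev : ∀ χ ∈ X, P.toLinearMap χ h = 0 ∨ P.toLinearMap χ h = 1 ∨ P.toLinearMap χ h = -1)
    {χ : M} (hχ : χ ∈ X) (hχ0 : χ ≠ 0) : ∃ i, P.root i ∈ X ∧ χ = P.root i := by
  classical
  have : Fintype ι := Fintype.ofFinite ι
  obtain ⟨i, hiX, m, hm, hm1⟩ : ∃ i, P.root i ∈ X ∧ ∃ m : ℤ, P.coroot' i χ = 2 * (m : K) ∧
      1 ≤ m := by
    obtain ⟨i, hiX, hi⟩ : ∃ i, P.root i ∈ X ∧ P.coroot' i χ ≠ 0 := by
      by_contra! hcon
      exact hχ0 (hX.eq_zero_of_forall_coroot hne hcon)
    obtain ⟨m, hm⟩ := hX.even_of_mem horth hZ hiX hχ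
    rcases lt_trichotomy m 0 with h1 | h1 | h1
    · refine ⟨P.reflectionPerm i i, hX.reflectionPerm_mem hiX i, -m, ?_, by omega⟩
      rw [coroot'_neg, hm]; push_cast; ring
    · exact absurd (by rw [hm, h1]; simp) hi
    · exact ⟨i, hiX, m, hm, by omega⟩
  by_cases hex : ∃ j, P.root j ∈ X ∧ i ≠ j ∧ P.root i ≠ - P.root j ∧ P.coroot' j χ ≠ 0
  · -- two non-proportional coordinates: contradiction
    exfalso
    obtain ⟨j, hjX, hij, hij', m', hm', hm1'⟩ : ∃ j, P.root j ∈ X ∧ i ≠ j ∧
        P.root i ≠ - P.root j ∧ ∃ m : ℤ, P.coroot' j χ = 2 * (m : K) ∧ 1 ≤ m := by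
      obtain ⟨j, hjX, hij, hij', hj⟩ := hex
      obtain ⟨m', hm'⟩ := hX.even_of_mem horth hZ hjX hχ
      rcases lt_trichotomy m' 0 with h1 | h1 | h1
      · refine ⟨P.reflectionPerm j j, hX.reflectionPerm_mem hjX j, ?_, ?_, -m', ?_, by omega⟩
        · rintro rfl; apply hij'; rw [root_neg]
        · rw [root_neg, neg_neg]
          exact fun h ↦ hij (P.root.injective h)
        · rw [coroot'_neg, hm']; push_cast; ring
      · exact absurd (by rw [hm', h1]; simp) hj
      · exact ⟨j, hjX, hij, hij', m', hm', by omega⟩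
    have hpij : P.pairing i j = 0 := horth i j hiX hjX hij hij'
    have hpji : P.pairing j i = 0 := pairing_comm_zero hpij
    set F : Finset ι := Finset.univ.filter (fun k ↦ P.root k ∈ X ∧ P.pairing k i = 0 ∧
      P.pairing k j = 0) with hF
    have hmemF : ∀ k, k ∈ F ↔ (P.root k ∈ X ∧ P.pairing k i = 0 ∧ P.pairing k j = 0) := by
      intro k; simp [hF]
    obtain ⟨χ', hχ', h1, h2⟩ := hX.exists_kill horth hZ F (fun k hk ↦ ((hmemF k).mp hk).1) hχ
    have h3 : P.coroot' i χ' = 2 * (m : K) := by
      rw [h2 i (fun k hk ↦ ((hmemF k).mp hk).2.1), hm]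
    have h4 : P.coroot' j χ' = 2 * (m' : K) := by
      rw [h2 j (fun k hk ↦ ((hmemF k).mp hk).2.2), hm']
    have h5 := hX.sub_smul_mem' hχ' h3 (c := m - 1) (by omega) (by omega)
    set χ₂ := χ' - ((m - 1 : ℤ) : K) • P.root i with hχ₂
    have h6 : P.coroot' j χ₂ = 2 * (m' : K) := by
      rw [hχ₂, map_sub, map_smul, root_coroot'_eq_pairing, hpij, smul_zero, sub_zero, h4]
    have h7 := hX.sub_smul_mem' h5 h6 (c := m' - 1) (by omega) (by omega)
    set χ₃ := χ₂ - ((m' - 1 : ℤ) : K) • P.root j with hχ₃
    obtain ⟨l, hl⟩ := hX.exists_add_root horth hiX hjX hij hij'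
    have h8 : χ₃ = P.root l := by
      rw [← sub_eq_zero]
      refine hX.eq_zero_of_forall_coroot hne fun k hk ↦ ?_
      have e : P.coroot' k (χ₃ - P.root l) = P.coroot' k χ' - m * P.pairing i k -
          m' * P.pairing j k := by
        rw [hχ₃, hχ₂, hl]
        simp only [map_sub, map_add, map_smul, root_coroot'_eq_pairing, smul_eq_mul]
        push_cast
        ring
      rw [e]
      by_cases hki : k = i
      · rw [hki, h3, pairing_same, hpji]; ring
      by_cases hki' : P.root k = - P.root i
      · have hk' : k = P.reflectionPerm i i := by apply P.root.injective; rw [root_neg, hki']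
        have e1 : P.pairing i k = -2 := by rw [hk']; simp
        have e2 : P.pairing j k = 0 := by rw [hk']; simp [hpji]
        rw [e1, e2, hk', coroot'_neg, h3]; ring
      by_cases hkj : k = j
      · rw [hkj, h4, pairing_same, hpij]; ring
      by_cases hkj' : P.root k = - P.root j
      · have hk' : k = P.reflectionPerm j j := by apply P.root.injective; rw [root_neg, hkj']
        have e1 : P.pairing j k = -2 := by rw [hk']; simp
        have e2 : P.pairing i k = 0 := by rw [hk']; simp [hpij]
        rw [e1, e2, hk', coroot'_neg, h4]; ring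
      have e1 := horth k i hk hiX hki hki'
      have e2 := horth k j hk hjX hkj hkj'
      rw [h1 k ((hmemF k).mpr ⟨hk, e1, e2⟩), pairing_comm_zero e1, pairing_comm_zero e2]; ring
    exact add_notMem horth hiX hpij hl (h8 ▸ h7)
  · -- only one coordinate
    push Not at hex
    have hχm : χ = (m : K) • P.root i := by
      rw [← sub_eq_zero]
      refine hX.eq_zero_of_forall_coroot hne fun k hk ↦ ?_
      rw [map_sub, map_smul, root_coroot'_eq_pairing, smul_eq_mul]
      by_cases hki : i = k
      · rw [← hki, hm, pairing_same]; ring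
      by_cases hki' : P.root i = - P.root k
      · have hk' : k = P.reflectionPerm i i := by
          apply P.root.injective; rw [root_neg, hki', neg_neg]
        rw [hk', coroot'_neg, hm]
        simp only [pairing_reflectionPerm_self_right, pairing_same]; ring
      rw [hex k hk hki hki', horth i k hiX hk hki hki']; ring
    rcases eq_or_lt_of_le hm1 with h1 | h1
    · refine ⟨i, hiX, ?_⟩
      rw [hχm, ← h1]; simp
    · exfalso
      have h2 : (2 : K) • P.root i ∈ X := by
        have := hX.sub_smul_mem' hχ hm (c := m - 2) (by omega) (by omega)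
        rw [hχm, ← sub_smul] at this
        have e : (m : K) - ((m - 2 : ℤ) : K) = 2 := by push_cast; ring
        rwa [e] at this
      by_cases hj : ∃ j, P.root j ∈ X ∧ i ≠ j ∧ P.root i ≠ - P.root j
      · obtain ⟨j, hjX, hij, hij'⟩ := hj
        have hpij : P.pairing i j = 0 := horth i j hiX hjX hij hij'
        obtain ⟨l, hl⟩ := hX.exists_add_root horth hiX hjX hij hij'
        have h3 : P.coroot' l ((2 : K) • P.root i) = ((2 : ℤ) : K) := by
          rw [map_smul, root_coroot'_eq_pairing, pairing_of_add hpij hl]; norm_num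
        have h4 := hX.sub_mem h2 h3 (by norm_num)
        have hl' : P.root l = P.root j + P.root i := by rw [hl, add_comm]
        have h5 := adj_neg_left (i := j) (j := i) hpij hl'
        have h6 : P.root (P.reflectionPerm j l) = P.root i + P.root (P.reflectionPerm j j) := by
          rw [h5, root_neg, add_comm]
        refine add_notMem horth hiX ?_ h6 ?_
        · simp [hpij]
        · rw [h6, root_neg]
          have e : (2 : K) • P.root i - P.root l = P.root i + -P.root j := by
            rw [hl, two_smul]; abel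
          rwa [e] at h4
      · push Not at hj
        obtain ⟨i1, hi1X, hi1⟩ := hX.exists_level_one hne hh hlev
        have h3 : P.toLinearMap (P.root i) h = 1 ∨ P.toLinearMap (P.root i) h = -1 := by
          by_cases h4 : i = i1
          · left; rw [h4]; exact hi1
          · right
            rw [hj i1 hi1X h4, map_neg, LinearMap.neg_apply, hi1]
        have h4 := hlev _ h2
        rw [map_smul, LinearMap.smul_apply, smul_eq_mul] at h4
        rcases h3 with h3 | h3 <;> rw [h3] at h4 <;> norm_num at h4

end Orth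

end IsWeightSet

end Pool.Agent.Helper88
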