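import Mathlib
import Pool.Agent.Helper88.Grading
import Pool.Agent.Helper88.WeightSet

/-!
# Weights of a faithful irreducible module over a Killing Lie algebra
-/

set_option linter.unusedSectionVars false

namespace Pool.Agent.Helper88

open LieModule LieAlgebra LieAlgebra.IsKilling Module

attribute [local instance 100] LieRing.ofAssociativeRing

section Semisimple

variable {K : Type*} [Field K] [IsAlgClosed K] [CharZero K]
variable {L : Type*} [LieRing L] [LieAlgebra K L] [FiniteDimensional K L]
variable {V : Type*} [AddCommGroup V] [Module K V] [LieRingModule L V] [LieModule K L V]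
  [FiniteDimensional K V] [IsIrreducible K L V] [IsFaithful K L V]

variable (V) in
/-- Elements with semisimple adjoint action act semisimply on faithful irreducible modules. -/
lemma isSemisimple_toEnd {x : L} (hx : (ad K L x).IsSemisimple) :
    (toEnd K L V x).IsSemisimple := by
  obtain ⟨n, hn, s, hs, hnil, hss, hns⟩ := (toEnd K L V x).exists_isNilpotent_isSemisimple
  have hcomm : Commute n s :=
    Algebra.commute_of_mem_adjoin_singleton_of_commute hs
      (Algebra.commute_of_mem_adjoin_self hn).symm
  have hadn : ad K (Module.End K V) n ∈ Algebra.adjoin K {ad K (Module.End K V) (n + s)} :=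
    LieAlgebra.ad_mem_adjoin_of_isNilpotent hcomm hnil hss
  rw [← hns, Algebra.adjoin_singleton_eq_range_aeval] at hadn
  obtain ⟨p, hp⟩ := hadn
  have hp : Polynomial.aeval (ad K (Module.End K V) (toEnd K L V x)) p = ad K (Module.End K V) n := hp
  -- intertwining
  have hint : ∀ y : L, Polynomial.aeval (ad K (Module.End K V) (toEnd K L V x)) p (toEnd K L V y) =
      toEnd K L V (Polynomial.aeval (ad K L x) p y) := by
    intro y
    have h1 : ∀ k : ℕ, ((ad K (Module.End K V) (toEnd K L V x)) ^ k) (toEnd K L V y) =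
        toEnd K L V (((ad K L x) ^ k) y) := by
      intro k
      induction k with
      | zero => simp
      | succ k ih =>
        rw [pow_succ', Module.End.mul_apply, ih, pow_succ', Module.End.mul_apply, ad_apply,
          ad_apply, LieHom.map_lie]
    rw [Polynomial.aeval_eq_sum_range, Polynomial.aeval_eq_sum_range]
    simp only [LinearMap.sum_apply, LinearMap.smul_apply, map_sum, map_smul, h1]
  set q := Polynomial.aeval (ad K L x) p with hq
  have hqss : q.IsSemisimple := hx.aeval p
  have hqnil : IsNilpotent q := by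
    obtain ⟨k, hk⟩ := LieAlgebra.ad_nilpotent_of_nilpotent (R := K) hnil
    refine ⟨k, ?_⟩
    ext y
    have h2 : ∀ k : ℕ, toEnd K L V ((q ^ k) y) =
        ((ad K (Module.End K V) n) ^ k) (toEnd K L V y) := by
      intro k
      induction k with
      | zero => simp
      | succ k ih =>
        rw [pow_succ', Module.End.mul_apply, pow_succ', Module.End.mul_apply, ← ih, ← hp, hint]
    have h3 : toEnd K L V ((q ^ k) y) = 0 := by rw [h2 k, hk]; simp
    have hinj : Function.Injective (toEnd K L V) := IsFaithful.injective_toEnd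
    exact hinj (by rw [h3]; simp)
  have hq0 : q = 0 := Module.End.eq_zero_of_isNilpotent_isSemisimple hqnil hqss
  have hcom : ∀ (y : L) (v : V), n ⁅y, v⁆ = ⁅y, n v⁆ := by
    intro y v
    have h4 := hint y
    rw [hp, hq0, LinearMap.zero_apply, map_zero, ad_apply, Ring.lie_def] at h4
    have h5 := LinearMap.congr_fun h4 v
    simp only [LinearMap.sub_apply, Module.End.mul_apply, toEnd_apply_apply,
      LinearMap.zero_apply] at h5
    exact sub_eq_zero.mp h5
  -- `ker n` is a Lie submodule
  let N : LieSubmodule K L V :=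
    { LinearMap.ker n with
      lie_mem := by
        intro y v hv
        have hv' : n v = 0 := hv
        change n ⁅y, v⁆ = 0
        rw [hcom, hv', lie_zero] }
  have : Nontrivial V := nontrivial_of_isIrreducible K L V
  have hN : N = ⊤ := by
    refine (IsSimpleOrder.eq_bot_or_eq_top N).resolve_left ?_
    intro hbot
    obtain ⟨k, hk⟩ := hnil
    have hkinj : Function.Injective n := by
      rw [← LinearMap.ker_eq_bot]
      have : (N : Submodule K V) = ⊥ := by rw [hbot]; rfl
      exact this
    obtain ⟨v, hv⟩ := exists_ne (0 : V)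
    have h6 : Function.Injective (n ^ k) := by
      rw [Module.End.coe_pow]; exact hkinj.iterate k
    exact hv (h6 (by rw [hk]; simp))
  have hn0 : n = 0 := by
    ext v
    have : v ∈ N := hN ▸ LieSubmodule.mem_top v
    exact this
  rw [hns, hn0, zero_add]
  exact hss

end Semisimple

section Weights

variable {K : Type*} [Field K] [IsAlgClosed K] [CharZero K]
variable {L : Type*} [LieRing L] [LieAlgebra K L] [FiniteDimensional K L] [IsKilling K L]
variable (H : LieSubalgebra K L) [H.IsCartanSubalgebra]
variable (V : Type*) [AddCommGroup V] [Module K V] [LieRingModule L V] [LieModule K L V]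

/-- The weight space of `V` for a functional on `H`. -/
def wSpace (χ : Dual K H) : Submodule K V where
  carrier := {v | ∀ x : H, ⁅(x : L), v⁆ = χ x • v}
  add_mem' := by
    intro a b ha hb x
    rw [lie_add, ha x, hb x, smul_add]
  zero_mem' := by intro x; simp
  smul_mem' := by
    intro c v hv x
    rw [lie_smul, hv x, smul_comm]

variable {V}

lemma mem_wSpace {χ : Dual K H} {v : V} :
    v ∈ wSpace H V χ ↔ ∀ x : H, ⁅(x : L), v⁆ = χ x • v := Iff.rfl

variable (V) in
/-- The set of weights of `V`. -/
def wSet : Set (Dual K H) := {χ | wSpace H V χ ≠ ⊥}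

variable [FiniteDimensional K V]

lemma lie_mem_wSpace {α : H.root} {e : L} (he : e ∈ rootSpace H α.1) {χ : Dual K H} {v : V}
    (hv : v ∈ wSpace H V χ) : ⁅e, v⁆ ∈ wSpace H V (χ + (rootSystem H).root α) := by
  intro x
  have h1 : ⁅(x : L), e⁆ = α.1 x • e := IsKilling.lie_eq_smul_of_mem_rootSpace he x
  rw [leibniz_lie, h1, hv x, smul_lie, lie_smul, ← add_smul]
  congr 1
  simp [add_comm]

lemma lie_mem_wSpace_neg {α : H.root} {f : L} (hf : f ∈ rootSpace H (-(α.1 : H → K)))
    {χ : Dual K H} {v : V}
    (hv : v ∈ wSpace H V χ) : ⁅f, v⁆ ∈ wSpace H V (χ - (rootSystem H).root α) := by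
  intro x
  have h1 : ⁅(x : L), f⁆ = (-(α.1 : H → K)) x • f := IsKilling.lie_eq_smul_of_mem_rootSpace hf x
  rw [leibniz_lie, h1, hv x, smul_lie, lie_smul, ← add_smul]
  congr 1
  simp [sub_eq_neg_add]

variable [IsIrreducible K L V] [IsFaithful K L V]

variable (V) in
lemma iSup_wSpace_eq_top : ⨆ χ : Dual K H, wSpace H V χ = ⊤ := by
  have h1 : ⨆ χ : Weight K H V, genWeightSpace V χ = ⊤ :=
    LieModule.iSup_genWeightSpace_eq_top' K H V
  rw [eq_top_iff]
  have h2 : (⊤ : Submodule K V) = ((⨆ χ : Weight K H V, genWeightSpace V χ : LieSubmodule K H V) :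
      Submodule K V) := by rw [h1]; rfl
  rw [h2, LieSubmodule.iSup_toSubmodule]
  refine iSup_le fun χ ↦ ?_
  refine le_trans ?_ (le_iSup (fun χ : Dual K H ↦ wSpace H V χ) χ.toLinear)
  intro v hv x
  have h3 : v ∈ genWeightSpace V χ := hv
  have h4 : v ∈ (toEnd K H V x).maxGenEigenspace (χ x) :=
    genWeightSpace_le_genWeightSpaceOf V x χ h3
  have h5 : (toEnd K H V x).IsSemisimple :=
    isSemisimple_toEnd (L := L) V
      (IsKilling.isSemisimple_ad_of_mem_isCartanSubalgebra (H := H) x.2)
  rw [h5.isFinitelySemisimple.maxGenEigenspace_eq_eigenspace, Module.End.mem_eigenspace_iff] at h4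
  exact h4

lemma pow_e_mem_wSpace {α : H.root} {e : L} (he : e ∈ rootSpace H α.1) {χ : Dual K H} {v : V}
    (hv : v ∈ wSpace H V χ) (n : ℕ) :
    ((toEnd K L V e) ^ n) v ∈ wSpace H V (χ + (n : K) • (rootSystem H).root α) := by
  induction n with
  | zero => simpa using hv
  | succ n ih =>
    rw [pow_succ', Module.End.mul_apply, toEnd_apply_apply]
    have := lie_mem_wSpace H he ih
    convert this using 1
    push_cast
    rw [add_smul, one_smul, add_assoc]

lemma pow_f_mem_wSpace {α : H.root} {f : L} (hf : f ∈ rootSpace H (-(α.1 : H → K)))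
    {χ : Dual K H} {v : V}
    (hv : v ∈ wSpace H V χ) (n : ℕ) :
    ((toEnd K L V f) ^ n) v ∈ wSpace H V (χ - (n : K) • (rootSystem H).root α) := by
  induction n with
  | zero => simpa using hv
  | succ n ih =>
    rw [pow_succ', Module.End.mul_apply, toEnd_apply_apply]
    have := lie_mem_wSpace_neg H hf ih
    convert this using 1
    push_cast
    rw [add_smul, one_smul, sub_sub]

lemma isNonZero_root (α : H.root) : α.1.IsNonZero :=
  LieSubalgebra.isNonZero_coe_root α

lemma exists_string {χ : Dual K H} (hχ : χ ∈ wSet H V) (α : H.root) :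
    ∃ p : ℤ, χ (coroot α.1) = p ∧
      ∀ j : ℕ, (j : ℤ) ≤ p → χ - (j : K) • (rootSystem H).root α ∈ wSet H V := by
  obtain ⟨v, hv, hv0⟩ := (Submodule.ne_bot_iff _).mp hχ
  obtain ⟨h, e, f, t, he, hf⟩ := exists_isSl2Triple_of_weight_isNonZero (isNonZero_root H α)
  have hh : h = coroot α.1 := t.h_eq_coroot (isNonZero_root H α) he hf
  have hhv : ⁅h, v⁆ = χ (coroot α.1) • v := by rw [hh]; exact hv _
  have hk : ∃ k, ((toEnd K L V e) ^ k) v = 0 := by
    by_contra! contra
    let evals (n : ℕ) : K := χ (coroot α.1) + 2 * (n : K)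
    have h_inj : Function.Injective evals := fun a b hab ↦ by
      simpa [evals, add_right_inj, mul_eq_mul_left_iff, Nat.cast_inj] using hab
    have aux (μ : Set.range evals) : (toEnd K L V h).HasEigenvector μ
        (((toEnd K L V e) ^ (μ.property.choose)) v) := by
      set n := μ.property.choose
      refine ⟨?_, contra n⟩
      rw [Module.End.mem_eigenspace_iff, toEnd_apply_apply, ← μ.property.choose_spec]
      exact t.lie_h_pow_toEnd_e hhv n
    have _i := ((toEnd K L V h).eigenvectors_linearIndependent (Set.range evals) _ aux).finite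
    exact (Set.infinite_range_of_injective h_inj) (Set.toFinite _)
  obtain ⟨n, hn_ne, hn_zero⟩ := Nat.exists_not_and_succ_of_not_zero_of_exists hv0 hk
  have prim : t.HasPrimitiveVectorWith (((toEnd K L V e) ^ n) v) (χ (coroot α.1) + 2 * (n : K)) :=
    { ne_zero := hn_ne
      lie_h := t.lie_h_pow_toEnd_e hhv n
      lie_e := by rwa [IsSl2Triple.lie_e_pow_toEnd_e n] }
  obtain ⟨N, hN⟩ := prim.exists_nat
  refine ⟨(N : ℤ) - 2 * n, ?_, ?_⟩
  · push_cast
    linear_combination hN
  · intro j hj
    have h1 := prim.pow_toEnd_f_ne_zero_of_eq_nat hN (i := n + j) (by omega)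
    have h2 := pow_f_mem_wSpace H hf (pow_e_mem_wSpace H he hv n) (n + j)
    have h3 : χ + (n : K) • (rootSystem H).root α - ((n + j : ℕ) : K) • (rootSystem H).root α =
        χ - (j : K) • (rootSystem H).root α := by
      push_cast
      rw [add_smul]; abel
    rw [h3] at h2
    exact (Submodule.ne_bot_iff _).mpr ⟨_, h2, h1⟩

variable (V) in
/-- The weights form a weight set, as soon as zero is a weight. -/
lemma isWeightSet (h0 : (0 : Dual K H) ∈ wSet H V) : IsWeightSet (rootSystem H) (wSet H V) where
  zero_mem := h0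
  int χ hχ i := by
    obtain ⟨p, hp, -⟩ := exists_string H hχ i
    exact ⟨p, hp⟩
  str χ hχ i p hp j hj := by
    obtain ⟨p', hp', h⟩ := exists_string H hχ i
    have : p = p' := by
      have h1 : (p : K) = (p' : K) := by rw [← hp', ← hp]; rfl
      exact_mod_cast h1
    exact h j (this ▸ hj)

end Weights

end Pool.Agent.Helper88
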