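import Mathlib
import Pool.Agent.Helper88.LieWeights

set_option linter.unusedSectionVars false

namespace Pool.Agent.Helper88

open LieModule LieAlgebra LieAlgebra.IsKilling Module

attribute [local instance 100] LieRing.ofAssociativeRing

lemma eigenspace_le_iSup {K M ι : Type*} [Field K] [AddCommGroup M] [Module K M]
    (T : Module.End K M) (S : ι → Submodule K M) (b : ι → K)
    (h : ∀ i, S i ≤ T.eigenspace (b i)) (htop : ⨆ i, S i = ⊤) (a : K) :
    T.eigenspace a ≤ ⨆ i, ⨆ (_ : b i = a), S i := by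
  intro x hx
  have h1 : (⊤ : Submodule K M) ≤ (⨆ i, ⨆ (_ : b i = a), S i) ⊔ (⨆ i, ⨆ (_ : b i ≠ a), S i) := by
    rw [← htop]
    refine iSup_le fun i ↦ ?_
    by_cases hi : b i = a
    · exact le_sup_of_le_left (le_iSup₂_of_le i hi le_rfl)
    · exact le_sup_of_le_right (le_iSup₂_of_le i hi le_rfl)
  obtain ⟨s, hs, r, hr, rfl⟩ := Submodule.mem_sup.mp (h1 (Submodule.mem_top (x := x)))
  have hs' : s ∈ T.eigenspace a := by
    have : (⨆ i, ⨆ (_ : b i = a), S i) ≤ T.eigenspace a :=
      iSup₂_le fun i hi ↦ hi ▸ h i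
    exact this hs
  have hr' : r ∈ ⨆ c, ⨆ (_ : c ≠ a), T.eigenspace c := by
    have : (⨆ i, ⨆ (_ : b i ≠ a), S i) ≤ ⨆ c, ⨆ (_ : c ≠ a), T.eigenspace c :=
      iSup₂_le fun i hi ↦ le_iSup₂_of_le (b i) hi (h i)
    exact this hr
  have hr'' : r ∈ T.eigenspace a := by
    have := Submodule.sub_mem _ hx hs'
    rwa [add_sub_cancel_left] at this
  have hdis := (Module.End.eigenspaces_iSupIndep T) a
  have : r = 0 := (Submodule.mem_bot K).mp (hdis.le_bot ⟨hr'', hr'⟩)
  rw [this, add_zero]
  exact hs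

section Weights

variable {K : Type*} [Field K] [IsAlgClosed K] [CharZero K]
variable {L : Type*} [LieRing L] [LieAlgebra K L] [FiniteDimensional K L] [IsKilling K L]
variable (H : LieSubalgebra K L) [H.IsCartanSubalgebra]
variable {V : Type*} [AddCommGroup V] [Module K V] [LieRingModule L V] [LieModule K L V]
variable [FiniteDimensional K V]

lemma wSpace_le_genWeightSpace (χ : Dual K H) :
    wSpace H V χ ≤ (genWeightSpace V (χ : H → K) : LieSubmodule K H V) := by
  intro v hv
  have : v ∈ weightSpace V (χ : H → K) := by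
    rw [mem_weightSpace]
    exact hv
  exact weightSpace_le_genWeightSpace V _ this

variable (V) in
lemma iSupIndep_wSpace : iSupIndep (fun χ : Dual K H ↦ wSpace H V χ) := by
  have h1 := LieModule.iSupIndep_genWeightSpace K H V
  have h2 : iSupIndep (fun χ : H → K ↦ (genWeightSpace V χ : Submodule K V)) := by
    rw [LieSubmodule.iSupIndep_toSubmodule]
    exact h1
  have h3 : iSupIndep (fun χ : Dual K H ↦ (genWeightSpace V (χ : H → K) : Submodule K V)) :=
    h2.comp (f := fun χ : Dual K H ↦ (χ : H → K)) DFunLike.coe_injective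
  exact h3.mono fun χ ↦ wSpace_le_genWeightSpace H χ

/-- Every element of `L` is a sum of an element of `H` and of root vectors. -/
lemma mem_span_root (y : L) :
    y ∈ Submodule.span K ((H : Set L) ∪ {e : L | ∃ α : H.root, e ∈ rootSpace H α.1}) := by
  have h1 : y ∈ (H.toLieSubmodule ⊔ ⨆ α : Weight K H L, ⨆ (_ : α.IsNonZero), rootSpace H α :
      LieSubmodule K H L) := by
    rw [cartan_sup_iSup_rootSpace_eq_top]; exact LieSubmodule.mem_top y
  have h2 : ((H.toLieSubmodule ⊔ ⨆ α : Weight K H L, ⨆ (_ : α.IsNonZero), rootSpace H α :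
      LieSubmodule K H L) : Submodule K L) ≤
      Submodule.span K ((H : Set L) ∪ {e : L | ∃ α : H.root, e ∈ rootSpace H α.1}) := by
    rw [LieSubmodule.sup_toSubmodule, LieSubmodule.iSup_toSubmodule]
    refine sup_le ?_ ?_
    · intro x hx
      exact Submodule.subset_span (Or.inl hx)
    · refine iSup_le fun α ↦ ?_
      rw [LieSubmodule.iSup_toSubmodule]
      refine iSup_le fun hα ↦ ?_
      intro x hx
      exact Submodule.subset_span (Or.inr ⟨⟨α, by simpa using hα⟩, hx⟩)
  exact h2 h1

variable [IsIrreducible K L V] [IsFaithful K L V]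

/-- If zero is a weight then some root is a weight. -/
lemma exists_root_mem_wSet [Nontrivial L] (h0 : (0 : Dual K H) ∈ wSet H V) :
    ∃ α : H.root, (rootSystem H).root α ∈ wSet H V := by
  obtain ⟨v, hv, hv0⟩ := (Submodule.ne_bot_iff _).mp h0
  by_contra! hcon
  have hkill : ∀ y : L, ⁅y, v⁆ = 0 := by
    intro y
    induction mem_span_root H y using Submodule.span_induction with
    | mem x hx =>
      rcases hx with hx | ⟨α, hα⟩
      · have := hv ⟨x, hx⟩
        simpa using this
      · have h1 := lie_mem_wSpace H hα hv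
        have h2 : wSpace H V (0 + (rootSystem H).root α) = ⊥ := by
          have := hcon α
          unfold wSet at this
          rw [zero_add]
          simpa using this
        rw [h2] at h1
        exact (Submodule.mem_bot K).mp h1
    | zero => simp
    | add x y _ _ hx hy => rw [add_lie, hx, hy, add_zero]
    | smul a x _ hx => rw [smul_lie, hx, smul_zero]
  have h1 : v ∈ LieModule.maxTrivSubmodule K L V := by
    rw [LieModule.mem_maxTrivSubmodule]; exact hkill
  have h2 : LieModule.maxTrivSubmodule K L V = ⊤ := by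
    refine (IsSimpleOrder.eq_bot_or_eq_top _).resolve_left ?_
    intro h
    rw [h] at h1
    exact hv0 (by simpa using h1)
  obtain ⟨x, hx⟩ := exists_ne (0 : L)
  apply hx
  have hinj : Function.Injective (toEnd K L V) := IsFaithful.injective_toEnd
  apply hinj
  rw [map_zero]
  ext w
  have h3 : w ∈ LieModule.maxTrivSubmodule K L V := h2 ▸ LieSubmodule.mem_top w
  rw [LieModule.mem_maxTrivSubmodule] at h3
  simpa using h3 x

/-- If zero is a weight then all weights are in the root lattice. -/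
lemma mem_closure_root (h0 : (0 : Dual K H) ∈ wSet H V) {χ : Dual K H} (hχ : χ ∈ wSet H V) :
    χ ∈ AddSubgroup.closure (Set.range (rootSystem H).root) := by
  set Z := AddSubgroup.closure (Set.range (rootSystem H).root) with hZ
  -- the submodule of all weight spaces in the root lattice
  set U : Submodule K V := ⨆ χ : Dual K H, ⨆ (_ : χ ∈ Z), wSpace H V χ with hU
  have hle : ∀ χ ∈ Z, wSpace H V χ ≤ U := fun χ hχ ↦ le_iSup₂_of_le χ hχ le_rfl
  have hstab : ∀ y : L, ∀ v ∈ U, ⁅y, v⁆ ∈ U := by
    intro y v hv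
    have hv' : v ∈ Submodule.span K {w | ∃ χ ∈ Z, w ∈ wSpace H V χ} := by
      have : U ≤ Submodule.span K {w | ∃ χ ∈ Z, w ∈ wSpace H V χ} := by
        refine iSup₂_le fun χ hχ w hw ↦ Submodule.subset_span ⟨χ, hχ, hw⟩
      exact this hv
    induction mem_span_root H y using Submodule.span_induction with
    | mem x hx =>
      induction hv' using Submodule.span_induction with
      | mem w hw =>
        obtain ⟨χ, hχ, hw⟩ := hw
        rcases hx with hx | ⟨α, hα⟩
        · have := hw ⟨x, hx⟩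
          rw [this]
          exact Submodule.smul_mem _ _ (hle χ hχ hw)
        · exact hle _ (Z.add_mem hχ (AddSubgroup.subset_closure ⟨α, rfl⟩)) (lie_mem_wSpace H hα hw)
      | zero => simp
      | add x y hx' hy' hx hy =>
        have e1 : x ∈ U := by
          have : Submodule.span K {w | ∃ χ ∈ Z, w ∈ wSpace H V χ} ≤ U :=
            Submodule.span_le.mpr (by rintro w ⟨χ, hχ, hw⟩; exact hle χ hχ hw)
          exact this hx'
        have e2 : y ∈ U := by
          have : Submodule.span K {w | ∃ χ ∈ Z, w ∈ wSpace H V χ} ≤ U :=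
            Submodule.span_le.mpr (by rintro w ⟨χ, hχ, hw⟩; exact hle χ hχ hw)
          exact this hy'
        rw [lie_add]; exact add_mem (hx e1) (hy e2)
      | smul a x hx' hx =>
        have e1 : x ∈ U := by
          have : Submodule.span K {w | ∃ χ ∈ Z, w ∈ wSpace H V χ} ≤ U :=
            Submodule.span_le.mpr (by rintro w ⟨χ, hχ, hw⟩; exact hle χ hχ hw)
          exact this hx'
        rw [lie_smul]; exact Submodule.smul_mem _ _ (hx e1)
    | zero => rw [zero_lie]; exact zero_mem _
    | add x y _ _ hx hy => rw [add_lie]; exact add_mem hx hy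
    | smul a x _ hx => rw [smul_lie]; exact Submodule.smul_mem _ _ hx
  let UL : LieSubmodule K L V := { U with lie_mem := fun {x m} hm => hstab x m hm }
  have hUL : UL = ⊤ := by
    refine (IsSimpleOrder.eq_bot_or_eq_top UL).resolve_left ?_
    intro h
    apply h0
    rw [eq_bot_iff]
    intro w hw
    have : w ∈ UL := hle 0 Z.zero_mem hw
    rw [h] at this
    exact this
  have hUtop : U = ⊤ := by
    have : (UL : Submodule K V) = ⊤ := by rw [hUL]; rfl
    exact this
  by_contra hχZ
  apply hχ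
  have hind := iSupIndep_wSpace H V
  have h1 := hind χ
  rw [disjoint_iff, eq_bot_iff] at h1
  rw [eq_bot_iff]
  refine le_trans (le_inf le_rfl ?_) h1
  have : U ≤ ⨆ (j : Dual K H) (_ : j ≠ χ), wSpace H V j := by
    refine iSup₂_le fun ψ hψ ↦ ?_
    have hne : ψ ≠ χ := by rintro rfl; exact hχZ hψ
    exact le_iSup₂_of_le ψ hne le_rfl
  exact le_trans (by rw [hUtop]; exact le_top) this

omit [FiniteDimensional K V] [IsIrreducible K L V] [IsFaithful K L V] [LieRingModule L V]
  [LieModule K L V] [AddCommGroup V] [Module K V] in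
/-- Eigenvectors of `ad t` with non-zero eigenvalue are sums of root vectors. -/
lemma mem_span_rootSpace_of_eigen {t : L} (ht : t ∈ H) {a : K} (ha : a ≠ 0) {x : L}
    (hx : ⁅t, x⁆ = a • x) :
    x ∈ Submodule.span K {e : L | ∃ α : H.root, α.1 ⟨t, ht⟩ = a ∧ e ∈ rootSpace H α.1} := by
  have h1 := eigenspace_le_iSup (ad K L t)
    (fun χ : Weight K H L ↦ (genWeightSpace L χ : Submodule K L)) (fun χ ↦ χ ⟨t, ht⟩)
    (by
      intro χ y hy
      rw [Module.End.mem_eigenspace_iff, ad_apply]
      exact lie_eq_smul_of_mem_rootSpace hy ⟨t, ht⟩)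
    (by
      rw [← LieSubmodule.iSup_toSubmodule, LieModule.iSup_genWeightSpace_eq_top']
      rfl) a
  have h2 : x ∈ (ad K L t).eigenspace a := by
    rw [Module.End.mem_eigenspace_iff, ad_apply, hx]
  have h3 := h1 h2
  have h4 : (⨆ χ : Weight K H L, ⨆ (_ : χ ⟨t, ht⟩ = a), (genWeightSpace L χ : Submodule K L)) ≤
      Submodule.span K {e : L | ∃ α : H.root, α.1 ⟨t, ht⟩ = a ∧ e ∈ rootSpace H α.1} := by
    refine iSup₂_le fun χ hχ ↦ ?_
    intro y hy
    refine Submodule.subset_span ⟨⟨χ, ?_⟩, hχ, hy⟩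
    have : χ.IsNonZero := by
      intro h
      apply ha
      rw [← hχ]
      have := congrFun h.eq ⟨t, ht⟩
      simpa using this
    simpa using this
  exact h4 h3

omit [FiniteDimensional K V] [IsIrreducible K L V] [IsFaithful K L V] [LieRingModule L V]
  [LieModule K L V] [AddCommGroup V] [Module K V] in
/-- Elements commuting with `t` are sums of elements of `H` and root vectors. -/
lemma mem_span_rootSpace_of_commute {t : L} (ht : t ∈ H) {x : L}
    (hx : ⁅t, x⁆ = 0) :
    x ∈ Submodule.span K ((H : Set L) ∪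
      {e : L | ∃ α : H.root, α.1 ⟨t, ht⟩ = 0 ∧ e ∈ rootSpace H α.1}) := by
  have h1 := eigenspace_le_iSup (ad K L t)
    (fun χ : Weight K H L ↦ (genWeightSpace L χ : Submodule K L)) (fun χ ↦ χ ⟨t, ht⟩)
    (by
      intro χ y hy
      rw [Module.End.mem_eigenspace_iff, ad_apply]
      exact lie_eq_smul_of_mem_rootSpace hy ⟨t, ht⟩)
    (by
      rw [← LieSubmodule.iSup_toSubmodule, LieModule.iSup_genWeightSpace_eq_top']
      rfl) 0
  have h2 : x ∈ (ad K L t).eigenspace 0 := by
    rw [Module.End.mem_eigenspace_iff, ad_apply, hx, zero_smul]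
  have h3 := h1 h2
  have h4 : (⨆ χ : Weight K H L, ⨆ (_ : χ ⟨t, ht⟩ = 0), (genWeightSpace L χ : Submodule K L)) ≤
      Submodule.span K ((H : Set L) ∪
      {e : L | ∃ α : H.root, α.1 ⟨t, ht⟩ = 0 ∧ e ∈ rootSpace H α.1}) := by
    refine iSup₂_le fun χ hχ ↦ ?_
    intro y hy
    by_cases hχ0 : χ.IsZero
    · refine Submodule.subset_span (Or.inl ?_)
      have : y ∈ rootSpace H (0 : H → K) := by
        have h5 : y ∈ rootSpace H (χ : H → K) := hy
        rwa [hχ0.eq] at h5
      rw [rootSpace_zero_eq] at this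
      exact this
    · refine Submodule.subset_span (Or.inr ⟨⟨χ, ?_⟩, hχ, hy⟩)
      have : χ.IsNonZero := hχ0
      simpa using this
  exact h4 h3

/-- `ad t`-eigenvectors span `L`, for `t` in the Cartan subalgebra. -/
lemma mem_span_eigen {t : L} (ht : t ∈ H) (x : L) :
    x ∈ Submodule.span K {y : L | ∃ a : K, ⁅t, y⁆ = a • y} := by
  have h1 : Submodule.span K ((H : Set L) ∪ {e : L | ∃ α : H.root, e ∈ rootSpace H α.1}) ≤
      Submodule.span K {y : L | ∃ a : K, ⁅t, y⁆ = a • y} := by
    refine Submodule.span_mono ?_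
    rintro y (hy | ⟨α, hα⟩)
    · refine ⟨0, ?_⟩
      have : ⁅(⟨t, ht⟩ : H), (⟨y, hy⟩ : H)⁆ = 0 := by
        have := LieAlgebra.IsKilling.instIsLieAbelianOfIsCartanSubalgebra K L H
        exact trivial_lie_zero _ _ _ _
      rw [zero_smul]
      exact congrArg Subtype.val this
    · exact ⟨_, lie_eq_smul_of_mem_rootSpace hα ⟨t, ht⟩⟩
  exact h1 (mem_span_root H x)

/-- Eigenvectors of `t` in `V` are sums of weight vectors. -/
lemma mem_iSup_wSpace_of_eigen {t : L} (ht : t ∈ H) {a : K} {v : V} (hv : ⁅t, v⁆ = a • v) :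
    v ∈ ⨆ χ : Dual K H, ⨆ (_ : χ ⟨t, ht⟩ = a), wSpace H V χ := by
  refine eigenspace_le_iSup (toEnd K L V t) (fun χ : Dual K H ↦ wSpace H V χ)
    (fun χ ↦ χ ⟨t, ht⟩) ?_ (iSup_wSpace_eq_top H V) a ?_
  · intro χ w hw
    rw [Module.End.mem_eigenspace_iff, toEnd_apply_apply]
    exact hw ⟨t, ht⟩
  · rw [Module.End.mem_eigenspace_iff, toEnd_apply_apply, hv]

/-- The possible levels of weights. -/
lemma level_of_mem_wSet {t : L} (htH : t ∈ H) (ht : IsTripotentOn V t) {χ : Dual K H}
    (hχ : χ ∈ wSet H V) : χ ⟨t, htH⟩ = 0 ∨ χ ⟨t, htH⟩ = 1 ∨ χ ⟨t, htH⟩ = -1 := by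
  obtain ⟨v, hv, hv0⟩ := (Submodule.ne_bot_iff _).mp hχ
  by_contra! hcon
  exact hv0 (ht.eq_zero (hv ⟨t, htH⟩) hcon.1 hcon.2.1 hcon.2.2)

end Weights

end Pool.Agent.Helper88
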