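import Mathlib
import Pool.Agent.Helper88.LieWeights2

set_option linter.unusedSectionVars false

namespace Pool.Agent.Helper88

open LieModule LieAlgebra LieAlgebra.IsKilling Module

section Bound

variable {K : Type*} [Field K] [IsAlgClosed K] [CharZero K]
variable {L : Type*} [LieRing L] [LieAlgebra K L] [FiniteDimensional K L] [IsKilling K L]
variable (H : LieSubalgebra K L) [H.IsCartanSubalgebra] [(rootSystem H).IsIrreducible]
variable {V : Type*} [AddCommGroup V] [Module K V] [LieRingModule L V] [LieModule K L V]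
variable [FiniteDimensional K V] [IsIrreducible K L V] [IsFaithful K L V]

/-- The main bound in the indecomposable case. -/
lemma finrank_eigenspace_zero_le [Nontrivial L] {t : L} (htH : t ∈ H) (ht : IsTripotentOn V t)
    (h0 : (0 : Dual K H) ∈ wSet H V) (hind : IsWeightSet.Indec (rootSystem H) (wSet H V))
    {v₁ : V} (hv₁ : ⁅t, v₁⁆ = v₁) (hv₁0 : v₁ ≠ 0) :
    finrank K ((toEnd K L V t).eigenspace 0) ≤
      finrank K ((toEnd K L V t).eigenspace 1) * finrank K ((toEnd K L V t).eigenspace 1) := by
  classical
  have hX : IsWeightSet (rootSystem H) (wSet H V) := isWeightSet H V h0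
  have hne : ∃ i, (rootSystem H).root i ∈ wSet H V := exists_root_mem_wSet H h0
  set P := rootSystem H with hP
  set tH : H := ⟨t, htH⟩ with htH'
  have htH0 : tH ≠ 0 := by
    intro h
    have : t = 0 := congrArg Subtype.val h
    rw [this, zero_lie] at hv₁
    exact hv₁0 hv₁.symm
  have hlev : ∀ χ ∈ wSet H V, P.toLinearMap χ tH = 0 ∨ P.toLinearMap χ tH = 1 ∨
      P.toLinearMap χ tH = -1 := fun χ hχ ↦ level_of_mem_wSet H htH ht hχ
  let S := {i : H.root // P.root i ∈ wSet H V ∧ P.root i tH = 1}
  -- root vectors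
  have hex : ∀ i : H.root, ∃ h e f : L, IsSl2Triple h e f ∧ e ∈ rootSpace H i.1 ∧
      f ∈ rootSpace H (-(i.1 : H → K)) := fun i ↦
    exists_isSl2Triple_of_weight_isNonZero (LieSubalgebra.isNonZero_coe_root i)
  choose hh ee ff htr hee hff using hex
  have hmap : ∀ (i : S) (v : V), ⁅t, v⁆ = 0 → ⁅t, ⁅ee i.1, v⁆⁆ = ⁅ee i.1, v⁆ := by
    intro i v hv
    have h1 : ⁅t, ee i.1⁆ = (1 : K) • ee i.1 := by
      have := lie_eq_smul_of_mem_rootSpace (hee i.1) tH
      have h2 : (i.1.1 : H → K) tH = 1 := i.2.2
      rw [h2] at this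
      exact this
    have := lie_eigen_add (K := K) (t := t) (x := ee i.1) (v := v) (a := 1) (b := 0) h1
      (by rw [hv, zero_smul])
    rw [this]; norm_num
  -- the linear map
  let Φ : ((toEnd K L V t).eigenspace 0) →ₗ[K] (S → ((toEnd K L V t).eigenspace 1)) :=
    LinearMap.pi fun i ↦ LinearMap.codRestrict _
      ((toEnd K L V (ee i.1)).comp (Submodule.subtype _)) (by
        intro v
        rw [Module.End.mem_eigenspace_iff]
        have hv : ⁅t, (v : V)⁆ = 0 := by
          have := v.2
          rw [Module.End.mem_eigenspace_iff] at this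
          simpa using this
        simpa using hmap i v hv)
  have hΦ : ∀ v i, ((Φ v i : ((toEnd K L V t).eigenspace 1)) : V) = ⁅ee i.1, (v : V)⁆ := by
    intro v i; rfl
  -- injectivity
  have hinj : Function.Injective Φ := by
    rw [← LinearMap.ker_eq_bot]
    by_contra hker
    -- the corresponding subspace of `V`
    let U : Submodule K V :=
      { carrier := {v | ⁅t, v⁆ = 0 ∧ ∀ i : S, ⁅ee i.1, v⁆ = 0}
        add_mem' := by
          rintro a b ⟨ha, ha'⟩ ⟨hb, hb'⟩
          refine ⟨by rw [lie_add, ha, hb, add_zero], fun i ↦ by rw [lie_add, ha' i, hb' i, add_zero]⟩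
        zero_mem' := ⟨by simp, fun i ↦ by simp⟩
        smul_mem' := by
          rintro c v ⟨hv, hv'⟩
          exact ⟨by rw [lie_smul, hv, smul_zero], fun i ↦ by rw [lie_smul, hv' i, smul_zero]⟩ }
    have hUne : U ≠ ⊥ := by
      obtain ⟨v, hv, hv0⟩ := (Submodule.ne_bot_iff _).mp hker
      refine (Submodule.ne_bot_iff _).mpr ⟨v, ⟨?_, fun i ↦ ?_⟩, ?_⟩
      · have := v.2
        rw [Module.End.mem_eigenspace_iff] at this
        simpa using this
      · rw [← hΦ v i, LinearMap.mem_ker.mp hv]; rfl
      · intro h; exact hv0 (Subtype.ext h)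
    let UH : LieSubmodule K H V :=
      { U with
        lie_mem := by
          rintro x v ⟨hv, hv'⟩
          change ⁅t, ⁅(x : L), v⁆⁆ = 0 ∧ ∀ i : S, ⁅ee i.1, ⁅(x : L), v⁆⁆ = 0
          constructor
          · have hc : ⁅t, (x : L)⁆ = 0 := by
              have := LieAlgebra.IsKilling.instIsLieAbelianOfIsCartanSubalgebra K L H
              have h1 : ⁅tH, x⁆ = 0 := trivial_lie_zero _ _ _ _
              exact congrArg Subtype.val h1
            rw [leibniz_lie, hc, hv]; simp
          · intro i
            have h1 : ⁅(x : L), ee i.1⁆ = (i.1.1 : H → K) x • ee i.1 :=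
              lie_eq_smul_of_mem_rootSpace (hee i.1) x
            rw [leibniz_lie, ← lie_skew, h1, neg_lie, smul_lie, hv' i]; simp }
    have hUHnt : Nontrivial UH := by
      obtain ⟨v, hv, hv0⟩ := (Submodule.ne_bot_iff _).mp hUne
      exact ⟨⟨⟨v, hv⟩, 0, fun h ↦ hv0 (congrArg Subtype.val h)⟩⟩
    obtain ⟨μ, hμ⟩ := LieModule.exists_nontrivial_weightSpace_of_isNilpotent K H UH
    obtain ⟨⟨⟨v, hvU⟩, hvμ⟩, hv0⟩ := exists_ne (0 : weightSpace UH μ)
    have hv0' : v ≠ 0 := by
      rintro rfl
      exact hv0 rfl
    have hvw : v ∈ wSpace H V μ := by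
      intro x
      rw [mem_weightSpace] at hvμ
      exact congrArg Subtype.val (hvμ x)
    obtain ⟨hvt, hvS⟩ : ⁅t, v⁆ = 0 ∧ ∀ i : S, ⁅ee i.1, v⁆ = 0 := hvU
    have hμt : P.toLinearMap μ tH = 0 := by
      have h1 := hvw tH
      have h2 : ⁅t, v⁆ = μ tH • v := h1
      rw [hvt] at h2
      exact (smul_eq_zero.mp h2.symm).resolve_right hv0'
    have hμ0 : μ = 0 := by
      refine hX.eq_zero_of_level_zero hind hne htH0 hlev hμt ?_
      intro i hi hi1
      have prim : (htr i).HasPrimitiveVectorWith v (μ (coroot i.1)) :=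
        { ne_zero := hv0'
          lie_h := by
            rw [(htr i).h_eq_coroot (LieSubalgebra.isNonZero_coe_root i) (hee i) (hff i)]
            exact hvw _
          lie_e := hvS ⟨i, hi, hi1⟩ }
      obtain ⟨n, hn⟩ := prim.exists_nat
      exact ⟨n, hn⟩
    subst hμ0
    -- the subspace killed by degree one
    let N : Submodule K V :=
      { carrier := {v | ⁅t, v⁆ = 0 ∧ ∀ x : L, ⁅t, x⁆ = x → ⁅x, v⁆ = 0}
        add_mem' := by
          rintro a b ⟨ha, ha'⟩ ⟨hb, hb'⟩
          refine ⟨by rw [lie_add, ha, hb, add_zero],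
            fun x hx ↦ by rw [lie_add, ha' x hx, hb' x hx, add_zero]⟩
        zero_mem' := ⟨by simp, fun x hx ↦ by simp⟩
        smul_mem' := by
          rintro c v ⟨hv, hv'⟩
          exact ⟨by rw [lie_smul, hv, smul_zero], fun x hx ↦ by rw [lie_smul, hv' x hx, smul_zero]⟩ }
    have hvN : v ∈ N := by
      refine ⟨hvt, fun x hx ↦ ?_⟩
      have h1 := mem_span_rootSpace_of_eigen H htH (a := 1) one_ne_zero (x := x)
        (by rw [hx, one_smul])
      clear hx
      induction h1 using Submodule.span_induction with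
      | mem e he =>
        obtain ⟨α, hα, he⟩ := he
        by_cases hαX : P.root α ∈ wSet H V
        · -- `e` is a multiple of the chosen root vector
          have h2 : ∃ c : K, c • ee α = e := by
            have h3 := finrank_rootSpace_eq_one α.1 (LieSubalgebra.isNonZero_coe_root α)
            have h4 : (⟨ee α, hee α⟩ : rootSpace H α.1) ≠ 0 := by
              intro h
              exact (htr α).e_ne_zero (congrArg Subtype.val h)
            obtain ⟨c, hc⟩ := (finrank_eq_one_iff_of_nonzero' _ h4).mp h3 ⟨e, he⟩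
            exact ⟨c, congrArg Subtype.val hc⟩
          obtain ⟨c, rfl⟩ := h2
          rw [smul_lie, hvS ⟨α, hαX, hα⟩, smul_zero]
        · have h2 := lie_mem_wSpace H he hvw
          rw [zero_add] at h2
          have h3 : wSpace H V (P.root α) = ⊥ := by
            by_contra h4
            exact hαX h4
          rw [h3] at h2
          exact (Submodule.mem_bot K).mp h2
      | zero => simp
      | add x y _ _ hx hy => rw [add_lie, hx, hy, add_zero]
      | smul a x _ hx => rw [smul_lie, hx, smul_zero]
    have hNne : N ≠ ⊥ := (Submodule.ne_bot_iff _).mpr ⟨v, hvN, hv0'⟩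
    obtain ⟨a, b, d, habd, haN, hb, hd⟩ := exists_decomp_of_highest (K := K) (c := 0) ht
      (mem_span_eigen H htH) (Or.inl rfl) hNne (fun w hw ↦ by rw [hw.1, zero_smul])
      (by
        rintro x hx w ⟨hw, hw'⟩
        refine ⟨by rw [leibniz_lie, hx, hw]; simp, fun y hy ↦ ?_⟩
        rw [leibniz_lie, hw' y hy, lie_zero, add_zero]
        apply hw'
        rw [leibniz_lie, hy, hx, lie_zero, add_zero])
      (by
        rintro x hx w ⟨hw, hw'⟩
        exact hw' x hx)
      (by
        rintro x hx w ⟨hw, hw'⟩
        refine ht.eq_zero (K := K) (a := 2 + 0)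
          (lie_eigen_add hx (by rw [hw, zero_smul])) ?_ ?_ ?_ <;> norm_num)
      v₁
    -- contradiction: `v₁` is of level one
    have ha : ⁅t, a⁆ = 0 := haN.1
    have h1 : a + (2 : K) • b + (3 : K) • d = 0 := by
      have e1 : ⁅t, v₁⁆ = -b + -((2 : K) • d) := by
        rw [habd, lie_add, lie_add, ha, hb, hd, zero_add, zero_sub, zero_sub, neg_one_smul,
          neg_smul]
      rw [hv₁, habd] at e1
      have e2 : a + (2 : K) • b + (3 : K) • d = (a + b + d) - (-b + -((2 : K) • d)) := by
        have : (3 : K) • d = d + (2 : K) • d := by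
          rw [show (3 : K) = 1 + 2 by norm_num, add_smul, one_smul]
        rw [this, two_smul]; abel
      rw [e2, e1, sub_self]
    have h2 : (2 : K) • b + (6 : K) • d = 0 := by
      have e1 := congrArg (fun w ↦ ⁅t, w⁆) h1
      simp only [lie_add, lie_smul, ha, hb, hd, zero_add, lie_zero, zero_sub, smul_smul,
        mul_neg, mul_one] at e1
      have e2 : (2 : K) • b + (6 : K) • d = -((-2 : K) • b + (-(3 * 2) : K) • d) := by
        module
      rw [e2, e1, neg_zero]
    have h3 : (6 : K) • d = 0 := by
      have e1 := congrArg (fun w ↦ ⁅t, w⁆) h2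
      simp only [lie_add, lie_smul, hb, hd, lie_zero, zero_sub, smul_smul,
        mul_neg, mul_one] at e1
      have e2 : (6 : K) • d = -(((-2 : K) • b + (-(6 * 2) : K) • d) + ((2 : K) • b + (6 : K) • d)) := by
        module
      rw [e2, e1, h2, add_zero, neg_zero]
    have hd0 : d = 0 := by
      rcases smul_eq_zero.mp h3 with h | h
      · norm_num at h
      · exact h
    have hb0 : b = 0 := by
      rw [hd0, smul_zero, add_zero] at h2
      rcases smul_eq_zero.mp h2 with h | h
      · norm_num at h
      · exact h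
    have ha0 : a = 0 := by
      rw [hd0, hb0, smul_zero, smul_zero, add_zero, add_zero] at h1
      exact h1
    exact hv₁0 (by rw [habd, ha0, hb0, hd0]; simp)
  -- dimension count
  have hfin : Finite S := inferInstance
  have : Fintype S := Fintype.ofFinite S
  have hcard : Fintype.card S ≤ finrank K ((toEnd K L V t).eigenspace 1) := by
    -- choose weight vectors
    have hch : ∀ i : S, ∃ v : V, v ∈ wSpace H V (P.root i.1) ∧ v ≠ 0 := fun i ↦
      (Submodule.ne_bot_iff _).mp i.2.1
    choose w hw hw0 using hch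
    have hlin : LinearIndependent K w := by
      have h1 : iSupIndep (fun i : S ↦ wSpace H V (P.root i.1)) :=
        (iSupIndep_wSpace H V).comp (f := fun i : S ↦ P.root i.1)
          (fun i j hij ↦ Subtype.ext (P.root.injective hij))
      exact h1.linearIndependent _ hw hw0
    have hmem : ∀ i, w i ∈ (toEnd K L V t).eigenspace 1 := by
      intro i
      rw [Module.End.mem_eigenspace_iff, toEnd_apply_apply]
      have h1 := hw i tH
      have h2 : P.root i.1 tH = 1 := i.2.2
      rw [h2] at h1
      exact h1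
    have hlin' : LinearIndependent K (fun i ↦ (⟨w i, hmem i⟩ : (toEnd K L V t).eigenspace 1)) :=
      LinearIndependent.of_comp (Submodule.subtype _) hlin
    exact hlin'.fintype_card_le_finrank
  calc finrank K ((toEnd K L V t).eigenspace 0)
      ≤ finrank K (S → ((toEnd K L V t).eigenspace 1)) := LinearMap.finrank_le_finrank_of_injective hinj
    _ = Fintype.card S * finrank K ((toEnd K L V t).eigenspace 1) := by
        rw [Module.finrank_pi_fintype]; simp
    _ ≤ _ := Nat.mul_le_mul_right _ hcard

end Bound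

end Pool.Agent.Helper88
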