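import Mathlib
import Pool.Agent.Helper88.Grading

set_option linter.unusedSectionVars false

namespace Pool.Agent.Helper88

open LieModule LieAlgebra Module

section Cartan

variable {K : Type*} [Field K] [CharZero K]
variable {L : Type*} [LieRing L] [LieAlgebra K L] [FiniteDimensional K L]

/-- An element whose adjoint operator has no nilpotent part at zero is contained in a Cartan
subalgebra. -/
lemma exists_cartan_mem {t : L} (ht : ∀ y : L, ⁅t, ⁅t, y⁆⁆ = 0 → ⁅t, y⁆ = 0) :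
    ∃ H : LieSubalgebra K L, H.IsCartanSubalgebra ∧ t ∈ H := by
  have : Infinite K := inferInstance
  have hpow : ∀ (n : ℕ) (y : L), ((ad K L t) ^ (n + 1)) y = 0 → ⁅t, y⁆ = 0 := by
    intro n
    induction n with
    | zero => intro y hy; simpa using hy
    | succ n ih =>
      intro y hy
      rw [pow_succ, Module.End.mul_apply] at hy
      exact ht y (ih _ hy)
  have hmem : ∀ y, y ∈ LieSubalgebra.engel K t ↔ ⁅t, y⁆ = 0 := by
    intro y
    rw [LieSubalgebra.mem_engel_iff]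
    constructor
    · rintro ⟨n, hn⟩
      cases n with
      | zero =>
        have : y = 0 := by simpa using hn
        rw [this, lie_zero]
      | succ n => exact hpow n y hn
    · intro h
      exact ⟨1, by simpa using h⟩
  set L0 := LieSubalgebra.engel K t with hL0
  obtain ⟨x, hx⟩ := LieAlgebra.exists_isCartanSubalgebra_engel K L0
  set H0 := LieSubalgebra.engel K x with hH0
  let f : H0 →ₗ⁅K⁆ L := L0.incl.comp H0.incl
  have hf : ∀ y : L, y ∈ f.range ↔ ∃ h : y ∈ L0, (⟨y, h⟩ : L0) ∈ H0 := by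
    intro y
    rw [LieHom.mem_range]
    constructor
    · rintro ⟨⟨⟨z, hz⟩, hz'⟩, rfl⟩
      exact ⟨hz, hz'⟩
    · rintro ⟨h, h'⟩
      exact ⟨⟨⟨y, h⟩, h'⟩, rfl⟩
  have htL0 : t ∈ L0 := LieSubalgebra.self_mem_engel K t
  have htH0 : (⟨t, htL0⟩ : L0) ∈ H0 := by
    have h1 : (⟨t, htL0⟩ : L0) ∈ H0.normalizer := by
      rw [LieSubalgebra.mem_normalizer_iff]
      intro y hy
      have : ⁅(⟨t, htL0⟩ : L0), y⁆ = 0 := by
        apply Subtype.ext
        exact (hmem y.1).mp y.2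
      rw [this]
      exact H0.zero_mem
    rwa [LieSubalgebra.IsCartanSubalgebra.self_normalizing] at h1
  have htf : t ∈ f.range := (hf t).mpr ⟨htL0, htH0⟩
  refine ⟨f.range, ⟨?_, ?_⟩, htf⟩
  · exact Function.Surjective.lieAlgebra_isNilpotent (f := f.rangeRestrict)
      f.surjective_rangeRestrict
  · refine le_antisymm ?_ (LieSubalgebra.le_normalizer _)
    intro y hy
    rw [LieSubalgebra.mem_normalizer_iff] at hy
    have hyL0 : y ∈ L0 := by
      rw [hmem]
      apply ht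
      have h1 := hy t htf
      obtain ⟨h2, -⟩ := (hf _).mp h1
      rw [hmem] at h2
      have h3 : ⁅t, y⁆ = -⁅y, t⁆ := (lie_skew t y).symm
      rw [h3, lie_neg, h2, neg_zero]
    rw [hf]
    refine ⟨hyL0, ?_⟩
    have h1 : (⟨y, hyL0⟩ : L0) ∈ H0.normalizer := by
      rw [LieSubalgebra.mem_normalizer_iff]
      intro z hz
      have h2 := hy z.1 ((hf _).mpr ⟨z.2, hz⟩)
      obtain ⟨h3, h4⟩ := (hf _).mp h2
      exact h4
    rwa [LieSubalgebra.IsCartanSubalgebra.self_normalizing] at h1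

variable {V : Type*} [AddCommGroup V] [Module K V] [LieRingModule L V] [LieModule K L V]
  [IsFaithful K L V]

include K V in
/-- Tripotent elements have semisimple adjoint operators: a polynomial identity. -/
lemma ad_identity {t : L} (ht : IsTripotentOn V t) (y : L) :
    ⁅t, ⁅t, ⁅t, ⁅t, ⁅t, y⁆⁆⁆⁆⁆ = (5 : K) • ⁅t, ⁅t, ⁅t, y⁆⁆⁆ - (4 : K) • ⁅t, y⁆ := by
  have hinj : Function.Injective (toEnd K L V) := IsFaithful.injective_toEnd
  apply hinj
  ext v
  have e1 : ∀ (x : L) (v : V), ⁅⁅t, x⁆, v⁆ = ⁅t, ⁅x, v⁆⁆ - ⁅x, ⁅t, v⁆⁆ := fun x v ↦ lie_lie t x v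
  have h3 : ∀ v : V, ⁅t, ⁅t, ⁅t, v⁆⁆⁆ = ⁅t, v⁆ := ht
  simp only [toEnd_apply_apply, sub_lie, smul_lie, e1, lie_sub, h3]
  module

include K V in
lemma ad_sq_zero {t : L} (ht : IsTripotentOn V t) (y : L) (hy : ⁅t, ⁅t, y⁆⁆ = 0) :
    ⁅t, y⁆ = 0 := by
  have h1 := ad_identity (K := K) (V := V) ht y
  rw [hy] at h1
  simp only [lie_zero, smul_zero, zero_sub] at h1
  have h2 : (4 : K) • ⁅t, y⁆ = 0 := by
    rw [← neg_eq_zero, ← h1]
  rcases smul_eq_zero.mp h2 with h | h
  · norm_num at h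
  · exact h

end Cartan

end Pool.Agent.Helper88
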