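import Mathlib
import Pool.Agent.Helper88.LieWeights2

set_option linter.unusedSectionVars false

namespace Pool.Agent.Helper88

open LieModule LieAlgebra LieAlgebra.IsKilling Module

section Ortho

variable {K : Type*} [Field K] [IsAlgClosed K] [CharZero K]
variable {L : Type*} [LieRing L] [LieAlgebra K L] [FiniteDimensional K L] [IsKilling K L]
variable (H : LieSubalgebra K L) [H.IsCartanSubalgebra] [(rootSystem H).IsIrreducible]
variable {V : Type*} [AddCommGroup V] [Module K V] [LieRingModule L V] [LieModule K L V]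
variable [FiniteDimensional K V] [IsIrreducible K L V] [IsFaithful K L V]

/-- In the orthogonal case there is a tripotent element of rank two. -/
lemma exists_rank_two [Nontrivial L] {t : L} (htH : t ∈ H) (ht : IsTripotentOn V t)
    (ht0 : t ≠ 0)
    (h0 : (0 : Dual K H) ∈ wSet H V)
    (horth : IsWeightSet.PairwiseOrth (rootSystem H) (wSet H V)) :
    ∃ s : L, s ∈ H ∧ IsTripotentOn V s ∧ ∃ e : V, e ≠ 0 ∧ ⁅s, e⁆ = e ∧
      ∀ v : V, ⁅s, v⁆ = v → ∃ c : K, v = c • e := by
  classical
  have hX : IsWeightSet (rootSystem H) (wSet H V) := isWeightSet H V h0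
  have hne : ∃ i, (rootSystem H).root i ∈ wSet H V := exists_root_mem_wSet H h0
  set P := rootSystem H with hP
  set tH : H := ⟨t, htH⟩ with htH'
  have htH0 : tH ≠ 0 := by
    intro h
    exact ht0 (congrArg Subtype.val h)
  have hlev : ∀ χ ∈ wSet H V, P.toLinearMap χ tH = 0 ∨ P.toLinearMap χ tH = 1 ∨
      P.toLinearMap χ tH = -1 := fun χ hχ ↦ level_of_mem_wSet H htH ht hχ
  have hZ : ∀ χ ∈ wSet H V, χ ∈ AddSubgroup.closure (Set.range P.root) :=
    fun χ hχ ↦ mem_closure_root H h0 hχ
  obtain ⟨i, hiX⟩ := hne
  set s : H := (2⁻¹ : K) • P.coroot i with hs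
  have hval : ∀ χ : Dual K H, χ s = 2⁻¹ * P.coroot' i χ := by
    intro χ
    rw [hs, map_smul, smul_eq_mul]
    rfl
  have hvals : ∀ χ ∈ wSet H V, χ s = 0 ∨ (χ s = 1 ∧ χ = P.root i) ∨
      (χ s = -1 ∧ χ = - P.root i) := by
    intro χ hχ
    by_cases hχ0 : χ = 0
    · left; rw [hχ0]; rfl
    obtain ⟨j, hjX, rfl⟩ := hX.exists_root_of_pairwiseOrth horth ⟨i, hiX⟩ hZ htH0 hlev hχ hχ0
    by_cases h1 : j = i
    · right; left
      subst h1
      refine ⟨?_, rfl⟩
      rw [hval, RootPairing.root_coroot'_eq_pairing, RootPairing.pairing_same]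
      norm_num
    by_cases h2 : P.root j = - P.root i
    · right; right
      refine ⟨?_, h2⟩
      rw [hval, h2, map_neg, RootPairing.root_coroot'_eq_pairing, RootPairing.pairing_same]
      norm_num
    · left
      rw [hval, RootPairing.root_coroot'_eq_pairing, horth j i hjX hiX h1 h2]
      norm_num
  have hstrip : IsTripotentOn V (s : L) := by
    intro v
    have hv : v ∈ ⨆ χ : Dual K H, wSpace H V χ := by
      rw [iSup_wSpace_eq_top]; exact Submodule.mem_top
    induction hv using Submodule.iSup_induction' with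
    | mem χ w hw =>
      by_cases hw0 : w = 0
      · simp [hw0]
      have hχ : χ ∈ wSet H V := (Submodule.ne_bot_iff _).mpr ⟨w, hw, hw0⟩
      rw [hw s, lie_smul, hw s, lie_smul, lie_smul, hw s]
      rcases hvals χ hχ with h | ⟨h, -⟩ | ⟨h, -⟩ <;> rw [h] <;> simp
    | zero => simp
    | add x y _ _ hx hy => rw [lie_add, lie_add, lie_add, hx, hy]
  obtain ⟨e, he, he0⟩ := (Submodule.ne_bot_iff _).mp hiX
  have hroot : P.root i s = 1 := by
    rw [hval, RootPairing.root_coroot'_eq_pairing, RootPairing.pairing_same]
    norm_num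
  have hse : ⁅(s : L), e⁆ = e := by rw [he s, hroot, one_smul]
  refine ⟨s, s.2, hstrip, e, he0, hse, ?_⟩
  -- apply the main lemma on graded modules
  intro v hv
  have hmain := exists_decomp_of_highest (K := K) (c := 1) hstrip
    (mem_span_eigen H s.2) (Or.inr rfl) (N := Submodule.span K {e})
    (by
      rw [Ne, Submodule.span_singleton_eq_bot]; exact he0)
    (by
      intro w hw
      obtain ⟨c, rfl⟩ := Submodule.mem_span_singleton.mp hw
      rw [lie_smul, hse, one_smul])
    (by
      intro x hx w hw
      obtain ⟨c, rfl⟩ := Submodule.mem_span_singleton.mp hw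
      rw [lie_smul]
      refine Submodule.smul_mem _ _ ?_
      clear hw
      have h1 := mem_span_rootSpace_of_commute H s.2 hx
      clear hx
      induction h1 using Submodule.span_induction with
      | mem y hy =>
        rcases hy with hy | ⟨α, hα, hy⟩
        · rw [he ⟨y, hy⟩]
          exact Submodule.smul_mem _ _ (Submodule.mem_span_singleton_self e)
        · have h2 := lie_mem_wSpace H hy he
          by_cases h3 : ⁅y, e⁆ = 0
          · rw [h3]; exact zero_mem _
          · exfalso
            have h4 : P.root i + P.root α ∈ wSet H V :=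
              (Submodule.ne_bot_iff _).mpr ⟨_, h2, h3⟩
            have h5 : (P.root i + P.root α) s = 1 := by
              have h6 : P.root α s = 0 := hα
              rw [LinearMap.add_apply, hroot, h6, add_zero]
            rcases hvals _ h4 with h | ⟨-, h⟩ | ⟨h, -⟩
            · rw [h5] at h; exact one_ne_zero h
            · exact P.ne_zero α (by simpa using h)
            · rw [h5] at h; norm_num at h
      | zero => simp
      | add x y _ _ hx hy => rw [add_lie]; exact Submodule.add_mem _ hx hy
      | smul a x _ hx => rw [smul_lie]; exact Submodule.smul_mem _ _ hx)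
    (by
      intro x hx w hw
      obtain ⟨c, rfl⟩ := Submodule.mem_span_singleton.mp hw
      rw [lie_smul]
      have : ⁅x, e⁆ = 0 := by
        refine hstrip.eq_zero (K := K) (a := 1 + 1)
          (lie_eigen_add (by rw [hx, one_smul]) (by rw [hse, one_smul])) ?_ ?_ ?_ <;> norm_num
      rw [this, smul_zero])
    (by
      intro x hx w hw
      obtain ⟨c, rfl⟩ := Submodule.mem_span_singleton.mp hw
      rw [lie_smul]
      have : ⁅x, e⁆ = 0 := by
        refine hstrip.eq_zero (K := K) (a := 2 + 1)
          (lie_eigen_add hx (by rw [hse, one_smul])) ?_ ?_ ?_ <;> norm_num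
      rw [this, smul_zero])
    v
  obtain ⟨a, b, d, habd, ha, hb, hd⟩ := hmain
  obtain ⟨c, rfl⟩ := Submodule.mem_span_singleton.mp ha
  refine ⟨c, ?_⟩
  rw [sub_self, zero_smul] at hb
  have hd' : ⁅(s : L), d⁆ = -d := by
    rw [hd, show (1 - 2 : K) = -1 by norm_num, neg_one_smul]
  -- `v = c e + b + d`, apply `s`
  have e1 : c • e - d = c • e + b + d := by
    have := hv
    rw [habd, lie_add, lie_add, lie_smul, hse, hb, hd'] at this
    rw [← this]; abel
  have e2 : b + (2 : K) • d = 0 := by
    have : b + (2 : K) • d = (c • e + b + d) - (c • e - d) := by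
      rw [two_smul]; abel
    rw [this, ← e1, sub_self]
  have e3 : (2 : K) • d = 0 := by
    have := congrArg (fun w ↦ ⁅(s : L), w⁆) e2
    simp only [lie_add, hb, lie_smul, hd', zero_add, lie_zero, smul_neg, neg_eq_zero] at this
    exact this
  have hd0 : d = 0 := by
    rcases smul_eq_zero.mp e3 with h | h
    · norm_num at h
    · exact h
  have hb0 : b = 0 := by rw [hd0, smul_zero, add_zero] at e2; exact e2
  rw [habd, hb0, hd0, add_zero, add_zero]

end Ortho

end Pool.Agent.Helper88
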