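import Mathlib
import Pool.Agent.Helper88.Grading

set_option linter.unusedSectionVars false

namespace Pool.Agent.Helper88

open LieModule Module

section RankTwo

attribute [local instance 100] LieRing.ofAssociativeRing

variable {K : Type*} [Field K] [CharZero K]
variable {L : Type*} [LieRing L] [LieAlgebra K L]
variable {V : Type*} [AddCommGroup V] [Module K V] [LieRingModule L V] [LieModule K L V]
variable (B : LinearMap.BilinForm K V)

/-- The operator `v ↦ B(v,a) b - B(v,b) a`. -/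
def dOp (a b : V) : Module.End K V :=
  (B.flip a).smulRight b - (B.flip b).smulRight a

lemma dOp_apply (a b v : V) : dOp B a b v = B v a • b - B v b • a := rfl

lemma dOp_self (a : V) : dOp B a a = 0 := by
  ext v; simp [dOp_apply]

lemma dOp_swap (a b : V) : dOp B a b = - dOp B b a := by
  ext v; simp [dOp_apply]

lemma dOp_add_left (a a' b : V) : dOp B (a + a') b = dOp B a b + dOp B a' b := by
  ext v; simp only [dOp_apply, map_add, LinearMap.add_apply, add_smul, smul_add]; abel

lemma dOp_smul_left (c : K) (a b : V) : dOp B (c • a) b = c • dOp B a b := by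
  ext v
  simp only [dOp_apply, map_smul, LinearMap.smul_apply, smul_eq_mul, mul_smul, smul_sub]
  rw [smul_comm c (B v b) a]

lemma dOp_add_right (a b b' : V) : dOp B a (b + b') = dOp B a b + dOp B a b' := by
  ext v; simp only [dOp_apply, map_add, LinearMap.add_apply, add_smul, smul_add]; abel

lemma dOp_smul_right (c : K) (a b : V) : dOp B a (c • b) = c • dOp B a b := by
  rw [dOp_swap, dOp_smul_left, dOp_swap B b a, smul_neg, neg_neg]

variable {B}

/-- Eigenvectors whose eigenvalues do not add up to zero are orthogonal. -/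
lemma orth_of_eigen (hinv : ∀ (x : L) (v w : V), B ⁅x, v⁆ w = - B v ⁅x, w⁆) {t : L} {v w : V}
    {a b : K} (hv : ⁅t, v⁆ = a • v) (hw : ⁅t, w⁆ = b • w) (hab : a + b ≠ 0) : B v w = 0 := by
  have h := hinv t v w
  rw [hv, hw, map_smul, map_smul, LinearMap.smul_apply, smul_eq_mul, smul_eq_mul] at h
  have : (a + b) * B v w = 0 := by linear_combination h
  exact (mul_eq_zero.mp this).resolve_left hab

/-- The basic step of the rank two lemma: all operators `dOp e w` with `⁅t, w⁆ = 0` come from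
`L`. -/
lemma dOp_mem_of_rank_two [FiniteDimensional K V] [IsIrreducible K L V]
    (hB : ∀ v, (∀ w, B v w = 0) → v = 0)
    (hsymm : ∀ v w, B v w = B w v)
    (hinv : ∀ (x : L) (v w : V), B ⁅x, v⁆ w = - B v ⁅x, w⁆)
    {t : L} (ht : IsTripotentOn V t)
    (hL : ∀ x : L, x ∈ Submodule.span K {y : L | ∃ a : K, ⁅t, y⁆ = a • y})
    {e f : V} (he : ⁅t, e⁆ = e) (h1 : ∀ v : V, ⁅t, v⁆ = v → ∃ c : K, v = c • e)
    (hf : ⁅t, f⁆ = -f) (h2 : ∀ v : V, ⁅t, v⁆ = -v → ∃ c : K, v = c • f) (hef : B e f = 1)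
    {w : V} (hw : ⁅t, w⁆ = 0) : ∃ x : L, toEnd K L V x = dOp B e w := by
  have he' : ⁅t, e⁆ = (1 : K) • e := by rw [he, one_smul]
  have hf' : ⁅t, f⁆ = (-1 : K) • f := by rw [hf, neg_one_smul]
  have hee : B e e = 0 := orth_of_eigen hinv he' he' (by norm_num)
  have hff : B f f = 0 := orth_of_eigen hinv hf' hf' (by norm_num)
  have hew : ∀ w, ⁅t, w⁆ = 0 → B e w = 0 := fun w hw ↦
    orth_of_eigen hinv (b := 0) he' (by rw [hw, zero_smul]) (by norm_num)
  have hfw : ∀ w, ⁅t, w⁆ = 0 → B f w = 0 := fun w hw ↦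
    orth_of_eigen hinv (b := 0) hf' (by rw [hw, zero_smul]) (by norm_num)
  -- elements of degree one
  have hdeg : ∀ x : L, ⁅t, x⁆ = x → toEnd K L V x = dOp B e ⁅x, f⁆ := by
    intro x hx
    have hx' : ⁅t, x⁆ = (1 : K) • x := by rw [hx, one_smul]
    have hxe : ⁅x, e⁆ = 0 := by
      refine ht.eq_zero (K := K) (a := 1 + 1) (lie_eigen_add hx' he') ?_ ?_ ?_ <;> norm_num
    have hxf : ⁅t, ⁅x, f⁆⁆ = 0 := by
      rw [lie_eigen_add (K := K) hx' hf']; norm_num
    have hxw : ∀ w, ⁅t, w⁆ = 0 → ⁅x, w⁆ = -(B w ⁅x, f⁆) • e := by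
      intro w hw
      have h3 : ⁅t, ⁅x, w⁆⁆ = ⁅x, w⁆ := by
        rw [lie_eigen_add (K := K) (b := 0) hx' (by rw [hw, zero_smul])]; norm_num
      obtain ⟨c, hc⟩ := h1 _ h3
      have h4 := hinv x w f
      rw [hc, map_smul, LinearMap.smul_apply, hef, smul_eq_mul, mul_one] at h4
      rw [hc, h4]
    ext v
    obtain ⟨a, b, c, rfl, ha, hb, hc⟩ := IsTripotentOn.decomp (K := K) ht v
    obtain ⟨α, rfl⟩ := h1 a ha
    obtain ⟨γ, rfl⟩ := h2 c hc
    rw [toEnd_apply_apply, lie_add, lie_add, lie_smul, lie_smul, hxe, hxw b hb, dOp_apply]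
    have e1 : B (α • e + b + γ • f) e = γ := by
      simp only [map_add, map_smul, LinearMap.add_apply, LinearMap.smul_apply, hee, smul_eq_mul,
        hsymm b e, hew b hb, hsymm f e, hef]
      ring
    have e2 : B (α • e + b + γ • f) ⁅x, f⁆ = B b ⁅x, f⁆ := by
      simp only [map_add, map_smul, LinearMap.add_apply, LinearMap.smul_apply, smul_eq_mul,
        hew _ hxf, hfw _ hxf]
      ring
    rw [e1, e2, smul_zero, zero_add, neg_smul]
    abel
  -- the subspace `W'`
  let W : Submodule K V :=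
    { carrier := {v | ∃ x : L, ⁅t, x⁆ = x ∧ v = ⁅x, f⁆}
      add_mem' := by
        rintro _ _ ⟨x, hx, rfl⟩ ⟨y, hy, rfl⟩
        exact ⟨x + y, by rw [lie_add, hx, hy], by rw [add_lie]⟩
      zero_mem' := ⟨0, by simp, by simp⟩
      smul_mem' := by
        rintro c _ ⟨x, hx, rfl⟩
        exact ⟨c • x, by rw [lie_smul, hx], by rw [smul_lie]⟩ }
  have hW0 : ∀ v ∈ W, ⁅t, v⁆ = 0 := by
    rintro _ ⟨x, hx, rfl⟩
    rw [lie_eigen_add (K := K) (a := 1) (b := -1) (by rw [hx, one_smul]) hf']; norm_num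
  -- `N`
  let N : Submodule K V :=
    { carrier := {v | ⁅t, v⁆ = 0 ∧ ∀ x : L, ⁅t, x⁆ = x → ⁅x, v⁆ = 0}
      add_mem' := by
        rintro a b ⟨ha, ha'⟩ ⟨hb, hb'⟩
        refine ⟨by rw [lie_add, ha, hb, add_zero],
          fun x hx ↦ by rw [lie_add, ha' x hx, hb' x hx, add_zero]⟩
      zero_mem' := ⟨by simp, fun x hx ↦ by simp⟩
      smul_mem' := by
        rintro c v ⟨hv, hv'⟩
        exact ⟨by rw [lie_smul, hv, smul_zero], fun x hx ↦ by rw [lie_smul, hv' x hx, smul_zero]⟩ }
  have hN : N = ⊥ := by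
    by_contra hNne
    obtain ⟨a, b, d, habd, haN, hb, hd⟩ := exists_decomp_of_highest (K := K) (c := 0) ht
      hL (Or.inl rfl) hNne (fun w hw ↦ by rw [hw.1, zero_smul])
      (by
        rintro x hx w ⟨hw, hw'⟩
        refine ⟨by rw [leibniz_lie, hx, hw]; simp, fun y hy ↦ ?_⟩
        rw [leibniz_lie, hw' y hy, lie_zero, add_zero]
        apply hw'
        rw [leibniz_lie, hy, hx, lie_zero, add_zero])
      (by
        rintro x hx w ⟨hw, hw'⟩
        exact hw' x hx)
      (by
        rintro x hx w ⟨hw, hw'⟩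
        refine ht.eq_zero (K := K) (a := 2 + 0)
          (lie_eigen_add hx (by rw [hw, zero_smul])) ?_ ?_ ?_ <;> norm_num)
      e
    have ha : ⁅t, a⁆ = 0 := haN.1
    -- pair with `f`
    have e1 : B e f = 0 := by
      rw [habd, map_add, map_add, LinearMap.add_apply, LinearMap.add_apply]
      rw [orth_of_eigen hinv (t := t) (v := a) (a := 0) (by rw [ha, zero_smul]) hf' (by norm_num),
        orth_of_eigen hinv (t := t) (v := b) hb hf' (by norm_num),
        orth_of_eigen hinv (t := t) (v := d) hd hf' (by norm_num)]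
      simp
    rw [hef] at e1
    exact one_ne_zero e1
  -- the orthogonal of `W ⊔ K e ⊔ K f` is zero
  let U : Submodule K V := W ⊔ Submodule.span K {e, f}
  have hWU : W ≤ U := le_sup_left
  have heU : e ∈ U := (le_sup_right : _ ≤ U) (Submodule.subset_span (by simp))
  have hfU : f ∈ U := (le_sup_right : _ ≤ U) (Submodule.subset_span (by simp))
  have hBref : B.IsRefl := fun x y h ↦ by rw [hsymm, h]
  have hBnd : B.Nondegenerate := by
    refine ⟨fun v hv ↦ hB v hv, fun v hv ↦ hB v fun w ↦ by rw [hsymm]; exact hv w⟩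
  have hUtop : U = ⊤ := by
    have h3 : B.orthogonal U = ⊥ := by
      rw [eq_bot_iff]
      intro v hv
      rw [LinearMap.BilinForm.mem_orthogonal_iff] at hv
      obtain ⟨a, b, c, rfl, ha, hb, hc⟩ := IsTripotentOn.decomp (K := K) ht v
      obtain ⟨α, rfl⟩ := h1 a ha
      obtain ⟨γ, rfl⟩ := h2 c hc
      have hγ : γ = 0 := by
        have := hv e heU
        rw [map_add, map_add, map_smul, map_smul, hee,
          hew b hb, hef] at this
        simpa using this
      have hα : α = 0 := by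
        have := hv f hfU
        rw [map_add, map_add, map_smul, map_smul, hff,
          hfw b hb, hsymm f e, hef] at this
        simpa using this
      have hbN : b ∈ N := by
        refine ⟨hb, fun x hx ↦ ?_⟩
        have h5 := hv ⁅x, f⁆ (hWU ⟨x, hx, rfl⟩)
        rw [hα, hγ, zero_smul, zero_smul, add_zero, zero_add] at h5
        rw [← toEnd_apply_apply K L V, hdeg x hx, dOp_apply, hsymm b e, hew b hb, hsymm b, h5]
        simp
      rw [hN] at hbN
      rw [hα, hγ, (Submodule.mem_bot K).mp hbN]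
      simp
    have h4 := LinearMap.BilinForm.orthogonal_orthogonal hBnd hBref U
    rw [h3] at h4
    rw [← h4]
    rw [eq_top_iff]
    intro v _
    rw [LinearMap.BilinForm.mem_orthogonal_iff]
    intro w hw
    rw [(Submodule.mem_bot K).mp hw]
    simp
  -- conclusion
  have hwU : w ∈ U := hUtop ▸ Submodule.mem_top
  obtain ⟨w', hw', u, hu, rfl⟩ := Submodule.mem_sup.mp hwU
  obtain ⟨α, γ, rfl⟩ := Submodule.mem_span_pair.mp hu
  have h3 : α • e - γ • f = 0 := by
    have := hw
    rw [lie_add, lie_add, lie_smul, lie_smul, he, hf, hW0 w' hw'] at this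
    rw [← this]; module
  have hγ : γ = 0 := by
    have := congrArg (fun v ↦ B e v) h3
    simp only [map_sub, map_smul, hee, hef, map_zero] at this
    simpa using this
  have hα : α = 0 := by
    have := congrArg (fun v ↦ B f v) h3
    simp only [map_sub, map_smul, hff, hsymm f e, hef, map_zero] at this
    simpa using this
  obtain ⟨x, hx, rfl⟩ := hw'
  refine ⟨x, ?_⟩
  rw [hdeg x hx, hα, hγ]
  simp

/-- Rank two lemma: an irreducible Lie algebra preserving a symmetric nondegenerate form and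
containing a tripotent element of rank two contains all skew-adjoint operators. -/
lemma exists_toEnd_eq_of_rank_two [FiniteDimensional K V] [IsIrreducible K L V]
    (hB : ∀ v, (∀ w, B v w = 0) → v = 0)
    (hsymm : ∀ v w, B v w = B w v)
    (hinv : ∀ (x : L) (v w : V), B ⁅x, v⁆ w = - B v ⁅x, w⁆)
    {t : L} (ht : IsTripotentOn V t)
    (hL : ∀ x : L, x ∈ Submodule.span K {y : L | ∃ a : K, ⁅t, y⁆ = a • y})
    {e : V} (he : ⁅t, e⁆ = e) (he0 : e ≠ 0) (h1 : ∀ v : V, ⁅t, v⁆ = v → ∃ c : K, v = c • e)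
    {y : Module.End K V} (hy : ∀ v w, B (y v) w = - B v (y w)) :
    ∃ x : L, toEnd K L V x = y := by
  have he' : ⁅t, e⁆ = (1 : K) • e := by rw [he, one_smul]
  have hee : B e e = 0 := orth_of_eigen hinv he' he' (by norm_num)
  have hew : ∀ w, ⁅t, w⁆ = 0 → B e w = 0 := fun w hw ↦
    orth_of_eigen hinv (b := 0) he' (by rw [hw, zero_smul]) (by norm_num)
  -- find `f`
  obtain ⟨f, hf, hef⟩ : ∃ f : V, ⁅t, f⁆ = -f ∧ B e f = 1 := by
    obtain ⟨v, hv⟩ : ∃ v, B e v ≠ 0 := by
      by_contra! h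
      exact he0 (hB e h)
    obtain ⟨a, b, c, rfl, ha, hb, hc⟩ := IsTripotentOn.decomp (K := K) ht v
    obtain ⟨α, rfl⟩ := h1 a ha
    rw [map_add, map_add, map_smul, hee, hew b hb, smul_zero, zero_add, zero_add] at hv
    refine ⟨(B e c)⁻¹ • c, ?_, ?_⟩
    · rw [lie_smul, hc, smul_neg]
    · rw [map_smul, smul_eq_mul, inv_mul_cancel₀ hv]
  have hf' : ⁅t, f⁆ = (-1 : K) • f := by rw [hf, neg_one_smul]
  have hff : B f f = 0 := orth_of_eigen hinv hf' hf' (by norm_num)
  have hfw : ∀ w, ⁅t, w⁆ = 0 → B f w = 0 := fun w hw ↦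
    orth_of_eigen hinv (b := 0) hf' (by rw [hw, zero_smul]) (by norm_num)
  have h2 : ∀ v : V, ⁅t, v⁆ = -v → ∃ c : K, v = c • f := by
    intro v hv
    refine ⟨B e v, ?_⟩
    rw [← sub_eq_zero]
    apply hB
    intro w
    have hz : ⁅t, v - B e v • f⁆ = (-1 : K) • (v - B e v • f) := by
      rw [lie_sub, lie_smul, hv, hf]; module
    obtain ⟨a, b, c, rfl, ha, hb, hc⟩ := IsTripotentOn.decomp (K := K) ht w
    obtain ⟨α, rfl⟩ := h1 a ha
    rw [map_add, map_add, map_smul]
    rw [orth_of_eigen hinv (t := t) (w := b) (b := 0) hz (by rw [hb, zero_smul]) (by norm_num),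
      orth_of_eigen hinv (t := t) (w := c) (b := -1) hz (by rw [hc, neg_one_smul]) (by norm_num),
      hsymm _ e, map_sub, map_smul, hef]
    simp
  have hefw : ∀ w, ⁅t, w⁆ = 0 → ∃ x : L, toEnd K L V x = dOp B e w := fun w hw ↦
    dOp_mem_of_rank_two hB hsymm hinv ht hL he h1 hf h2 hef hw
  have hfew : ∀ w, ⁅t, w⁆ = 0 → ∃ x : L, toEnd K L V x = dOp B f w := fun w hw ↦ by
    refine dOp_mem_of_rank_two (t := -t) hB hsymm hinv ?_ ?_ (e := f) (f := e) ?_ ?_ ?_ ?_ ?_ ?_
    · intro v
      simp only [neg_lie, lie_neg, neg_neg, ht v]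
    · intro x
      refine Submodule.span_mono ?_ (hL x)
      rintro y ⟨a, hy⟩
      exact ⟨-a, by rw [neg_lie, hy, neg_smul]⟩
    · rw [neg_lie, hf, neg_neg]
    · intro v hv
      exact h2 v (by rw [neg_lie] at hv; rw [← hv, neg_neg, hv])
    · rw [neg_lie, he]
    · intro v hv
      exact h1 v (by rw [neg_lie, neg_inj] at hv; exact hv)
    · rw [hsymm, hef]
    · rw [neg_lie, hw, neg_zero]
  have hef2 : ∃ x : L, toEnd K L V x = dOp B e f := by
    refine ⟨-t, ?_⟩
    ext v
    obtain ⟨a, b, c, rfl, ha, hb, hc⟩ := IsTripotentOn.decomp (K := K) ht v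
    obtain ⟨α, rfl⟩ := h1 a ha
    obtain ⟨γ, rfl⟩ := h2 c hc
    rw [toEnd_apply_apply, dOp_apply, neg_lie, lie_add, lie_add, lie_smul, lie_smul, he, hf, hb]
    have e1 : B (α • e + b + γ • f) e = γ := by
      simp only [map_add, map_smul, LinearMap.add_apply, LinearMap.smul_apply, hee, smul_eq_mul,
        hsymm b e, hew b hb, hsymm f e, hef]
      ring
    have e2 : B (α • e + b + γ • f) f = α := by
      simp only [map_add, map_smul, LinearMap.add_apply, LinearMap.smul_apply, smul_eq_mul,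
        hef, hff, hsymm b f, hfw b hb]
      ring
    rw [e1, e2]
    module
  -- the range
  let R : Submodule K (Module.End K V) := LinearMap.range (toEnd K L V : L →ₗ[K] Module.End K V)
  have hR : ∀ z, z ∈ R ↔ ∃ x : L, toEnd K L V x = z := fun z ↦ Iff.rfl
  have hww : ∀ w w', ⁅t, w⁆ = 0 → ⁅t, w'⁆ = 0 → dOp B w w' ∈ R := by
    intro w w' hw hw'
    obtain ⟨x, hx⟩ := hefw w hw
    obtain ⟨x', hx'⟩ := hfew w' hw'
    obtain ⟨z, hz⟩ := hef2
    have h3 : toEnd K L V ⁅x, x'⁆ = dOp B w w' + B w w' • dOp B e f := by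
      rw [LieHom.map_lie, hx, hx', Ring.lie_def]
      ext v
      simp only [LinearMap.sub_apply, Module.End.mul_apply, LinearMap.add_apply,
        LinearMap.smul_apply, dOp_apply, map_sub, map_smul, LinearMap.sub_apply,
        LinearMap.smul_apply, smul_eq_mul, hef, hsymm f e, hsymm w e, hew w hw,
        hew w' hw', hfw w hw, hsymm w' w, hsymm w f, hsymm w' e]
      simp only [smul_sub, smul_smul]
      module
    have h4 : dOp B w w' = toEnd K L V (⁅x, x'⁆ - B w w' • z) := by
      rw [map_sub, map_smul, hz, h3, add_sub_cancel_right]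
    rw [h4]
    exact ⟨_, rfl⟩
  have hall : ∀ a b, dOp B a b ∈ R := by
    intro a b
    obtain ⟨a1, a0, a2, rfl, ha1, ha0, ha2⟩ := IsTripotentOn.decomp (K := K) ht a
    obtain ⟨b1, b0, b2, rfl, hb1, hb0, hb2⟩ := IsTripotentOn.decomp (K := K) ht b
    obtain ⟨α, rfl⟩ := h1 a1 ha1
    obtain ⟨γ, rfl⟩ := h2 a2 ha2
    obtain ⟨α', rfl⟩ := h1 b1 hb1
    obtain ⟨γ', rfl⟩ := h2 b2 hb2
    have m1 : dOp B e b0 ∈ R := hefw b0 hb0
    have m2 : dOp B f b0 ∈ R := hfew b0 hb0
    have m3 : dOp B e a0 ∈ R := hefw a0 ha0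
    have m4 : dOp B f a0 ∈ R := hfew a0 ha0
    have m5 : dOp B e f ∈ R := hef2
    have m6 : dOp B a0 b0 ∈ R := hww a0 b0 ha0 hb0
    have m3' : dOp B a0 e ∈ R := by rw [dOp_swap]; exact R.neg_mem m3
    have m4' : dOp B a0 f ∈ R := by rw [dOp_swap]; exact R.neg_mem m4
    have m5' : dOp B f e ∈ R := by rw [dOp_swap]; exact R.neg_mem m5
    have m7 : dOp B e e ∈ R := by rw [dOp_self]; exact R.zero_mem
    have m8 : dOp B f f ∈ R := by rw [dOp_self]; exact R.zero_mem
    simp only [dOp_add_left, dOp_add_right, dOp_smul_left, dOp_smul_right]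
    repeat' first | apply Submodule.add_mem | apply Submodule.smul_mem | assumption
  -- the final expansion
  have hBnd : B.Nondegenerate := by
    refine ⟨fun v hv ↦ hB v hv, fun v hv ↦ hB v fun w ↦ by rw [hsymm]; exact hv w⟩
  let b := Module.finBasis K V
  let b' := LinearMap.BilinForm.dualBasis B hBnd b
  have hexp : y = (2⁻¹ : K) • ∑ i, dOp B (b' i) (y (b i)) := by
    have hBs : B.IsSymm := ⟨hsymm⟩
    have h3 : ∀ v, ∑ i, B v (b' i) • b i = v := by
      intro v
      have h4 := (LinearMap.BilinForm.dualBasis B hBnd b').sum_repr v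
      simp only [LinearMap.BilinForm.dualBasis_repr_apply] at h4
      rw [LinearMap.BilinForm.dualBasis_dualBasis hBnd hBs b] at h4
      exact h4
    have h4 : ∀ v, ∑ i, B v (b i) • b' i = v := by
      intro v
      have h5 := b'.sum_repr v
      simp only [b', LinearMap.BilinForm.dualBasis_repr_apply] at h5
      exact h5
    ext v
    rw [LinearMap.smul_apply, LinearMap.sum_apply]
    simp only [dOp_apply]
    rw [Finset.sum_sub_distrib]
    have h5 : ∑ i, B v (b' i) • y (b i) = y v := by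
      conv_rhs => rw [← h3 v]
      rw [map_sum]
      simp only [map_smul]
    have h6 : ∑ i, B v (y (b i)) • b' i = - y v := by
      conv_rhs => rw [← h4 (y v)]
      rw [← Finset.sum_neg_distrib]
      refine Finset.sum_congr rfl fun i _ ↦ ?_
      rw [hy, neg_smul, neg_neg]
    rw [h5, h6, sub_neg_eq_add, ← two_smul K, smul_smul, inv_mul_cancel₀ two_ne_zero, one_smul]
  rw [hexp]
  exact R.smul_mem _ (R.sum_mem fun i _ ↦ hall _ _)

end RankTwo

end Pool.Agent.Helper88
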