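import Mathlib

set_option linter.unusedSectionVars false

namespace Pool.Agent.Helper88

open Module

section Isotypic

variable {K : Type*} [Field K] {V : Type*} [AddCommGroup V] [Module K V] [FiniteDimensional K V]

/-- Two commuting families of operators acting irreducibly: the space is isotypic for each. -/
lemma exists_isotypic [Nontrivial V] (A : Subalgebra K (Module.End K V))
    (C : Set (Module.End K V))
    (hcomm : ∀ a ∈ A, ∀ c ∈ C, ∀ v, a (c v) = c (a v))
    (hirr : ∀ W : Submodule K V, (∀ a ∈ A, ∀ w ∈ W, a w ∈ W) → (∀ c ∈ C, ∀ w ∈ W, c w ∈ W) →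
      W = ⊥ ∨ W = ⊤) :
    ∃ U : Submodule A V, IsSimpleModule A U ∧
      ∀ N : Submodule A V, ∃ k : ℕ, Nonempty (N ≃ₗ[A] (Fin k → U)) := by
  have hfin : IsArtinian K V := inferInstance
  have hart : IsArtinian A V := isArtinian_of_tower K hfin
  obtain ⟨U, hU⟩ := IsAtomic.exists_atom (Submodule A V)
  rw [← isSimpleModule_iff_isAtom] at hU
  have htop : isotypicComponent A V U = ⊤ := by
    let W : Submodule K V := (isotypicComponent A V U).restrictScalars K
    have hWtop : W = ⊤ := by
      refine (hirr W ?_ ?_).resolve_left ?_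
      · intro a ha w hw
        exact (isotypicComponent A V U).smul_mem (⟨a, ha⟩ : A) hw
      · intro c hc w hw
        let f : V →ₗ[A] V :=
          { toFun := c
            map_add' := map_add c
            map_smul' := by
              rintro ⟨a, ha⟩ v
              exact (hcomm a ha c hc v).symm }
        exact LinearMap.le_comap_isotypicComponent U f hw
      · intro h
        have h1 := bot_lt_isotypicComponent U
        apply h1.ne'
        rw [eq_bot_iff]
        intro w hw
        have : w ∈ W := hw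
        rw [h] at this
        exact this
    rw [eq_top_iff]
    intro w _
    have : w ∈ W := hWtop ▸ Submodule.mem_top
    exact this
  have hiso : IsIsotypicOfType A V U := .of_isotypicComponent_eq_top htop
  have hss : IsSemisimpleModule A V := by
    have h1 : IsSemisimpleModule A (isotypicComponent A V U) := inferInstance
    exact IsSemisimpleModule.congr (R := A) (N := V) (M := isotypicComponent A V U)
      (LinearEquiv.ofTop _ htop).symm
  refine ⟨U, hU, fun N ↦ ?_⟩
  have hN : IsIsotypicOfType A N U := hiso.of_injective N.subtype N.subtype_injective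
  have hfinN : Module.Finite A N := by
    have : IsNoetherian K V := inferInstance
    have : IsNoetherian A V := isNoetherian_of_tower K this
    infer_instance
  exact hN.linearEquiv_fun

variable {A : Subalgebra K (Module.End K V)} {U : Submodule A V}

lemma finrank_of_equiv {N : Submodule A V} {k : ℕ} (e : N ≃ₗ[A] (Fin k → U)) :
    finrank K N = k * finrank K U := by
  have h1 : finrank K N = finrank K (Fin k → U) := (e.restrictScalars K).finrank_eq
  have hU : Module.Finite K U := inferInstanceAs (Module.Finite K (U.restrictScalars K))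
  have hU' : Module.Free K U := Module.Free.of_divisionRing K U
  rw [h1, Module.finrank_pi_fintype]
  simp

/-- If an element of `A` kills a nonzero submodule, it kills everything. -/
lemma eq_zero_of_kill [IsSimpleModule A U]
    (hall : ∀ N : Submodule A V, ∃ k : ℕ, Nonempty (N ≃ₗ[A] (Fin k → U)))
    {N : Submodule A V} (hN : N ≠ ⊥) {z : Module.End K V} (hz : z ∈ A)
    (hzN : ∀ v ∈ N, z v = 0) (v : V) : z v = 0 := by
  obtain ⟨k, ⟨e⟩⟩ := hall N
  obtain ⟨m, ⟨e'⟩⟩ := hall ⊤
  have hk : k ≠ 0 := by
    rintro rfl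
    apply hN
    rw [eq_bot_iff]
    intro v hv
    have : (⟨v, hv⟩ : N) = 0 := e.injective (Subsingleton.elim _ _)
    exact congrArg Subtype.val this
  have hzU : ∀ u : U, (⟨z, hz⟩ : A) • u = 0 := by
    intro u
    have h1 := e.map_smul (⟨z, hz⟩ : A) (e.symm (fun _ ↦ u))
    have h2 : (⟨z, hz⟩ : A) • e.symm (fun _ ↦ u) = 0 := by
      apply Subtype.ext
      exact hzN _ (e.symm (fun _ ↦ u)).2
    rw [h2, map_zero, LinearEquiv.apply_symm_apply] at h1
    exact (congrFun h1 ⟨0, Nat.pos_of_ne_zero hk⟩).symm
  have h3 : (⟨z, hz⟩ : A) • (⟨v, Submodule.mem_top⟩ : (⊤ : Submodule A V)) = 0 := by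
    apply e'.injective
    rw [map_smul, map_zero]
    ext i
    rw [Pi.smul_apply, hzU]
    rfl
  exact congrArg Subtype.val h3

/-- If an element of `A` is injective on a nonzero submodule, it is injective. -/
lemma injective_of_injective_on [IsSimpleModule A U]
    (hall : ∀ N : Submodule A V, ∃ k : ℕ, Nonempty (N ≃ₗ[A] (Fin k → U)))
    {N : Submodule A V} (hN : N ≠ ⊥) {z : Module.End K V} (hz : z ∈ A)
    (hzN : ∀ v ∈ N, z v = 0 → v = 0) (v : V) (hv : z v = 0) : v = 0 := by
  obtain ⟨k, ⟨e⟩⟩ := hall N
  obtain ⟨m, ⟨e'⟩⟩ := hall ⊤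
  have hk : k ≠ 0 := by
    rintro rfl
    apply hN
    rw [eq_bot_iff]
    intro v hv
    have : (⟨v, hv⟩ : N) = 0 := e.injective (Subsingleton.elim _ _)
    exact congrArg Subtype.val this
  have hzU : ∀ u : U, (⟨z, hz⟩ : A) • u = 0 → u = 0 := by
    intro u hu
    have h1 := e.map_smul (⟨z, hz⟩ : A) (e.symm (fun _ ↦ u))
    rw [LinearEquiv.apply_symm_apply] at h1
    have h2 : (⟨z, hz⟩ : A) • (fun _ : Fin k ↦ u) = 0 := by
      ext i
      rw [Pi.smul_apply, hu]; rfl
    rw [h2] at h1
    have h3 : (⟨z, hz⟩ : A) • e.symm (fun _ ↦ u) = 0 := e.injective (by rw [h1, map_zero])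
    have h4 : e.symm (fun _ ↦ u) = 0 := by
      apply Subtype.ext
      exact hzN _ (e.symm (fun _ ↦ u)).2 (congrArg Subtype.val h3)
    have h5 : (fun _ : Fin k ↦ u) = 0 := e.symm.injective (by rw [h4, map_zero])
    exact congrFun h5 ⟨0, Nat.pos_of_ne_zero hk⟩
  have h3 : (⟨v, Submodule.mem_top⟩ : (⊤ : Submodule A V)) = 0 := by
    apply e'.injective
    rw [map_zero]
    ext i
    have h4 : (⟨z, hz⟩ : A) • (⟨v, Submodule.mem_top⟩ : (⊤ : Submodule A V)) = 0 := by
      apply Subtype.ext
      exact hv
    have h5 := e'.map_smul (⟨z, hz⟩ : A) (⟨v, Submodule.mem_top⟩ : (⊤ : Submodule A V))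
    rw [h4, map_zero] at h5
    have h6 := congrFun h5 i
    rw [Pi.smul_apply] at h6
    rw [hzU _ h6.symm]
    rfl
  exact congrArg Subtype.val h3

end Isotypic

end Pool.Agent.Helper88
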