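import Mathlib
import Pool.Agent.Helper88.LieWeights2

set_option linter.unusedSectionVars false

namespace Pool.Agent.Helper88

open LieModule LieAlgebra LieAlgebra.IsKilling Module

section Parity

/-- Skew-adjoint operators in odd dimension are singular. -/
lemma exists_ker_of_odd {K V : Type*} [Field K] [CharZero K] [AddCommGroup V] [Module K V]
    [FiniteDimensional K V] {B : LinearMap.BilinForm K V}
    (hB : ∀ v, (∀ w, B v w = 0) → v = 0) (hodd : Odd (finrank K V))
    {y : Module.End K V} (hy : ∀ v w, B (y v) w = - B v (y w)) : ∃ v ≠ 0, y v = 0 := by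
  have hinj : Function.Injective B := by
    rw [← LinearMap.ker_eq_bot, eq_bot_iff]
    intro v hv
    exact hB v fun w ↦ by rw [LinearMap.mem_ker.mp hv]; rfl
  let e : V ≃ₗ[K] Dual K V := LinearEquiv.ofInjectiveOfFinrankEq B hinj
    (Subspace.dual_finrank_eq).symm
  have he : ∀ v, e v = B v := fun v ↦ rfl
  have h1 : (LinearMap.dualMap y) = (e : V →ₗ[K] Dual K V) ∘ₗ (-y) ∘ₗ (e.symm : Dual K V →ₗ[K] V) := by
    ext φ w
    obtain ⟨v, rfl⟩ := e.surjective φ
    rw [LinearMap.dualMap_apply, LinearMap.comp_apply, LinearMap.comp_apply,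
      LinearEquiv.coe_coe, LinearEquiv.coe_coe, LinearEquiv.symm_apply_apply, he, he,
      LinearMap.neg_apply, map_neg, LinearMap.neg_apply, hy, neg_neg]
  have h2 : y.det = (-1) ^ (finrank K V) * y.det := by
    conv_lhs => rw [← LinearMap.det_dualMap, h1, LinearMap.det_conj]
    rw [show -y = (-1 : K) • y by rw [neg_one_smul], LinearMap.det_smul]
  rw [hodd.neg_one_pow, neg_one_mul] at h2
  have h3 : y.det = 0 := self_eq_neg.mp h2
  have h4 := LinearMap.bot_lt_ker_of_det_eq_zero h3
  obtain ⟨v, hv, hv0⟩ := (Submodule.ne_bot_iff _).mp h4.ne'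
  exact ⟨v, hv0, hv⟩

variable {K : Type*} [Field K] [IsAlgClosed K] [CharZero K]
variable {L : Type*} [LieRing L] [LieAlgebra K L] [FiniteDimensional K L] [IsKilling K L]
variable (H : LieSubalgebra K L) [H.IsCartanSubalgebra]
variable {V : Type*} [AddCommGroup V] [Module K V] [LieRingModule L V] [LieModule K L V]
variable [FiniteDimensional K V] [IsIrreducible K L V] [IsFaithful K L V]

variable (V) in
/-- If all elements of `L` act by singular operators then zero is a weight. -/
lemma zero_mem_wSet (hker : ∀ x : L, ∃ v : V, v ≠ 0 ∧ ⁅x, v⁆ = 0) :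
    (0 : Dual K H) ∈ wSet H V := by
  by_contra hcon
  have hfin : {χ : Dual K H | wSpace H V χ ≠ ⊥}.Finite :=
    WellFoundedGT.finite_ne_bot_of_iSupIndep (iSupIndep_wSpace H V)
  have : Finite {χ : Dual K H | wSpace H V χ ≠ ⊥} := hfin
  obtain ⟨x, hx⟩ := Module.Dual.exists_forall_ne_zero_of_forall_exists
    (K := K) (fun χ : {χ : Dual K H | wSpace H V χ ≠ ⊥} ↦ (χ : Dual K H)) (by
      rintro ⟨χ, hχ⟩
      by_contra! h
      apply hcon
      have : χ = 0 := by ext y; exact h y
      rw [this] at hχ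
      exact hχ)
  obtain ⟨v, hv0, hv⟩ := hker (x : L)
  have h1 : ⁅(x : L), v⁆ = (0 : K) • v := by
    rw [zero_smul]; exact hv
  have h2 := mem_iSup_wSpace_of_eigen H x.2 h1
  have h3 : (⨆ χ : Dual K H, ⨆ (_ : χ ⟨(x : L), x.2⟩ = 0), wSpace H V χ) = ⊥ := by
    rw [eq_bot_iff]
    refine iSup₂_le fun χ hχ ↦ ?_
    by_contra h
    exact hx ⟨χ, fun h' ↦ h h'.le⟩ hχ
  rw [h3] at h2
  exact hv0 ((Submodule.mem_bot K).mp h2)

end Parity

end Pool.Agent.Helper88
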