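import Mathlib
import Pool.Agent.Helper88.Isotypic
import Pool.Agent.Helper88.Parity

set_option linter.unusedSectionVars false

namespace Pool.Agent.Helper88

open LieModule LieAlgebra Module Polynomial

section Ideals

attribute [local instance 100] LieRing.ofAssociativeRing

variable {K : Type*} [Field K] [IsAlgClosed K] [CharZero K]
variable {L : Type*} [LieRing L] [LieAlgebra K L] [FiniteDimensional K L]
variable {V : Type*} [AddCommGroup V] [Module K V] [LieRingModule L V] [LieModule K L V]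
variable [FiniteDimensional K V] [IsIrreducible K L V] [IsFaithful K L V]

/-- The associative algebra of operators generated by a set of elements of `L`. -/
def idAlg (V : Type*) [AddCommGroup V] [Module K V] [LieRingModule L V] [LieModule K L V]
    (J : LieIdeal K L) : Subalgebra K (Module.End K V) :=
  Algebra.adjoin K {z | ∃ y ∈ J, toEnd K L V y = z}

lemma toEnd_mem_idAlg {J : LieIdeal K L} {y : L} (hy : y ∈ J) :
    toEnd K L V y ∈ idAlg V J := Algebra.subset_adjoin ⟨y, hy, rfl⟩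

lemma idAlg_comm {I J : LieIdeal K L} (hIJ : ∀ x ∈ I, ∀ y ∈ J, ⁅x, y⁆ = 0)
    {z : Module.End K V} (hz : z ∈ idAlg V J) {x : L} (hx : x ∈ I) (v : V) :
    z ⁅x, v⁆ = ⁅x, z v⁆ := by
  have h : Commute z (toEnd K L V x) := by
    have h1 : ∀ w ∈ {z | ∃ y ∈ J, toEnd K L V y = z}, w * toEnd K L V x = toEnd K L V x * w := by
      rintro _ ⟨y, hy, rfl⟩
      have h2 : ⁅toEnd K L V x, toEnd K L V y⁆ = 0 := by
        rw [← LieHom.map_lie, hIJ x hx y hy, map_zero]
      rw [Ring.lie_def, sub_eq_zero] at h2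
      exact h2.symm
    exact Algebra.adjoin_induction (fun w hw ↦ h1 w hw)
      (fun r ↦ Algebra.commutes r _)
      (fun a b _ _ ha hb ↦ Commute.add_left ha hb)
      (fun a b _ _ ha hb ↦ Commute.mul_left ha hb) hz
  exact LinearMap.congr_fun h v

lemma isotypic_of_ideals {I J : LieIdeal K L} (hIJ : ∀ x ∈ I, ∀ y ∈ J, ⁅x, y⁆ = 0)
    (hsup : I ⊔ J = ⊤) :
    ∃ U : Submodule (idAlg V J) V, IsSimpleModule (idAlg V J) U ∧
      ∀ N : Submodule (idAlg V J) V, ∃ k : ℕ, Nonempty (N ≃ₗ[idAlg V J] (Fin k → U)) := by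
  have : Nontrivial V := nontrivial_of_isIrreducible K L V
  refine exists_isotypic (idAlg V J) {z | ∃ x ∈ I, toEnd K L V x = z} ?_ ?_
  · rintro a ha _ ⟨x, hx, rfl⟩ v
    exact idAlg_comm hIJ ha hx v
  · intro W hA hC
    let WL : LieSubmodule K L V :=
      { W with
        lie_mem := by
          intro x w hw
          have hx : x ∈ I ⊔ J := hsup ▸ LieSubmodule.mem_top x
          obtain ⟨a, ha, b, hb, rfl⟩ := (LieSubmodule.mem_sup I J x).mp hx
          rw [add_lie]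
          exact W.add_mem (hC _ ⟨a, ha, rfl⟩ w hw) (hA _ (toEnd_mem_idAlg hb) w hw) }
    rcases IsSimpleOrder.eq_bot_or_eq_top WL with h | h
    · left
      rw [eq_bot_iff]
      intro w hw
      have : w ∈ WL := hw
      rw [h] at this
      exact this
    · right
      rw [eq_top_iff]
      intro w _
      have : w ∈ WL := h ▸ LieSubmodule.mem_top w
      exact this

/-- The submodule of eigenvectors. -/
def eigSub {I J : LieIdeal K L} (hIJ : ∀ x ∈ I, ∀ y ∈ J, ⁅x, y⁆ = 0) {x : L} (hx : x ∈ I)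
    (α : K) : Submodule (idAlg V J) V where
  carrier := {v | ⁅x, v⁆ = α • v}
  add_mem' := by
    intro a b ha hb
    change ⁅x, a + b⁆ = α • (a + b)
    rw [lie_add, ha, hb, smul_add]
  zero_mem' := by simp
  smul_mem' := by
    rintro ⟨z, hz⟩ v hv
    change ⁅x, z v⁆ = α • z v
    rw [← idAlg_comm hIJ hz hx, hv, map_smul]

lemma mem_eigSub {I J : LieIdeal K L} (hIJ : ∀ x ∈ I, ∀ y ∈ J, ⁅x, y⁆ = 0) {x : L} (hx : x ∈ I)
    (α : K) (v : V) : v ∈ (eigSub hIJ hx α : Submodule (idAlg V J) V) ↔ ⁅x, v⁆ = α • v := Iff.rfl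

/-- If `t` lies in an ideal with non-trivial complement then the multiplicities have a common
divisor. -/
lemma eq_bot_of_coprime {B : LinearMap.BilinForm K V}
    (hB : ∀ v, (∀ w, B v w = 0) → v = 0)
    (hinv : ∀ (x : L) (v w : V), B ⁅x, v⁆ w = - B v ⁅x, w⁆)
    {I J : LieIdeal K L} (hIJ : ∀ x ∈ I, ∀ y ∈ J, ⁅x, y⁆ = 0)
    (hsup : I ⊔ J = ⊤) {t : L} (ht : t ∈ I)
    (hgcd : Nat.gcd (finrank K V) (finrank K ((toEnd K L V t).eigenspace 1)) = 1) : J = ⊥ := by
  have hVnt : Nontrivial V := nontrivial_of_isIrreducible K L V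
  obtain ⟨U, hU, hall⟩ := isotypic_of_ideals (V := V) hIJ hsup
  obtain ⟨k, ⟨e⟩⟩ := hall (eigSub hIJ ht 1)
  obtain ⟨m, ⟨e'⟩⟩ := hall ⊤
  have h1 : finrank K (eigSub hIJ ht 1 : Submodule (idAlg V J) V) =
      finrank K ((toEnd K L V t).eigenspace 1) := by
    have : ((eigSub hIJ ht 1 : Submodule (idAlg V J) V).restrictScalars K) =
        (toEnd K L V t).eigenspace 1 := by
      ext v
      rw [Module.End.mem_eigenspace_iff]
      exact Iff.rfl
    rw [← this]; rfl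
  have h2 : finrank K (⊤ : Submodule (idAlg V J) V) = finrank K V := by
    have : ((⊤ : Submodule (idAlg V J) V).restrictScalars K) = ⊤ := rfl
    rw [← finrank_top K V, ← this]; rfl
  have h3 := finrank_of_equiv e
  have h4 := finrank_of_equiv e'
  rw [h1] at h3
  rw [h2] at h4
  have h5 : finrank K U ∣ 1 := by
    rw [← hgcd]
    exact Nat.dvd_gcd (Dvd.intro_left m h4.symm) (Dvd.intro_left k h3.symm)
  have h6 : finrank K U = 1 := Nat.dvd_one.mp h5
  -- elements of `J` act as scalars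
  rw [eq_bot_iff]
  intro y hy
  have hUne : U ≠ ⊥ := by
    have := IsSimpleModule.nontrivial (idAlg V J) U
    exact (Submodule.nontrivial_iff_ne_bot).mp this
  obtain ⟨u, hu, hu0⟩ := (Submodule.ne_bot_iff _).mp hUne
  have h7 : ∀ w : U, ∃ c : K, c • (⟨u, hu⟩ : U) = w :=
    (finrank_eq_one_iff_of_nonzero' (⟨u, hu⟩ : U) (fun h ↦ hu0 (congrArg Subtype.val h))).mp h6
  have hyu : ⁅y, u⁆ ∈ U := U.smul_mem (⟨toEnd K L V y, toEnd_mem_idAlg hy⟩ : idAlg V J) hu
  obtain ⟨c, hc⟩ := h7 ⟨⁅y, u⁆, hyu⟩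
  have hc' : c • u = ⁅y, u⁆ := congrArg Subtype.val hc
  have h8 : ∀ v : V, (toEnd K L V y - algebraMap K (Module.End K V) c) v = 0 := by
    refine eq_zero_of_kill hall hUne
      (Subalgebra.sub_mem _ (toEnd_mem_idAlg hy) (Subalgebra.algebraMap_mem _ c)) ?_
    intro v hv
    obtain ⟨d, hd⟩ := h7 ⟨v, hv⟩
    have hd' : d • u = v := congrArg Subtype.val hd
    rw [LinearMap.sub_apply, Module.algebraMap_end_apply, ← hd', map_smul, toEnd_apply_apply,
      ← hc', smul_comm, sub_self]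
  have h9 : ∀ v : V, ⁅y, v⁆ = c • v := by
    intro v
    have := h8 v
    rw [LinearMap.sub_apply, Module.algebraMap_end_apply, toEnd_apply_apply, sub_eq_zero] at this
    exact this
  have hc0 : c = 0 := by
    obtain ⟨v, hv⟩ := exists_ne (0 : V)
    obtain ⟨w, hw⟩ : ∃ w, B v w ≠ 0 := by
      by_contra! h
      exact hv (hB v h)
    have := hinv y v w
    rw [h9, h9, map_smul, map_smul, LinearMap.smul_apply, smul_eq_mul] at this
    have h10 : (2 * c) * B v w = 0 := by linear_combination this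
    rcases mul_eq_zero.mp h10 with h | h
    · rcases mul_eq_zero.mp h with h | h
      · norm_num at h
      · exact h
    · exact absurd h hw
  have hy0 : y = 0 := by
    have hinj : Function.Injective (toEnd K L V) := IsFaithful.injective_toEnd
    apply hinj
    ext v
    rw [toEnd_apply_apply, h9, hc0, zero_smul, map_zero, LinearMap.zero_apply]
  rw [hy0]
  exact zero_mem _

/-- The polynomial `X (X ^ 2 - 1) (X ^ 2 - 4)` is squarefree. -/
lemma squarefree_five : Squarefree (X ^ 5 - 5 * X ^ 3 + 4 * X : K[X]) := by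
  apply Polynomial.Separable.squarefree
  rw [Polynomial.separable_def]
  refine ⟨C (288⁻¹ : K) * (425 * X - 175 * X ^ 3),
    C (288⁻¹ : K) * (72 - 155 * X ^ 2 + 35 * X ^ 4), ?_⟩
  have hd : derivative (X ^ 5 - 5 * X ^ 3 + 4 * X : K[X]) = 5 * X ^ 4 - 15 * X ^ 2 + 4 := by
    have e5 : (5 : K[X]) = C 5 := rfl
    have e4 : (4 : K[X]) = C 4 := rfl
    have e15 : (15 : K[X]) = C 15 := rfl
    rw [e5, e4, e15, derivative_add, derivative_sub, derivative_X_pow, derivative_C_mul,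
      derivative_X_pow, derivative_C_mul, derivative_X, ← mul_assoc, ← C_mul]
    norm_num
  rw [hd]
  have h : (C (288⁻¹ : K) : K[X]) * 288 = 1 := by
    have e : (288 : K[X]) = C 288 := rfl
    rw [e, ← C_mul, inv_mul_cancel₀ (by norm_num), C_1]
  linear_combination h

/-- A component of a tripotent element acts semisimply. -/
lemma isSemisimple_component {I J : LieIdeal K L} (hIJ : ∀ x ∈ I, ∀ y ∈ J, ⁅x, y⁆ = 0)
    (hsup : I ⊔ J = ⊤) {a b : L} (ha : a ∈ I) (hb : b ∈ J)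
    (hid : ∀ y : L, ⁅a + b, ⁅a + b, ⁅a + b, ⁅a + b, ⁅a + b, y⁆⁆⁆⁆⁆ =
      (5 : K) • ⁅a + b, ⁅a + b, ⁅a + b, y⁆⁆⁆ - (4 : K) • ⁅a + b, y⁆) :
    (toEnd K L V a).IsSemisimple := by
  apply isSemisimple_toEnd
  refine Module.End.isSemisimple_of_squarefree_aeval_eq_zero (squarefree_five (K := K)) ?_
  have hstep : ∀ z ∈ I, ⁅a + b, z⁆ = ⁅a, z⁆ := by
    intro z hz
    rw [add_lie, ← lie_skew b z, hIJ z hz b hb, neg_zero, add_zero]
  have hmem : ∀ z ∈ I, ⁅a, z⁆ ∈ I := fun z hz ↦ lie_mem_right K L I a z hz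
  have key : ∀ y : L, ⁅a, ⁅a, ⁅a, ⁅a, ⁅a, y⁆⁆⁆⁆⁆ =
      (5 : K) • ⁅a, ⁅a, ⁅a, y⁆⁆⁆ - (4 : K) • ⁅a, y⁆ := by
    intro y
    have hy : y ∈ I ⊔ J := hsup ▸ LieSubmodule.mem_top y
    obtain ⟨y1, hy1, y2, hy2, rfl⟩ := (LieSubmodule.mem_sup I J y).mp hy
    have h1 : ⁅a, y1 + y2⁆ = ⁅a, y1⁆ := by rw [lie_add, hIJ a ha y2 hy2, add_zero]
    rw [h1]
    have m1 := hmem y1 hy1
    have m2 := hmem _ m1
    have m3 := hmem _ m2
    have m4 := hmem _ m3
    have h2 := hid y1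
    rw [hstep y1 hy1, hstep _ m1, hstep _ m2, hstep _ m3, hstep _ m4] at h2
    exact h2
  ext y
  simp only [map_add, map_sub, map_mul, map_pow, aeval_X, map_ofNat, LinearMap.add_apply,
    LinearMap.sub_apply, Module.End.mul_apply, pow_succ, pow_zero, Module.End.one_apply, one_mul,
    ad_apply, LinearMap.zero_apply]
  have e5 : ∀ z : L, (5 : Module.End K L) z = (5 : K) • z := by
    intro z
    have : (5 : Module.End K L) = algebraMap K (Module.End K L) 5 := by rw [map_ofNat]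
    rw [this, Module.algebraMap_end_apply]
  have e4 : ∀ z : L, (4 : Module.End K L) z = (4 : K) • z := by
    intro z
    have : (4 : Module.End K L) = algebraMap K (Module.End K L) 4 := by rw [map_ofNat]
    rw [this, Module.algebraMap_end_apply]
  rw [key y, e5, e4]
  abel

/-- A non-zero component of a tripotent element has a non-zero eigenvalue. -/
lemma exists_eigen_component {I J : LieIdeal K L} (hIJ : ∀ x ∈ I, ∀ y ∈ J, ⁅x, y⁆ = 0)
    (hsup : I ⊔ J = ⊤) {a b : L} (ha : a ∈ I) (hb : b ∈ J) (ha0 : a ≠ 0)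
    (hid : ∀ y : L, ⁅a + b, ⁅a + b, ⁅a + b, ⁅a + b, ⁅a + b, y⁆⁆⁆⁆⁆ =
      (5 : K) • ⁅a + b, ⁅a + b, ⁅a + b, y⁆⁆⁆ - (4 : K) • ⁅a + b, y⁆) :
    ∃ α : K, α ≠ 0 ∧ ∃ v : V, v ≠ 0 ∧ ⁅a, v⁆ = α • v := by
  have hss := isSemisimple_component (V := V) hIJ hsup ha hb hid
  by_contra! hcon
  apply ha0
  have hinj : Function.Injective (toEnd K L V) := IsFaithful.injective_toEnd
  apply hinj
  rw [map_zero, hss.eq_zero_iff_forall_eigenvalue]
  intro μ hμ
  by_contra hμ0
  obtain ⟨v, hv⟩ := hμ.exists_hasEigenvector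
  exact hcon μ hμ0 v hv.2 (Module.End.mem_eigenspace_iff.mp hv.1)

/-- Simultaneous eigenvectors. -/
lemma exists_simul {I J : LieIdeal K L} (hIJ : ∀ x ∈ I, ∀ y ∈ J, ⁅x, y⁆ = 0)
    (hsup : I ⊔ J = ⊤) {a b : L} (ha : a ∈ I) (hb : b ∈ J) {α β : K}
    (hα : ∃ v : V, v ≠ 0 ∧ ⁅a, v⁆ = α • v) (hβ : ∃ v : V, v ≠ 0 ∧ ⁅b, v⁆ = β • v) :
    ∃ v : V, v ≠ 0 ∧ ⁅a, v⁆ = α • v ∧ ⁅b, v⁆ = β • v := by
  obtain ⟨U, hU, hall⟩ := isotypic_of_ideals (V := V) hIJ hsup
  obtain ⟨v, hv0, hv⟩ := hα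
  obtain ⟨w, hw0, hw⟩ := hβ
  have hN : (eigSub hIJ ha α : Submodule (idAlg V J) V) ≠ ⊥ :=
    (Submodule.ne_bot_iff _).mpr ⟨v, hv, hv0⟩
  by_contra! hcon
  apply hw0
  refine injective_of_injective_on hall hN
    (z := toEnd K L V b - algebraMap K (Module.End K V) β)
    (Subalgebra.sub_mem _ (toEnd_mem_idAlg hb) (Subalgebra.algebraMap_mem _ β)) ?_ w ?_
  · intro u hu hu'
    rw [LinearMap.sub_apply, Module.algebraMap_end_apply, toEnd_apply_apply, sub_eq_zero] at hu'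
    by_contra hu0
    exact hcon u hu0 hu hu'
  · rw [LinearMap.sub_apply, Module.algebraMap_end_apply, toEnd_apply_apply, hw, sub_self]

/-- Eigenvalues of skew-adjoint operators come in pairs. -/
lemma exists_neg_eigen {B : LinearMap.BilinForm K V}
    (hB : ∀ v, (∀ w, B v w = 0) → v = 0)
    (hinv : ∀ (x : L) (v w : V), B ⁅x, v⁆ w = - B v ⁅x, w⁆) {b : L} {β : K}
    (hβ : ∃ v : V, v ≠ 0 ∧ ⁅b, v⁆ = β • v) : ∃ v : V, v ≠ 0 ∧ ⁅b, v⁆ = (-β) • v := by
  obtain ⟨v, hv0, hv⟩ := hβ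
  by_contra! hcon
  let z : Module.End K V := toEnd K L V b + algebraMap K (Module.End K V) β
  have hz : ∀ w, z w = ⁅b, w⁆ + β • w := by
    intro w
    rw [LinearMap.add_apply, Module.algebraMap_end_apply, toEnd_apply_apply]
  have hinj : Function.Injective z := by
    rw [← LinearMap.ker_eq_bot, eq_bot_iff]
    intro w hw
    by_contra hw0
    apply hcon w hw0
    have : z w = 0 := hw
    rw [hz] at this
    rw [neg_smul]
    exact eq_neg_of_add_eq_zero_left this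
  have hsurj : Function.Surjective z := LinearMap.injective_iff_surjective.mp hinj
  apply hv0
  apply hB
  intro w
  obtain ⟨u, rfl⟩ := hsurj w
  rw [hz, map_add, map_smul]
  have h1 := hinv b v u
  rw [hv, map_smul, LinearMap.smul_apply] at h1
  rw [smul_eq_mul] at h1 ⊢
  linear_combination h1

/-- If all elements of `L` are singular, a tripotent element cannot have two non-zero
components. -/
lemma component_eq_zero {B : LinearMap.BilinForm K V}
    (hB : ∀ v, (∀ w, B v w = 0) → v = 0)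
    (hinv : ∀ (x : L) (v w : V), B ⁅x, v⁆ w = - B v ⁅x, w⁆)
    (hker : ∀ x : L, ∃ v : V, v ≠ 0 ∧ ⁅x, v⁆ = 0)
    {I J : LieIdeal K L} (hIJ : ∀ x ∈ I, ∀ y ∈ J, ⁅x, y⁆ = 0)
    (hsup : I ⊔ J = ⊤) {a b : L} (ha : a ∈ I) (hb : b ∈ J)
    (ht : IsTripotentOn V (a + b))
    (hid : ∀ y : L, ⁅a + b, ⁅a + b, ⁅a + b, ⁅a + b, ⁅a + b, y⁆⁆⁆⁆⁆ =
      (5 : K) • ⁅a + b, ⁅a + b, ⁅a + b, y⁆⁆⁆ - (4 : K) • ⁅a + b, y⁆) :
    a = 0 ∨ b = 0 := by
  by_contra! hcon
  obtain ⟨ha0, hb0⟩ := hcon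
  have hJI : ∀ x ∈ J, ∀ y ∈ I, ⁅x, y⁆ = 0 := by
    intro x hx y hy
    rw [← lie_skew, hIJ y hy x hx, neg_zero]
  have hsup' : J ⊔ I = ⊤ := by rw [sup_comm]; exact hsup
  obtain ⟨α, hα0, hα⟩ := exists_eigen_component (V := V) hIJ hsup ha hb ha0 hid
  obtain ⟨β, hβ0, hβ⟩ := exists_eigen_component (V := V) hJI hsup' hb ha hb0
    (by simpa only [add_comm b a] using hid)
  have hβ' := exists_neg_eigen hB hinv hβ
  have hz : ∀ x : L, ∃ v : V, v ≠ 0 ∧ ⁅x, v⁆ = (0 : K) • v := by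
    intro x
    obtain ⟨v, hv0, hv⟩ := hker x
    exact ⟨v, hv0, by rw [zero_smul]; exact hv⟩
  have hval : ∀ {α β : K}, (∃ v : V, v ≠ 0 ∧ ⁅a, v⁆ = α • v) →
      (∃ v : V, v ≠ 0 ∧ ⁅b, v⁆ = β • v) → α + β = 0 ∨ α + β = 1 ∨ α + β = -1 := by
    intro α β hα hβ
    obtain ⟨v, hv0, h1, h2⟩ := exists_simul hIJ hsup ha hb hα hβ
    by_contra! hcon
    apply hv0
    refine ht.eq_zero (K := K) (a := α + β) ?_ hcon.1 hcon.2.1 hcon.2.2
    rw [add_lie, h1, h2, add_smul]
  have e1 := hval hα (hz b)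
  have e2 := hval (hz a) hβ
  have e3 := hval hα hβ
  have e4 := hval hα hβ'
  rw [add_zero] at e1
  rw [zero_add] at e2
  rcases e1 with e1 | e1 | e1
  · exact hα0 e1
  all_goals
    rcases e2 with e2 | e2 | e2
    · exact hβ0 e2
    all_goals
      rw [e1, e2] at e3 e4
      first
        | (exfalso; norm_num at e3; done)
        | (exfalso; norm_num at e4; done)

end Ideals

end Pool.Agent.Helper88
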