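import Mathlib
import Pool.Agent.Helper88.Bound
import Pool.Agent.Helper88.Ortho
import Pool.Agent.Helper88.RankTwo
import Pool.Agent.Helper88.Cartan
import Pool.Agent.Helper88.Simple

set_option linter.unusedSectionVars false

namespace Pool.Agent.Helper88

open LieModule LieAlgebra LieAlgebra.IsKilling Module

section Trace

/-- Skew-adjoint operators have trace zero. -/
lemma trace_eq_zero_of_skew {K V : Type*} [Field K] [CharZero K] [AddCommGroup V] [Module K V]
    [FiniteDimensional K V] {B : LinearMap.BilinForm K V}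
    (hB : ∀ v, (∀ w, B v w = 0) → v = 0)
    {y : Module.End K V} (hy : ∀ v w, B (y v) w = - B v (y w)) : LinearMap.trace K V y = 0 := by
  have hinj : Function.Injective B := by
    rw [← LinearMap.ker_eq_bot, eq_bot_iff]
    intro v hv
    exact hB v fun w ↦ by rw [LinearMap.mem_ker.mp hv]; rfl
  let e : V ≃ₗ[K] Dual K V := LinearEquiv.ofInjectiveOfFinrankEq B hinj
    (Subspace.dual_finrank_eq).symm
  have he : ∀ v, e v = B v := fun v ↦ rfl
  have h1 : Module.Dual.transpose (R := K) y = e.conj (-y) := by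
    ext φ w
    obtain ⟨v, rfl⟩ := e.surjective φ
    rw [LinearEquiv.conj_apply_apply, LinearEquiv.symm_apply_apply, Module.Dual.transpose_apply,
      LinearMap.comp_apply, he, he,
      LinearMap.neg_apply, map_neg, LinearMap.neg_apply, hy, neg_neg]
  have h2 : LinearMap.trace K V y = - LinearMap.trace K V y := by
    conv_lhs => rw [← LinearMap.trace_transpose', h1, LinearMap.trace_conj', map_neg]
  exact self_eq_neg.mp h2

end Trace

section Main

variable {K : Type*} [Field K] [CharZero K]
variable {L : Type*} [LieRing L] [LieAlgebra K L]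
variable {V : Type*} [AddCommGroup V] [Module K V] [LieRingModule L V] [LieModule K L V]
variable [FiniteDimensional K V]

/-- Dimension count. -/
lemma finrank_le_of_tripotent {B : LinearMap.BilinForm K V}
    (hB : ∀ v, (∀ w, B v w = 0) → v = 0)
    (hinv : ∀ (x : L) (v w : V), B ⁅x, v⁆ w = - B v ⁅x, w⁆) {t : L} (ht : IsTripotentOn V t) :
    finrank K V ≤ finrank K ((toEnd K L V t).eigenspace 0) +
      2 * finrank K ((toEnd K L V t).eigenspace 1) := by
  set T := toEnd K L V t with hT
  have h1 : finrank K (LinearMap.range T) + finrank K (LinearMap.ker T) = finrank K V :=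
    LinearMap.finrank_range_add_finrank_ker T
  have h2 : T.eigenspace 0 = LinearMap.ker T := Module.End.eigenspace_zero T
  have h3 : LinearMap.range T ≤ T.eigenspace 1 ⊔ T.eigenspace (-1) := by
    rintro _ ⟨v, rfl⟩
    obtain ⟨a, b, c, rfl, ha, hb, hc⟩ := IsTripotentOn.decomp (K := K) ht v
    have : T (a + b + c) = a + (-c) := by
      rw [hT, toEnd_apply_apply, lie_add, lie_add, ha, hb, hc, add_zero]
    rw [this]
    refine Submodule.add_mem_sup ?_ ?_
    · rw [Module.End.mem_eigenspace_iff, hT, toEnd_apply_apply, ha, one_smul]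
    · rw [Module.End.mem_eigenspace_iff, hT, toEnd_apply_apply, lie_neg, hc, neg_one_smul]
  have h4 : finrank K (T.eigenspace (-1)) ≤ finrank K (T.eigenspace 1) := by
    let φ : T.eigenspace (-1) →ₗ[K] Dual K (T.eigenspace 1) :=
      (Submodule.subtype (T.eigenspace 1)).dualMap ∘ₗ B ∘ₗ (Submodule.subtype (T.eigenspace (-1)))
    have hφ : ∀ v w, φ v w = B v w := fun v w ↦ rfl
    have hinj : Function.Injective φ := by
      rw [← LinearMap.ker_eq_bot, eq_bot_iff]
      rintro ⟨v, hv⟩ hv'
      rw [Submodule.mem_bot, Submodule.mk_eq_zero]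
      apply hB
      intro w
      have hv1 : ⁅t, v⁆ = (-1 : K) • v := Module.End.mem_eigenspace_iff.mp hv
      obtain ⟨a, b, c, rfl, ha, hb, hc⟩ := IsTripotentOn.decomp (K := K) ht w
      rw [map_add, map_add,
        orth_of_eigen hinv (t := t) (w := b) (b := 0) hv1 (by rw [hb, zero_smul]) (by norm_num),
        orth_of_eigen hinv (t := t) (w := c) (b := -1) hv1 (by rw [hc, neg_one_smul])
          (by norm_num), add_zero, add_zero]
      have ha' : a ∈ T.eigenspace 1 := by
        rw [Module.End.mem_eigenspace_iff, hT, toEnd_apply_apply, ha, one_smul]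
      have := LinearMap.congr_fun (LinearMap.mem_ker.mp hv') ⟨a, ha'⟩
      rw [hφ] at this
      exact this
    calc finrank K (T.eigenspace (-1)) ≤ finrank K (Dual K (T.eigenspace 1)) :=
          LinearMap.finrank_le_finrank_of_injective hinj
      _ = _ := Subspace.dual_finrank_eq
  have h5 : finrank K (LinearMap.range T) ≤
      finrank K (T.eigenspace 1) + finrank K (T.eigenspace (-1)) :=
    (Submodule.finrank_mono h3).trans (Submodule.finrank_add_le_finrank_add_finrank _ _)
  rw [h2]
  omega

variable [IsAlgClosed K] [FiniteDimensional K L] [IsIrreducible K L V] [IsFaithful K L V]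

/-- The main theorem, abstract form. -/
theorem exists_toEnd_eq_of_large {B : LinearMap.BilinForm K V}
    (hB : ∀ v, (∀ w, B v w = 0) → v = 0)
    (hsymm : ∀ v w, B v w = B w v)
    (hinv : ∀ (x : L) (v w : V), B ⁅x, v⁆ w = - B v ⁅x, w⁆)
    (hker : ∀ x : L, ∃ v : V, v ≠ 0 ∧ ⁅x, v⁆ = 0) {t : L} (ht : IsTripotentOn V t)
    (hgen : ∀ I J : LieIdeal K L, (∀ x ∈ I, ∀ y ∈ J, ⁅x, y⁆ = 0) → I ⊔ J = ⊤ → t ∈ I → J = ⊥)
    (hpos : 0 < finrank K ((toEnd K L V t).eigenspace 1))
    (hlarge : finrank K ((toEnd K L V t).eigenspace 1) * finrank K ((toEnd K L V t).eigenspace 1) +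
      2 * finrank K ((toEnd K L V t).eigenspace 1) < finrank K V)
    {y : Module.End K V} (hy : ∀ v w, B (y v) w = - B v (y w)) :
    ∃ x : L, toEnd K L V x = y := by
  -- `L` is semisimple
  have htr : HasTrivialRadical K L := hasTrivialRadical_of_isIrreducible_of_isFaithful K L V
    fun x ↦ trace_eq_zero_of_skew hB (fun v w ↦ hinv x v w)
  have hkill : IsKilling K L := inferInstance
  -- a vector of eigenvalue one
  obtain ⟨v₁, hv₁, hv₁0⟩ : ∃ v₁ : V, ⁅t, v₁⁆ = v₁ ∧ v₁ ≠ 0 := by
    have : Nontrivial ((toEnd K L V t).eigenspace 1) := Module.nontrivial_of_finrank_pos hpos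
    obtain ⟨⟨v, hv⟩, hv0⟩ := exists_ne (0 : (toEnd K L V t).eigenspace 1)
    refine ⟨v, ?_, fun h ↦ hv0 (Subtype.ext h)⟩
    have := Module.End.mem_eigenspace_iff.mp hv
    rwa [one_smul, toEnd_apply_apply] at this
  have ht0 : t ≠ 0 := by
    rintro rfl
    rw [zero_lie] at hv₁
    exact hv₁0 hv₁.symm
  have hLnt : Nontrivial L := ⟨⟨t, 0, ht0⟩⟩
  have hid := ad_identity (K := K) (V := V) ht
  -- `L` is simple
  have hsimple : IsSimple K L := by
    refine ⟨fun I ↦ ?_, ?_⟩
    · have hc : IsCompl I I.killingCompl := LieIdeal.isCompl_killingCompl I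
      set J := I.killingCompl with hJ
      have hIJ : ∀ x ∈ I, ∀ y ∈ J, ⁅x, y⁆ = 0 := by
        intro x hx y hy
        have h1 : ⁅x, y⁆ ∈ I ⊓ J := by
          refine ⟨?_, lie_mem_right K L J x y hy⟩
          exact lie_mem_left K L I x y hx
        rw [hc.inf_eq_bot] at h1
        simpa using h1
      have hJI : ∀ x ∈ J, ∀ y ∈ I, ⁅x, y⁆ = 0 := by
        intro x hx y hy
        rw [← lie_skew, hIJ y hy x hx, neg_zero]
      have hsup : I ⊔ J = ⊤ := hc.sup_eq_top
      have hsup' : J ⊔ I = ⊤ := by rw [sup_comm]; exact hsup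
      have htIJ : t ∈ I ⊔ J := hsup ▸ LieSubmodule.mem_top t
      obtain ⟨a, ha, b, hb, hab⟩ := (LieSubmodule.mem_sup I J t).mp htIJ
      have hcomp := component_eq_zero hB hinv hker hIJ hsup ha hb (hab ▸ ht) (hab ▸ hid)
      rcases hcomp with h | h
      · left
        refine hgen J I hJI hsup' ?_
        rw [← hab, h, zero_add]; exact hb
      · right
        have h2 : J = ⊥ := by
          refine hgen I J hIJ hsup ?_
          rw [← hab, h, add_zero]; exact ha
        rw [h2, sup_bot_eq] at hsup
        exact hsup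
    · intro hab
      have h1 : Subsingleton L := (IsKilling.isLieAbelian_iff_subsingleton K L).mp hab
      exact not_subsingleton L h1
  -- Cartan subalgebra containing `t`
  obtain ⟨H, hH, htH⟩ := exists_cartan_mem (K := K) (t := t)
    (fun y hy ↦ ad_sq_zero (K := K) (V := V) ht y hy)
  have hirr : (rootSystem H).IsIrreducible := inferInstance
  have h0 : (0 : Dual K H) ∈ wSet H V := zero_mem_wSet H V hker
  rcases (isWeightSet H V h0).indec_or_pairwiseOrth with hind | horth
  · -- indecomposable case: dimension bound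
    exfalso
    have h1 := finrank_eigenspace_zero_le H htH ht h0 hind hv₁ hv₁0
    have h2 := finrank_le_of_tripotent hB hinv ht
    omega
  · obtain ⟨s, hsH, hs, e, he0, he, huniq⟩ := exists_rank_two H htH ht ht0 h0 horth
    exact exists_toEnd_eq_of_rank_two hB hsymm hinv hs (mem_span_eigen H hsH) he he0 huniq hy

end Main

end Pool.Agent.Helper88
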