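import Mathlib
import Pool.Agent.Helper88.Main

/-!
# Burnside's theorem and a dimension bound
-/

set_option linter.unusedSectionVars false

namespace Pool.Agent.Helper88

open LieModule LieAlgebra LieAlgebra.IsKilling Module

section Burnside

variable {K : Type*} [Field K] [IsAlgClosed K] {V : Type*} [AddCommGroup V] [Module K V]
  [FiniteDimensional K V]

/-- Burnside's theorem: an irreducible algebra of operators contains all operators. -/
lemma subalgebra_eq_top_of_irreducible [Nontrivial V] (D : Subalgebra K (Module.End K V))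
    (hirr : ∀ W : Submodule K V, (∀ a ∈ D, ∀ w ∈ W, a w ∈ W) → W = ⊥ ∨ W = ⊤) : D = ⊤ := by
  classical
  have hsimp : IsSimpleModule D V := by
    rw [isSimpleModule_iff]
    refine { exists_pair_ne := ⟨⊥, ⊤, bot_ne_top⟩, eq_bot_or_eq_top := fun N ↦ ?_ }
    rcases hirr (N.restrictScalars K) (fun a ha w hw ↦ N.smul_mem (⟨a, ha⟩ : D) hw) with h | h
    · left
      rw [eq_bot_iff]
      intro w hw
      have : w ∈ N.restrictScalars K := hw
      rw [h] at this
      exact this
    · right
      rw [eq_top_iff]
      intro w _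
      have : w ∈ N.restrictScalars K := h ▸ Submodule.mem_top
      exact this
  rw [eq_top_iff]
  intro f _
  -- `f` commutes with the endomorphisms
  let f' : Module.End (Module.End D V) V :=
    { toFun := f
      map_add' := map_add f
      map_smul' := by
        intro φ v
        obtain ⟨c, hc⟩ := (IsSimpleModule.algebraMap_end_bijective_of_isAlgClosed K
          (A := D) (V := V)).2 φ
        have h1 : ∀ v, φ v = c • v := by
          intro v
          rw [← hc]
          rfl
        change f (φ v) = φ (f v)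
        rw [h1, h1, map_smul] }
  let b := Module.finBasis K V
  obtain ⟨r, hr⟩ := jacobson_density (R := D) f' (Finset.univ.image b)
  have h2 : f = r.1 := by
    apply b.ext
    intro i
    exact hr (b i) (Finset.mem_image_of_mem _ (Finset.mem_univ i))
  rw [h2]
  exact r.2

end Burnside

section Bound

attribute [local instance 100] LieRing.ofAssociativeRing

variable {K : Type*} [Field K] [IsAlgClosed K] [CharZero K]
variable {L : Type*} [LieRing L] [LieAlgebra K L] [FiniteDimensional K L]
variable {V : Type*} [AddCommGroup V] [Module K V] [LieRingModule L V] [LieModule K L V]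
variable [FiniteDimensional K V] [IsIrreducible K L V] [IsFaithful K L V]

lemma idAlg_stable {J : LieIdeal K L} {W : Submodule K V}
    (hW : ∀ x ∈ J, ∀ w ∈ W, ⁅x, w⁆ ∈ W) {z : Module.End K V} (hz : z ∈ idAlg V J) :
    ∀ w ∈ W, z w ∈ W := by
  refine Algebra.adjoin_induction (fun w hw ↦ ?_) (fun r ↦ ?_) (fun a b _ _ ha hb ↦ ?_)
    (fun a b _ _ ha hb ↦ ?_) hz
  · obtain ⟨y, hy, rfl⟩ := hw
    exact fun w hw ↦ hW y hy w hw
  · intro w hw
    rw [Module.algebraMap_end_apply]
    exact W.smul_mem _ hw
  · intro w hw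
    exact W.add_mem (ha w hw) (hb w hw)
  · intro w hw
    exact ha _ (hb w hw)

/-- The algebra generated by an ideal acts faithfully on each stable subspace. -/
lemma finrank_idAlg_le {I J : LieIdeal K L} (hIJ : ∀ x ∈ I, ∀ y ∈ J, ⁅x, y⁆ = 0)
    (hsup : I ⊔ J = ⊤) {W : Submodule K V} (hW : ∀ x ∈ J, ∀ w ∈ W, ⁅x, w⁆ ∈ W) (hW0 : W ≠ ⊥) :
    finrank K (Subalgebra.toSubmodule (idAlg V J)) ≤ finrank K W * finrank K W := by
  obtain ⟨U, hU, hall⟩ := isotypic_of_ideals (V := V) hIJ hsup
  let N : Submodule (idAlg V J) V :=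
    { W with
      smul_mem' := by
        rintro ⟨z, hz⟩ w hw
        exact idAlg_stable hW hz w hw }
  have hN : N ≠ ⊥ := by
    obtain ⟨w, hw, hw0⟩ := (Submodule.ne_bot_iff _).mp hW0
    exact (Submodule.ne_bot_iff _).mpr ⟨w, hw, hw0⟩
  let φ : Subalgebra.toSubmodule (idAlg V J) →ₗ[K] Module.End K W :=
    { toFun := fun z ↦ (z.1).restrict (fun w hw ↦ idAlg_stable hW z.2 w hw)
      map_add' := by intro a b; ext w; rfl
      map_smul' := by intro c a; ext w; rfl }
  have hφ : Function.Injective φ := by
    rw [← LinearMap.ker_eq_bot, eq_bot_iff]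
    rintro ⟨z, hz⟩ hz'
    rw [Submodule.mem_bot, Submodule.mk_eq_zero]
    ext v
    refine eq_zero_of_kill hall hN hz ?_ v
    intro w hw
    have := LinearMap.congr_fun (LinearMap.mem_ker.mp hz') ⟨w, hw⟩
    exact congrArg Subtype.val this
  calc finrank K (Subalgebra.toSubmodule (idAlg V J)) ≤ finrank K (Module.End K W) :=
        LinearMap.finrank_le_finrank_of_injective hφ
    _ = _ := Module.finrank_linearMap K K W W

lemma finrank_le_mul_of_ideals {I J : LieIdeal K L} (hIJ : ∀ x ∈ I, ∀ y ∈ J, ⁅x, y⁆ = 0)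
    (hsup : I ⊔ J = ⊤) {W₁ W₂ : Submodule K V} (hW₁ : ∀ x ∈ I, ∀ w ∈ W₁, ⁅x, w⁆ ∈ W₁)
    (hW₁0 : W₁ ≠ ⊥) (hW₂ : ∀ x ∈ J, ∀ w ∈ W₂, ⁅x, w⁆ ∈ W₂) (hW₂0 : W₂ ≠ ⊥) :
    finrank K V ≤ finrank K W₁ * finrank K W₂ := by
  have hVnt : Nontrivial V := nontrivial_of_isIrreducible K L V
  have hJI : ∀ x ∈ J, ∀ y ∈ I, ⁅x, y⁆ = 0 := by
    intro x hx y hy
    rw [← lie_skew, hIJ y hy x hx, neg_zero]
  have hsup' : J ⊔ I = ⊤ := by rw [sup_comm]; exact hsup
  set A := Subalgebra.toSubmodule (idAlg V I) with hA
  set C := Subalgebra.toSubmodule (idAlg V J) with hC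
  have h1 : finrank K A ≤ finrank K W₁ * finrank K W₁ := finrank_idAlg_le hJI hsup' hW₁ hW₁0
  have h2 : finrank K C ≤ finrank K W₂ * finrank K W₂ := finrank_idAlg_le hIJ hsup hW₂ hW₂0
  -- the two algebras commute
  have hcomm : ∀ c ∈ idAlg V J, ∀ a ∈ idAlg V I, c * a = a * c := by
    intro c hc a ha
    refine Algebra.adjoin_induction (p := fun a _ ↦ c * a = a * c) (fun w hw ↦ ?_) (fun r ↦ ?_)
      (fun a b _ _ ha hb ↦ ?_) (fun a b _ _ ha hb ↦ ?_) ha
    · obtain ⟨y, hy, rfl⟩ := hw
      ext v
      exact idAlg_comm hIJ hc hy v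
    · exact (Algebra.commutes r c).symm
    · rw [mul_add, add_mul, ha, hb]
    · rw [← mul_assoc, ha, mul_assoc, hb, mul_assoc]
  have hCA : C * A ≤ A * C := by
    rw [Submodule.mul_le]
    intro c hc a ha
    rw [hcomm c hc a ha]
    exact Submodule.mul_mem_mul ha hc
  have hAA : A * A ≤ A := by
    rw [Submodule.mul_le]
    intro a ha b hb
    exact (idAlg V I).mul_mem ha hb
  have hCC : C * C ≤ C := by
    rw [Submodule.mul_le]
    intro a ha b hb
    exact (idAlg V J).mul_mem ha hb
  have hP : (A * C) * (A * C) ≤ A * C := by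
    calc (A * C) * (A * C) = A * (C * A) * C := by
          rw [mul_assoc, mul_assoc, mul_assoc]
      _ ≤ A * (A * C) * C := by gcongr
      _ = (A * A) * (C * C) := by rw [mul_assoc, mul_assoc, mul_assoc]
      _ ≤ A * C := by gcongr
  let D : Subalgebra K (Module.End K V) :=
    (A * C).toSubalgebra
      (by
        have := Submodule.mul_mem_mul (M := A) (N := C) (idAlg V I).one_mem (idAlg V J).one_mem
        rwa [mul_one] at this)
      (fun x y hx hy ↦ hP (Submodule.mul_mem_mul hx hy))
  have hD : D = ⊤ := by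
    apply subalgebra_eq_top_of_irreducible
    intro W hW
    let WL : LieSubmodule K L V :=
      { W with
        lie_mem := by
          intro x w hw
          have hx : x ∈ I ⊔ J := hsup ▸ LieSubmodule.mem_top x
          obtain ⟨a, ha, b, hb, rfl⟩ := (LieSubmodule.mem_sup I J x).mp hx
          rw [add_lie]
          refine W.add_mem (hW (toEnd K L V a) ?_ w hw) (hW (toEnd K L V b) ?_ w hw)
          · have := Submodule.mul_mem_mul (M := A) (N := C) (toEnd_mem_idAlg (V := V) ha)
              (idAlg V J).one_mem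
            rwa [mul_one] at this
          · have := Submodule.mul_mem_mul (M := A) (N := C) (idAlg V I).one_mem
              (toEnd_mem_idAlg (V := V) hb)
            rwa [one_mul] at this }
    rcases IsSimpleOrder.eq_bot_or_eq_top WL with h | h
    · left
      rw [eq_bot_iff]
      intro w hw
      have : w ∈ WL := hw
      rw [h] at this
      exact this
    · right
      rw [eq_top_iff]
      intro w _
      have : w ∈ WL := h ▸ LieSubmodule.mem_top w
      exact this
  have h3 : finrank K (A * C : Submodule K (Module.End K V)) = finrank K V * finrank K V := by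
    have : (A * C : Submodule K (Module.End K V)) = ⊤ := by
      have h := congrArg Subalgebra.toSubmodule hD
      simpa [D] using h
    rw [this, finrank_top, Module.finrank_linearMap]
  have h4 : finrank K (A * C : Submodule K (Module.End K V)) ≤ finrank K A * finrank K C := by
    rw [← Submodule.mulMap_range]
    calc _ ≤ finrank K (TensorProduct K A C) := LinearMap.finrank_range_le _
      _ = _ := Module.finrank_tensorProduct
  have h5 : finrank K V * finrank K V ≤
      (finrank K W₁ * finrank K W₂) * (finrank K W₁ * finrank K W₂) := by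
    rw [← h3]
    refine h4.trans ((Nat.mul_le_mul h1 h2).trans (le_of_eq (by ring)))
  exact Nat.mul_self_le_mul_self_iff.mp h5

end Bound

end Pool.Agent.Helper88
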