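import Mathlib
import Pool.Agent.Helper88.Burnside

/-!
# The main theorem with semilinear automorphisms
-/

set_option linter.unusedSectionVars false

namespace Pool.Agent.Helper88

open LieModule LieAlgebra LieAlgebra.IsKilling Module

variable {K : Type*} [Field K] [IsAlgClosed K] [CharZero K]
variable {L : Type*} [LieRing L] [LieAlgebra K L]
variable {V : Type*} [AddCommGroup V] [Module K V] [LieRingModule L V] [LieModule K L V]
variable [FiniteDimensional K V] [IsFaithful K L V]

/-- A semilinear automorphism of a representation. -/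
structure SemiAut (K L V : Type*) [Field K] [LieRing L] [LieAlgebra K L] [AddCommGroup V]
    [Module K V] [LieRingModule L V] [LieModule K L V] where
  /-- the automorphism of the field -/
  s₀ : K ≃+* K
  /-- the automorphism of the space -/
  s : V ≃+ V
  /-- the automorphism of the Lie algebra -/
  t : L → L
  smul : ∀ (c : K) (v : V), s (c • v) = s₀ c • s v
  lie : ∀ (x : L) (v : V), s ⁅x, v⁆ = ⁅t x, s v⁆
  surj : Function.Surjective t

namespace SemiAut

variable (σ : SemiAut K L V)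

lemma ext_lie (K V : Type*) [Field K] {L : Type*} [LieRing L] [LieAlgebra K L] [AddCommGroup V]
    [Module K V] [LieRingModule L V] [LieModule K L V] [IsFaithful K L V] {x y : L}
    (h : ∀ v : V, ⁅x, v⁆ = ⁅y, v⁆) : x = y := by
  have hinj : Function.Injective (toEnd K L V) := IsFaithful.injective_toEnd
  apply hinj
  ext v
  exact h v

lemma map_add (x y : L) : σ.t (x + y) = σ.t x + σ.t y := by
  apply ext_lie K V
  intro v
  obtain ⟨v, rfl⟩ := σ.s.surjective v
  rw [← σ.lie, add_lie, add_lie, _root_.map_add, σ.lie, σ.lie]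

lemma map_smul (c : K) (x : L) : σ.t (c • x) = σ.s₀ c • σ.t x := by
  apply ext_lie K V
  intro v
  obtain ⟨v, rfl⟩ := σ.s.surjective v
  rw [← σ.lie, smul_lie, smul_lie, σ.smul, σ.lie]

lemma map_lie (x y : L) : σ.t ⁅x, y⁆ = ⁅σ.t x, σ.t y⁆ := by
  apply ext_lie K V
  intro v
  obtain ⟨v, rfl⟩ := σ.s.surjective v
  rw [← σ.lie, lie_lie, lie_lie, _root_.map_sub, σ.lie, σ.lie, σ.lie, σ.lie]

lemma map_zero : σ.t 0 = 0 := by
  have := σ.map_smul 0 0
  rwa [zero_smul, _root_.map_zero, zero_smul] at this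

lemma injective : Function.Injective σ.t := by
  intro x y h
  apply ext_lie K V
  intro v
  apply σ.s.injective
  rw [σ.lie, σ.lie, h]

/-- Image of an ideal. -/
def mapIdeal (I : LieIdeal K L) : LieIdeal K L where
  carrier := σ.t '' (I : Set L)
  add_mem' := by
    rintro _ _ ⟨x, hx, rfl⟩ ⟨y, hy, rfl⟩
    exact ⟨x + y, I.add_mem hx hy, σ.map_add x y⟩
  zero_mem' := ⟨0, I.zero_mem, σ.map_zero⟩
  smul_mem' := by
    rintro c _ ⟨x, hx, rfl⟩
    refine ⟨σ.s₀.symm c • x, I.smul_mem _ hx, ?_⟩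
    rw [σ.map_smul, RingEquiv.apply_symm_apply]
  lie_mem := by
    rintro y _ ⟨x, hx, rfl⟩
    obtain ⟨y, rfl⟩ := σ.surj y
    exact ⟨⁅y, x⁆, lie_mem_right K L I y x hx, σ.map_lie y x⟩

lemma mem_mapIdeal {I : LieIdeal K L} {y : L} : y ∈ σ.mapIdeal I ↔ ∃ x ∈ I, σ.t x = y := Iff.rfl

/-- Preimage of an ideal. -/
def comapIdeal (I : LieIdeal K L) : LieIdeal K L where
  carrier := {x | σ.t x ∈ I}
  add_mem' := by
    intro x y hx hy
    change σ.t (x + y) ∈ I
    rw [σ.map_add]
    exact I.add_mem hx hy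
  zero_mem' := by
    change σ.t 0 ∈ I
    rw [σ.map_zero]
    exact I.zero_mem
  smul_mem' := by
    intro c x hx
    change σ.t (c • x) ∈ I
    rw [σ.map_smul]
    exact I.smul_mem _ hx
  lie_mem := by
    intro y x hx
    change σ.t ⁅y, x⁆ ∈ I
    rw [σ.map_lie]
    exact lie_mem_right K L I _ _ hx

lemma mem_comapIdeal {I : LieIdeal K L} {x : L} : x ∈ σ.comapIdeal I ↔ σ.t x ∈ I := Iff.rfl

end SemiAut

variable [FiniteDimensional K L] [IsIrreducible K L V]

/-- The main theorem in the presence of semilinear automorphisms. -/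
theorem exists_toEnd_eq_of_semiAut {B : LinearMap.BilinForm K V}
    (hB : ∀ v, (∀ w, B v w = 0) → v = 0)
    (hsymm : ∀ v w, B v w = B w v)
    (hinv : ∀ (x : L) (v w : V), B ⁅x, v⁆ w = - B v ⁅x, w⁆)
    (hker : ∀ x : L, ∃ v : V, v ≠ 0 ∧ ⁅x, v⁆ = 0) {t : L} (ht : IsTripotentOn V t)
    (hgen : ∀ I : LieIdeal K L, t ∈ I → I ≠ ⊤ → ∃ σ : SemiAut K L V, ∃ x ∈ I, σ.t x ∉ I)
    (hpos : 0 < finrank K ((toEnd K L V t).eigenspace 1))
    (hlarge : finrank K ((toEnd K L V t).eigenspace 1) * finrank K ((toEnd K L V t).eigenspace 1) +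
      2 * finrank K ((toEnd K L V t).eigenspace 1) < finrank K V)
    {y : Module.End K V} (hy : ∀ v w, B (y v) w = - B v (y w)) :
    ∃ x : L, toEnd K L V x = y := by
  -- `L` is semisimple
  have htr : HasTrivialRadical K L := hasTrivialRadical_of_isIrreducible_of_isFaithful K L V
    fun x ↦ trace_eq_zero_of_skew hB (fun v w ↦ hinv x v w)
  have hkill : IsKilling K L := inferInstance
  have hid := ad_identity (K := K) (V := V) ht
  have hcompl : ∀ I : LieIdeal K L, (∀ x ∈ I, ∀ y ∈ I.killingCompl, ⁅x, y⁆ = 0) ∧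
      I ⊔ I.killingCompl = ⊤ ∧ I ⊓ I.killingCompl = ⊥ := by
    intro I
    have hc : IsCompl I I.killingCompl := LieIdeal.isCompl_killingCompl I
    refine ⟨?_, hc.sup_eq_top, hc.inf_eq_bot⟩
    intro x hx y hy
    have h1 : ⁅x, y⁆ ∈ I ⊓ I.killingCompl := by
      refine ⟨?_, lie_mem_right K L _ x y hy⟩
      exact lie_mem_left K L I x y hx
    rw [hc.inf_eq_bot] at h1
    simpa using h1
  -- a minimal ideal containing `t`
  have hwf : WellFoundedLT (LieIdeal K L) := LieSubmodule.wellFoundedLT_of_isArtinian K L L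
  obtain ⟨I₀, htI₀, hmin⟩ := WellFounded.has_min hwf.wf {I : LieIdeal K L | t ∈ I}
    ⟨⊤, (LieSubmodule.mem_top t : t ∈ (⊤ : LieIdeal K L))⟩
  have hmin' : ∀ I : LieIdeal K L, t ∈ I → I₀ ≤ I := by
    intro I hI
    by_contra hcon
    apply hmin (I₀ ⊓ I) ⟨htI₀, hI⟩
    refine lt_of_le_of_ne inf_le_left fun h ↦ hcon ?_
    rw [← h]
    exact inf_le_right
  by_cases htop : I₀ = ⊤
  · -- no proper ideal contains `t`
    refine exists_toEnd_eq_of_large hB hsymm hinv hker ht ?_ hpos hlarge hy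
    intro I J hIJ hsup htI
    have hItop : I = ⊤ := by
      rw [eq_top_iff, ← htop]
      exact hmin' I htI
    rw [LieSubmodule.eq_bot_iff]
    intro y hy
    have hc : y ∈ LieAlgebra.center K L := by
      rw [LieModule.mem_maxTrivSubmodule]
      intro z
      exact hIJ z (hItop ▸ LieSubmodule.mem_top z) y hy
    rw [LieAlgebra.center_eq_bot] at hc
    simpa using hc
  · exfalso
    -- `I₀` is minimal
    have hatom : ∀ A : LieIdeal K L, A ≤ I₀ → A = ⊥ ∨ A = I₀ := by
      intro A hA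
      obtain ⟨h1, h2, h3⟩ := hcompl A
      have htA : t ∈ A ⊔ A.killingCompl := h2 ▸ LieSubmodule.mem_top t
      obtain ⟨a, ha, b, hb, hab⟩ := (LieSubmodule.mem_sup _ _ t).mp htA
      rcases component_eq_zero hB hinv hker h1 h2 ha hb (hab ▸ ht) (hab ▸ hid) with h | h
      · left
        have h4 : I₀ ≤ A.killingCompl := by
          refine hmin' _ ?_
          rw [← hab, h, zero_add]; exact hb
        rw [eq_bot_iff, ← h3]
        exact le_inf le_rfl (hA.trans h4)
      · right
        refine le_antisymm hA (hmin' _ ?_)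
        rw [← hab, h, add_zero]; exact ha
    obtain ⟨σ, x, hx, hx'⟩ := hgen I₀ htI₀ htop
    -- the conjugate ideal
    have hdisj : σ.mapIdeal I₀ ⊓ I₀ = ⊥ := by
      set A := σ.mapIdeal I₀ ⊓ I₀ with hA
      have h1 : σ.comapIdeal A ≤ I₀ := by
        intro z hz
        rw [SemiAut.mem_comapIdeal, hA] at hz
        obtain ⟨z', hz', hzz⟩ := σ.mem_mapIdeal.mp hz.1
        rw [← σ.injective hzz]
        exact hz'
      rcases hatom _ h1 with h2 | h2
      · rw [LieSubmodule.eq_bot_iff]
        intro y hy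
        obtain ⟨y', rfl⟩ := σ.surj y
        have h3 : y' ∈ σ.comapIdeal A := hy
        rw [h2] at h3
        have : y' = 0 := by simpa using h3
        rw [this, σ.map_zero]
      · exfalso
        have h3 : x ∈ σ.comapIdeal A := h2 ▸ hx
        exact hx' h3.2
    have hcommI : ∀ x ∈ σ.mapIdeal I₀, ∀ y ∈ I₀, ⁅x, y⁆ = 0 := by
      intro x hx y hy
      have h1 : ⁅x, y⁆ ∈ σ.mapIdeal I₀ ⊓ I₀ :=
        ⟨lie_mem_left K L _ x y hx, lie_mem_right K L I₀ x y hy⟩
      rw [hdisj] at h1
      simpa using h1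
    -- the subspaces
    set W₂ := (toEnd K L V t).eigenspace 1 with hW₂
    have hmem : ∀ v, v ∈ W₂ ↔ ⁅t, v⁆ = v := by
      intro v
      rw [hW₂, Module.End.mem_eigenspace_iff, one_smul, toEnd_apply_apply]
    have hW₂0 : W₂ ≠ ⊥ := by
      intro h
      rw [h, finrank_bot] at hpos
      exact lt_irrefl _ hpos
    have hstab : ∀ x : L, ⁅x, t⁆ = 0 → ∀ w ∈ W₂, ⁅x, w⁆ ∈ W₂ := by
      intro x hx w hw
      rw [hmem] at hw ⊢
      have := leibniz_lie x t w
      rw [hx, zero_lie, zero_add, hw] at this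
      exact this.symm
    obtain ⟨h1, h2, h3⟩ := hcompl I₀
    let W₁ : Submodule K V :=
      { carrier := {v | σ.s v ∈ W₂}
        add_mem' := by
          intro a b ha hb
          change σ.s (a + b) ∈ W₂
          rw [_root_.map_add]
          exact W₂.add_mem ha hb
        zero_mem' := by
          change σ.s 0 ∈ W₂
          rw [_root_.map_zero]
          exact W₂.zero_mem
        smul_mem' := by
          intro c a ha
          change σ.s (c • a) ∈ W₂
          rw [σ.smul]
          exact W₂.smul_mem _ ha }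
    have hW₁ : ∀ v, v ∈ W₁ ↔ σ.s v ∈ W₂ := fun v ↦ Iff.rfl
    have hdim : finrank K W₁ = finrank K W₂ := by
      let j : W₁ ≃+ W₂ :=
        { toFun := fun v ↦ ⟨σ.s v.1, v.2⟩
          invFun := fun v ↦ ⟨σ.s.symm v.1, by
            rw [hW₁, AddEquiv.apply_symm_apply]; exact v.2⟩
          left_inv := by intro v; ext; simp
          right_inv := by intro v; ext; simp
          map_add' := by intro v w; ext; simp }
      unfold finrank
      rw [rank_eq_of_equiv_equiv σ.s₀ j σ.s₀.bijective]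
      intro r m
      ext
      exact σ.smul r m
    have hW₁0 : W₁ ≠ ⊥ := by
      intro h
      rw [h, finrank_bot] at hdim
      rw [← hdim] at hpos
      exact lt_irrefl _ hpos
    have key := finrank_le_mul_of_ideals (V := V) h1 h2 (W₁ := W₁) (W₂ := W₂) ?_ hW₁0 ?_ hW₂0
    · rw [hdim] at key
      nlinarith [key, hlarge, hpos]
    · intro x hx w hw
      rw [hW₁] at hw ⊢
      rw [σ.lie]
      exact hstab _ (hcommI _ ⟨x, hx, rfl⟩ t htI₀) _ hw
    · intro x hx w hw
      refine hstab _ ?_ _ hw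
      rw [← lie_skew, h1 t htI₀ x hx, neg_zero]

end Pool.Agent.Helper88
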